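import Mathlib

/-!
# The Hausdorff dimension of level sets
-/

set_option autoImplicit false

open Topology Set Module

namespace Pool.Agent.H445

section

variable {E F : Type*} [NormedAddCommGroup E] [NormedSpace ℝ E] [FiniteDimensional ℝ E]
  [NormedAddCommGroup F] [NormedSpace ℝ F] [FiniteDimensional ℝ F]

theorem dimH_level_surj {f : E → F} {f' : E →L[ℝ] F} {a : E} (hf : HasStrictFDerivAt f f' a)
    (hs : (f' : E →ₗ[ℝ] F).range = ⊤) :
    ∃ t ∈ 𝓝 a, dimH {x ∈ t | f x = f a} ≤ (finrank ℝ (f' : E →ₗ[ℝ] F).ker : ℕ) := by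
  have : CompleteSpace E := FiniteDimensional.complete ℝ E
  set g := hf.implicitFunction f f' hs (f a) with hg
  have hg' := hf.to_implicitFunction hs
  obtain ⟨C, s, hs0, hL⟩ := hg'.exists_lipschitzOnWith
  have h1 := hf.eq_implicitFunction hs
  set φ := hf.implicitToOpenPartialHomeomorph f f' hs with hφ
  have h2 : Filter.Tendsto (fun x => (φ x).2) (𝓝 a) (𝓝 0) := by
    have h3 : ContinuousAt φ a :=
      φ.continuousAt (hf.mem_implicitToOpenPartialHomeomorph_source hs)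
    have h4 : φ a = (f a, 0) := hf.implicitToOpenPartialHomeomorph_self hs
    have h5 := (continuous_snd.tendsto _).comp h3.tendsto
    rw [h4] at h5
    exact h5
  have h3 : ∀ᶠ x in 𝓝 a, (φ x).2 ∈ s := h2 hs0
  refine ⟨{x | g.comp (fun y => (φ y).2) x = x ∨ f x ≠ f a} ∩ {x | (φ x).2 ∈ s}, ?_, ?_⟩
  · refine Filter.inter_mem ?_ h3
    filter_upwards [h1] with x hx
    by_cases hfx : f x = f a
    · left
      rw [hfx] at hx
      exact hx
    · exact Or.inr hfx
  · calc dimH {x ∈ {x | g.comp (fun y => (φ y).2) x = x ∨ f x ≠ f a} ∩ {x | (φ x).2 ∈ s} |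
          f x = f a} ≤ dimH (g '' s) := by
          apply dimH_mono
          rintro x ⟨⟨h4, h5⟩, h6⟩
          rcases h4 with h4 | h4
          · exact ⟨(φ x).2, h5, h4⟩
          · exact absurd h6 h4
      _ ≤ dimH s := hL.dimH_image_le
      _ ≤ dimH (univ : Set (f' : E →ₗ[ℝ] F).ker) := dimH_mono (subset_univ _)
      _ = _ := Real.dimH_univ_eq_finrank _

theorem dimH_level {f : E → F} {f' : E →L[ℝ] F} {a : E} (hf : HasStrictFDerivAt f f' a) :
    ∃ t ∈ 𝓝 a, dimH {x ∈ t | f x = f a} ≤ (finrank ℝ (f' : E →ₗ[ℝ] F).ker : ℕ) := by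
  obtain ⟨p, hp⟩ := (f' : E →ₗ[ℝ] F).range.subtype.exists_leftInverse_of_injective
    (Submodule.ker_subtype _)
  let p' : F →L[ℝ] (f' : E →ₗ[ℝ] F).range := LinearMap.toContinuousLinearMap p
  have h1 : HasStrictFDerivAt (fun x => p' (f x)) (p'.comp f') a :=
    p'.hasStrictFDerivAt.comp a hf
  have hpf : ∀ x, ((p' (f' x) : (f' : E →ₗ[ℝ] F).range) : F) = f' x := by
    intro x
    have := congrArg (fun q => q ⟨f' x, ⟨x, rfl⟩⟩) hp
    have h2 : p (f' x) = ⟨f' x, ⟨x, rfl⟩⟩ := this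
    change ((p (f' x) : (f' : E →ₗ[ℝ] F).range) : F) = f' x
    rw [h2]
  have hs : (p'.comp f').toLinearMap.range = ⊤ := by
    rw [LinearMap.range_eq_top]
    rintro ⟨y, x, rfl⟩
    exact ⟨x, Subtype.ext (hpf x)⟩
  have hk : (p'.comp f').toLinearMap.ker = (f' : E →ₗ[ℝ] F).ker := by
    ext x
    simp only [LinearMap.mem_ker, ContinuousLinearMap.coe_coe, ContinuousLinearMap.comp_apply]
    constructor
    · intro h
      rw [← hpf x, h]
      rfl
    · intro h
      rw [h, map_zero]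
  obtain ⟨t, ht, hd⟩ := dimH_level_surj h1 hs
  rw [hk] at hd
  refine ⟨t, ht, le_trans (dimH_mono ?_) hd⟩
  rintro x ⟨hx, hfx⟩
  exact ⟨hx, by simp only [hfx]⟩

end

theorem dimH_le_of_local {X : Type*} [EMetricSpace X] [SecondCountableTopology X] {s : Set X}
    {r : ENNReal} (h : ∀ x ∈ s, ∃ t ∈ 𝓝[s] x, dimH t ≤ r) : dimH s ≤ r := by
  by_contra hcon
  obtain ⟨x, hx, hx'⟩ := exists_mem_nhdsWithin_lt_dimH_of_lt_dimH (not_le.1 hcon)
  obtain ⟨t, ht, ht'⟩ := h x hx
  exact absurd (hx' t ht) (not_lt.2 ht')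

end Pool.Agent.H445
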