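import Pool.Agent.H445.DimA
import Pool.Graph.R_seed8.Y776.Sys

/-!
# The dimension of the set of the points with few compatible directions
-/

set_option autoImplicit false
set_option linter.unusedSectionVars false

open Topology Set Module MvPolynomial
open Pool.Agent.Y119.CB Pool.Agent.Y776

noncomputable section

namespace Pool.Agent.H445

variable {n : ℕ} {σ : Type} [Fintype σ]

/-- the directions which are compatible with all relations over `K` -/
def Tan (P : Fin n → σ → MvPolynomial σ ℚ) (K : Subfield ℂ) (y : σ → ℂ) :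
    Submodule ℂ (Fin n → ℂ) where
  carrier := {v | ∀ g ∈ Grad P K y, ∑ j, g j * v j = 0}
  add_mem' := by
    intro v w hv hw g hg
    have h : ∑ j, g j * (v + w) j = ∑ j, g j * v j + ∑ j, g j * w j := by
      rw [← Finset.sum_add_distrib]
      exact Finset.sum_congr rfl fun j _ => by simp [mul_add]
    rw [h, hv g hg, hw g hg, add_zero]
  zero_mem' := by
    intro g _
    simp
  smul_mem' := by
    intro c v hv g hg
    have h : ∑ j, g j * (c • v) j = c * ∑ j, g j * v j := by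
      rw [Finset.mul_sum]
      exact Finset.sum_congr rfl fun j _ => by simp; ring
    rw [h, hv g hg, mul_zero]

theorem mem_Tan {P : Fin n → σ → MvPolynomial σ ℚ} {K : Subfield ℂ} {y : σ → ℂ}
    {v : Fin n → ℂ} : v ∈ Tan P K y ↔ ∀ g ∈ Grad P K y, ∑ j, g j * v j = 0 := Iff.rfl

/-- a compatible direction which moves a given coordinate -/
theorem good_Tan {P : Fin n → σ → MvPolynomial σ ℚ} {K : Subfield ℂ} {y : σ → ℂ} {j₀ : Fin n}
    (h : Good P K y j₀) : ∃ v ∈ Tan P K y, v j₀ = 1 := by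
  classical
  obtain ⟨f, hf1, hf2⟩ := Submodule.exists_le_ker_of_notMem h
  let v : Fin n → ℂ := fun j => f (Pi.single j 1) / f (Pi.single j₀ 1)
  have hv : ∀ g : Fin n → ℂ, ∑ j, g j * v j = f g / f (Pi.single j₀ 1) := by
    intro g
    have h1 : g = ∑ j, g j • (Pi.single j (1 : ℂ) : Fin n → ℂ) := by
      funext i'
      simp [Finset.sum_apply, Pi.single_apply]
    conv_rhs => rw [h1, map_sum, Finset.sum_div]
    refine Finset.sum_congr rfl fun j _ => ?_
    rw [map_smul, smul_eq_mul]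
    simp only [v]
    ring
  refine ⟨v, fun g hg => ?_, div_self hf1⟩
  have h1 : f g = 0 := hf2 (Submodule.subset_span hg)
  rw [hv, h1, zero_div]

theorem exists_rels (P : Fin n → σ → MvPolynomial σ ℚ) (K : Subfield ℂ) (y : σ → ℂ) :
    ∃ (r : ℕ) (H : Fin r → MvPolynomial σ K), (∀ i, aeval y (H i) = 0) ∧
      ∀ v : Fin n → ℂ, (∀ i, ∑ j, grC P y K (H i) j * v j = 0) → v ∈ Tan P K y := by
  have h1 : (Submodule.span ℂ (Grad P K y)).FG := IsNoetherian.noetherian _
  obtain ⟨s, hs, hsp⟩ := (Submodule.fg_span_iff_fg_span_finset_subset _).1 h1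
  have h2 : ∀ g : s, ∃ H : MvPolynomial σ K, aeval y H = 0 ∧ (g : Fin n → ℂ) = grC P y K H :=
    fun g => hs g.2
  choose H hH hg using h2
  refine ⟨s.card, fun i => H (s.equivFin.symm i), fun i => hH _, fun v hv g hg' => ?_⟩
  have h3 : g ∈ Submodule.span ℂ (s : Set (Fin n → ℂ)) := by
    rw [← hsp]
    exact Submodule.subset_span hg'
  refine Submodule.span_induction (p := fun g _ => ∑ j, g j * v j = 0) ?_ ?_ ?_ ?_ h3
  · intro g hg''
    have h4 := hv (s.equivFin ⟨g, hg''⟩)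
    beta_reduce at h4
    rw [Equiv.symm_apply_apply, ← hg] at h4
    exact h4
  · simp
  · intro x y _ _ hx hy
    have h : ∑ j, (x + y) j * v j = ∑ j, x j * v j + ∑ j, y j * v j := by
      rw [← Finset.sum_add_distrib]
      exact Finset.sum_congr rfl fun j _ => by simp [add_mul]
    rw [h, hx, hy, add_zero]
  · intro c x _ hx
    have h : ∑ j, (c • x) j * v j = c * ∑ j, x j * v j := by
      rw [Finset.mul_sum]
      exact Finset.sum_congr rfl fun j _ => by simp; ring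
    rw [h, hx, mul_zero]

variable {P : Fin n → σ → MvPolynomial σ ℚ} {K : Subfield ℂ} {U : Set (Fin n → ℂ)}
  {Φ : (Fin n → ℂ) → σ → ℂ}

/-- the map given by some relations -/
def mapR (K : Subfield ℂ) (Φ : (Fin n → ℂ) → σ → ℂ) {r : ℕ} (H : Fin r → MvPolynomial σ K)
    (x : Fin n → ℂ) : Fin r → ℂ := fun i => aeval (Φ x) (H i)

/-- its derivative -/
def mapR' (P : Fin n → σ → MvPolynomial σ ℚ) (K : Subfield ℂ) (Φ : (Fin n → ℂ) → σ → ℂ) {r : ℕ}
    (H : Fin r → MvPolynomial σ K) (x : Fin n → ℂ) : (Fin n → ℂ) →L[ℂ] (Fin r → ℂ) :=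
  ContinuousLinearMap.pi fun i => dF (Pk P K) Φ x (H i)

theorem mapR'_apply {r : ℕ} (H : Fin r → MvPolynomial σ K) (x v : Fin n → ℂ) (i : Fin r) :
    mapR' P K Φ H x v i = ∑ j, grC P (Φ x) K (H i) j * v j := by
  unfold mapR'
  rw [ContinuousLinearMap.pi_apply, dF_apply, gr_eq]

theorem strict_mapR (hU : IsOpen U)
    (hΦ : ∀ x ∈ U, ∀ s, HasFDerivAt (fun y => Φ y s) (∑ j, (aeval (Φ x) (P j s)) •
      (ContinuousLinearMap.proj j : (Fin n → ℂ) →L[ℂ] ℂ)) x) {r : ℕ}
    (H : Fin r → MvPolynomial σ K) {x : Fin n → ℂ} (hx : x ∈ U) :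
    HasStrictFDerivAt (mapR K Φ H) (mapR' P K Φ H x) x := by
  have hH : HypF (Pk P K) Φ U := by
    intro x hx s
    have h1 : (∑ j, (aeval (Φ x) (Pk P K j s)) •
        (ContinuousLinearMap.proj j : (Fin n → ℂ) →L[ℂ] ℂ)) = ∑ j, (aeval (Φ x) (P j s)) •
        (ContinuousLinearMap.proj j : (Fin n → ℂ) →L[ℂ] ℂ) :=
      Finset.sum_congr rfl (fun j _ => by rw [aeval_Pk])
    rw [h1]
    exact hΦ x hx s
  rw [hasStrictFDerivAt_pi']
  intro i
  have h1 := strict_ev hU hH hx (H i)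
  have h2 : (ContinuousLinearMap.proj i).comp (mapR' P K Φ H x) = dF (Pk P K) Φ x (H i) := by
    ext v
    simp [mapR']
  rw [h2]
  exact h1

/-- the zeros of some relations at which at most `d` directions are left -/
def piece (P : Fin n → σ → MvPolynomial σ ℚ) (K : Subfield ℂ) (Φ : (Fin n → ℂ) → σ → ℂ)
    (U : Set (Fin n → ℂ)) (d : ℕ) {r : ℕ} (H : Fin r → MvPolynomial σ K) : Set (Fin n → ℂ) :=
  {x | x ∈ U ∧ mapR K Φ H x = 0 ∧ finrank ℂ (mapR' P K Φ H x).toLinearMap.ker ≤ d}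

theorem mem_piece {d : ℕ} {x : Fin n → ℂ} (hx : x ∈ U) (h : finrank ℂ (Tan P K (Φ x)) ≤ d) :
    ∃ (r : ℕ) (H : Fin r → MvPolynomial σ K), x ∈ piece P K Φ U d H := by
  obtain ⟨r, H, h1, h2⟩ := exists_rels P K (Φ x)
  refine ⟨r, H, hx, funext h1, le_trans (Submodule.finrank_mono ?_) h⟩
  intro v hv
  apply h2
  intro i
  have h3 : mapR' P K Φ H x v = 0 := hv
  rw [← mapR'_apply, h3]
  rfl

theorem finrank_real_ker {r : ℕ} (f : (Fin n → ℂ) →L[ℂ] (Fin r → ℂ)) :
    finrank ℝ (f.restrictScalars ℝ).toLinearMap.ker = 2 * finrank ℂ f.toLinearMap.ker := by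
  have h1 : (f.restrictScalars ℝ).toLinearMap.ker = f.toLinearMap.ker.restrictScalars ℝ := rfl
  rw [h1]
  have h2 := finrank_mul_finrank ℝ ℂ f.toLinearMap.ker
  rw [Complex.finrank_real_complex] at h2
  exact h2.symm

theorem dimH_piece (hU : IsOpen U)
    (hΦ : ∀ x ∈ U, ∀ s, HasFDerivAt (fun y => Φ y s) (∑ j, (aeval (Φ x) (P j s)) •
      (ContinuousLinearMap.proj j : (Fin n → ℂ) →L[ℂ] ℂ)) x) (d : ℕ) {r : ℕ}
    (H : Fin r → MvPolynomial σ K) : dimH (piece P K Φ U d H) ≤ (2 * d : ℕ) := by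
  apply dimH_le_of_local
  rintro x ⟨hx, h0, hd⟩
  obtain ⟨t, ht, h1⟩ := dimH_level ((strict_mapR hU hΦ H hx).restrictScalars ℝ)
  refine ⟨t ∩ piece P K Φ U d H, Filter.inter_mem (mem_nhdsWithin_of_mem_nhds ht)
    self_mem_nhdsWithin, le_trans (dimH_mono ?_) (h1.trans ?_)⟩
  · rintro y ⟨hy, hy'⟩
    exact ⟨hy, by rw [hy'.2.1, h0]⟩
  · rw [finrank_real_ker]
    exact_mod_cast Nat.mul_le_mul_left 2 hd

/-- the real points -/
def emb (n : ℕ) : (Fin n → ℝ) →L[ℝ] (Fin n → ℂ) :=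
  ContinuousLinearMap.pi fun i => Complex.ofRealCLM.comp (ContinuousLinearMap.proj i)

theorem emb_apply (x : Fin n → ℝ) (i : Fin n) : emb n x i = (x i : ℂ) := rfl

theorem finrank_real_emb (V : Submodule ℂ (Fin n → ℂ)) :
    finrank ℝ ((V.restrictScalars ℝ).comap (emb n).toLinearMap) ≤ finrank ℂ V := by
  set W := (V.restrictScalars ℝ).comap (emb n).toLinearMap with hW
  let b := Module.finBasis ℝ W
  have h1 : LinearIndependent ℂ (fun i => (⟨emb n (b i), (b i).2⟩ : V)) := by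
    apply LinearIndependent.of_comp V.subtype
    rw [Fintype.linearIndependent_iff]
    intro c hc
    have h2 : ∀ k, ∑ i, c i * ((b i : Fin n → ℝ) k : ℂ) = 0 := by
      intro k
      have := congrFun hc k
      simpa [emb_apply] using this
    have hre : ∀ k, ∑ i, (c i).re * (b i : Fin n → ℝ) k = 0 := by
      intro k
      have := congrArg Complex.re (h2 k)
      simpa using this
    have him : ∀ k, ∑ i, (c i).im * (b i : Fin n → ℝ) k = 0 := by
      intro k
      have := congrArg Complex.im (h2 k)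
      simpa using this
    have h3 : ∀ a : Fin (finrank ℝ W) → ℝ, (∀ k, ∑ i, a i * (b i : Fin n → ℝ) k = 0) →
        ∀ i, a i = 0 := by
      intro a ha
      have h4 : ∑ i, a i • b i = 0 := by
        apply Subtype.ext
        funext k
        have := ha k
        simpa using this
      exact Fintype.linearIndependent_iff.1 b.linearIndependent a h4
    intro i
    exact Complex.ext (h3 _ hre i) (h3 _ him i)
  have h2 := h1.fintype_card_le_finrank
  rwa [Fintype.card_fin] at h2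

theorem dimH_piece_real (hU : IsOpen U)
    (hΦ : ∀ x ∈ U, ∀ s, HasFDerivAt (fun y => Φ y s) (∑ j, (aeval (Φ x) (P j s)) •
      (ContinuousLinearMap.proj j : (Fin n → ℂ) →L[ℂ] ℂ)) x) (d : ℕ) {r : ℕ}
    (H : Fin r → MvPolynomial σ K) :
    dimH {x : Fin n → ℝ | (fun i => (x i : ℂ)) ∈ piece P K Φ U d H} ≤ (d : ℕ) := by
  apply dimH_le_of_local
  rintro x ⟨hx, h0, hd⟩
  have h1 : HasStrictFDerivAt (fun y : Fin n → ℝ => mapR K Φ H (emb n y))
      (((mapR' P K Φ H (emb n x)).restrictScalars ℝ).comp (emb n)) x :=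
    ((strict_mapR hU hΦ H hx).restrictScalars ℝ).comp x (emb n).hasStrictFDerivAt
  obtain ⟨t, ht, h2⟩ := dimH_level h1
  refine ⟨t ∩ {x : Fin n → ℝ | (fun i => (x i : ℂ)) ∈ piece P K Φ U d H},
    Filter.inter_mem (mem_nhdsWithin_of_mem_nhds ht)
    self_mem_nhdsWithin, le_trans (dimH_mono ?_) (h2.trans ?_)⟩
  · rintro y ⟨hy, hy'⟩
    refine ⟨hy, ?_⟩
    have h3 : mapR K Φ H (emb n y) = 0 := hy'.2.1
    have h4 : mapR K Φ H (emb n x) = 0 := h0
    simp only [h3, h4]
  · have h3 := finrank_real_emb (mapR' P K Φ H (emb n x)).toLinearMap.ker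
    have h4 : finrank ℂ (mapR' P K Φ H (emb n x)).toLinearMap.ker ≤ d := hd
    exact_mod_cast h3.trans h4

/-- **The dimension of the set of the points with at most `d` compatible directions.** -/
theorem dimH_Tan (hk : (K : Set ℂ).Countable) (hU : IsOpen U)
    (hΦ : ∀ x ∈ U, ∀ s, HasFDerivAt (fun y => Φ y s) (∑ j, (aeval (Φ x) (P j s)) •
      (ContinuousLinearMap.proj j : (Fin n → ℂ) →L[ℂ] ℂ)) x) (d : ℕ) :
    dimH {x | x ∈ U ∧ finrank ℂ (Tan P K (Φ x)) ≤ d} ≤ (2 * d : ℕ) ∧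
    dimH {x : Fin n → ℝ | (fun i => (x i : ℂ)) ∈ U ∧
      finrank ℂ (Tan P K (Φ fun i => (x i : ℂ))) ≤ d} ≤ (d : ℕ) := by
  have hkc : Countable K := hk.to_subtype
  have hRc : Countable (MvPolynomial σ K) := by
    rw [← Cardinal.mk_le_aleph0_iff]
    refine MvPolynomial.cardinalMk_le_max.trans ?_
    exact max_le (max_le (Cardinal.mk_le_aleph0_iff.2 hkc)
      (Cardinal.mk_le_aleph0_iff.2 inferInstance)) le_rfl
  constructor
  · have h1 : {x | x ∈ U ∧ finrank ℂ (Tan P K (Φ x)) ≤ d} ⊆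
        ⋃ p : (Σ r : ℕ, Fin r → MvPolynomial σ K), piece P K Φ U d p.2 := by
      rintro x ⟨hx, hd⟩
      obtain ⟨r, H, h⟩ := mem_piece hx hd
      exact mem_iUnion.2 ⟨⟨r, H⟩, h⟩
    refine (dimH_mono h1).trans ?_
    rw [dimH_iUnion]
    exact iSup_le fun p => dimH_piece hU hΦ d p.2
  · have h1 : {x : Fin n → ℝ | (fun i => (x i : ℂ)) ∈ U ∧
        finrank ℂ (Tan P K (Φ fun i => (x i : ℂ))) ≤ d} ⊆
        ⋃ p : (Σ r : ℕ, Fin r → MvPolynomial σ K),
          {x : Fin n → ℝ | (fun i => (x i : ℂ)) ∈ piece P K Φ U d p.2} := by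
      rintro x ⟨hx, hd⟩
      obtain ⟨r, H, h⟩ := mem_piece hx hd
      exact mem_iUnion.2 ⟨⟨r, H⟩, h⟩
    refine (dimH_mono h1).trans ?_
    rw [dimH_iUnion]
    exact iSup_le fun p => dimH_piece_real hU hΦ d p.2

end Pool.Agent.H445
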