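import Pool.Agent.H445.DimA

/-!
# Lower bounds for the Hausdorff dimension: complements of countably many affine subspaces
-/

set_option autoImplicit false

open Set Module MeasureTheory
open scoped NNReal ENNReal

noncomputable section

namespace Pool.Agent.H445

/-- the complement of countably many proper affine subspaces has full dimension -/
theorem dimH_compl {E : Type*} [NormedAddCommGroup E] [NormedSpace ℝ E] [FiniteDimensional ℝ E]
    {ι : Type*} [Countable ι] (A : ι → AffineSubspace ℝ E) (hA : ∀ i, A i ≠ ⊤) :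
    ((finrank ℝ E : ℕ) : ℝ≥0∞) ≤ dimH (⋃ i, (A i : Set E))ᶜ := by
  borelize E
  have h1 : (μH[finrank ℝ E] : Measure E) (⋃ i, (A i : Set E)) = 0 :=
    measure_iUnion_null fun i => Measure.addHaar_affineSubspace _ (A i) (hA i)
  have h2 : (μH[finrank ℝ E] : Measure E) (⋃ i, (A i : Set E))ᶜ ≠ 0 := by
    intro h
    have h3 : (μH[finrank ℝ E] : Measure E) univ = 0 := by
      rw [← union_compl_self (⋃ i, (A i : Set E))]
      exact measure_union_null h1 h
    exact (isOpen_univ.measure_pos _ univ_nonempty).ne' h3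
  have h4 := le_dimH_of_hausdorffMeasure_ne_zero (X := E) (s := (⋃ i, (A i : Set E))ᶜ)
    (d := (finrank ℝ E : ℝ≥0)) (by simpa using h2)
  simpa using h4

/-- a hyperplane -/
def hyp {E : Type*} [NormedAddCommGroup E] [NormedSpace ℝ E] (f : E →ₗ[ℝ] ℂ) (a : ℂ) :
    AffineSubspace ℝ E where
  carrier := {x | f x = a}
  smul_vsub_vadd_mem' := by
    intro c p₁ p₂ p₃ (h₁ : f p₁ = a) (h₂ : f p₂ = a) (h₃ : f p₃ = a)
    change f (c • (p₁ - p₂) + p₃) = a
    rw [map_add, map_smul, map_sub, h₁, h₂, h₃, sub_self, smul_zero, zero_add]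

theorem hyp_ne_top {E : Type*} [NormedAddCommGroup E] [NormedSpace ℝ E] {f : E →ₗ[ℝ] ℂ} (hf : f ≠ 0)
    (a : ℂ) : hyp f a ≠ ⊤ := by
  intro h
  apply hf
  have h1 : ∀ x, f x = a := by
    intro x
    have : x ∈ hyp f a := by rw [h]; exact AffineSubspace.mem_top _ _ _
    exact this
  ext x
  rw [h1 x, ← h1 0, map_zero, LinearMap.zero_apply]

/-- the points of `E` for which a tuple of linear maps and constants is independent over `ℚ` -/
theorem dimH_indep {E : Type*} [NormedAddCommGroup E] [NormedSpace ℝ E] [FiniteDimensional ℝ E]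
    {s d : ℕ} {c : Fin s → ℂ} (hc : LinearIndependent ℚ c) (f : Fin d → E →ₗ[ℝ] ℂ)
    (hf : ∀ q : Fin d → ℚ, ∑ j, (q j : ℝ) • f j = 0 → q = 0) :
    ((finrank ℝ E : ℕ) : ℝ≥0∞) ≤
      dimH {x : E | LinearIndependent ℚ (Fin.append c fun j => f j x)} := by
  classical
  let ι := {q : (Fin s → ℚ) × (Fin d → ℚ) // q.2 ≠ 0}
  have : Countable ι := inferInstance
  let A : ι → AffineSubspace ℝ E := fun q =>
    hyp (∑ j, ((q.1.2 j : ℝ)) • f j) (-∑ i, (q.1.1 i : ℂ) * c i)
  refine (dimH_compl A fun q => hyp_ne_top (fun h => q.2 (hf _ h)) _).trans (dimH_mono ?_)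
  intro x hx
  rw [mem_compl_iff, mem_iUnion, not_exists] at hx
  change LinearIndependent ℚ _
  rw [Fintype.linearIndependent_iff]
  intro g hg
  rw [Fin.sum_univ_add] at hg
  simp only [Fin.append_left, Fin.append_right] at hg
  have h1 : (fun j => g (Fin.natAdd s j)) = 0 := by
    by_contra hne
    apply hx ⟨(fun i => g (Fin.castAdd d i), fun j => g (Fin.natAdd s j)), hne⟩
    change (∑ j, ((g (Fin.natAdd s j) : ℝ)) • f j) x = -∑ i, (g (Fin.castAdd d i) : ℂ) * c i
    rw [LinearMap.sum_apply, eq_neg_iff_add_eq_zero, add_comm, ← hg]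
    congr 1
  have h2 : ∀ j, g (Fin.natAdd s j) = 0 := fun j => congrFun h1 j
  simp only [h2, zero_smul, Finset.sum_const_zero, add_zero] at hg
  have h3 := Fintype.linearIndependent_iff.1 hc _ hg
  intro i
  refine Fin.addCases (fun i => ?_) (fun j => ?_) i
  · exact h3 i
  · exact h2 j

/-- the points of `ℂ^d` which are independent of a given tuple -/
theorem dimH_append {s d : ℕ} {c : Fin s → ℂ} (hc : LinearIndependent ℚ c) :
    ((2 * d : ℕ) : ℝ≥0∞) ≤ dimH {x : Fin d → ℂ | LinearIndependent ℚ (Fin.append c x)} := by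
  have h1 := dimH_indep (E := Fin d → ℂ) hc (fun j => (LinearMap.proj j : (Fin d → ℂ) →ₗ[ℝ] ℂ)) (by
    intro q hq
    funext k
    have h2 := LinearMap.congr_fun hq (Pi.single k 1)
    rw [LinearMap.sum_apply, Finset.sum_eq_single k] at h2
    · simpa using h2
    · intro j _ hj
      rw [LinearMap.smul_apply, LinearMap.proj_apply, Pi.single_eq_of_ne hj, smul_zero]
    · intro h; exact absurd (Finset.mem_univ _) h)
  have h2 : finrank ℝ (Fin d → ℂ) = 2 * d := by
    rw [Module.finrank_pi_fintype]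
    simp [Complex.finrank_real_complex, mul_comm]
  rw [h2] at h1
  exact h1

/-- the points of `ℝ^d` which are independent of a given tuple -/
theorem dimH_append_real {s d : ℕ} {c : Fin s → ℂ} (hc : LinearIndependent ℚ c) :
    ((d : ℕ) : ℝ≥0∞) ≤
      dimH {x : Fin d → ℝ | LinearIndependent ℚ (Fin.append c fun j => (x j : ℂ))} := by
  have h1 := dimH_indep (E := Fin d → ℝ) hc (fun j => Complex.ofRealLI.toLinearMap ∘ₗ
    (LinearMap.proj j : (Fin d → ℝ) →ₗ[ℝ] ℝ)) (by
    intro q hq
    funext k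
    have h2 := LinearMap.congr_fun hq (Pi.single k 1)
    rw [LinearMap.sum_apply, Finset.sum_eq_single k] at h2
    · simpa using h2
    · intro j _ hj
      rw [LinearMap.smul_apply, LinearMap.comp_apply, LinearMap.proj_apply,
        Pi.single_eq_of_ne hj, map_zero, smul_zero]
    · intro h; exact absurd (Finset.mem_univ _) h)
  rw [Module.finrank_fin_fun] at h1
  exact h1

end Pool.Agent.H445
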