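import Pool.Agent.H445.DimB
import Pool.Agent.H445.DimC

/-!
# Hausdorff measures of level sets
-/

set_option autoImplicit false
set_option linter.unusedSectionVars false

open Topology Set Module MeasureTheory
open scoped NNReal ENNReal

noncomputable section

namespace Pool.Agent.H445

/-- countable unions of sets of finite measure -/
def SigF {X : Type*} [EMetricSpace X] [MeasurableSpace X] [BorelSpace X] (D : ℕ) (S : Set X) :
    Prop := ∃ A : ℕ → Set X, S ⊆ ⋃ i, A i ∧ ∀ i, μH[(D : ℝ)] (A i) < ⊤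

section

variable {X : Type*} [EMetricSpace X] [MeasurableSpace X] [BorelSpace X]

theorem SigF.mono {D : ℕ} {S S' : Set X} (h : S ⊆ S') (hS : SigF D S') : SigF D S := by
  obtain ⟨A, h1, h2⟩ := hS
  exact ⟨A, h.trans h1, h2⟩

theorem SigF.iUnion {ι : Type*} [Countable ι] {D : ℕ} {S : ι → Set X} (hS : ∀ i, SigF D (S i)) :
    SigF D (⋃ i, S i) := by
  choose A h1 h2 using hS
  rcases isEmpty_or_nonempty ι with hι | hι
  · exact ⟨fun _ => ∅, by simp, fun _ => by simp⟩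
  · obtain ⟨e, he⟩ := exists_surjective_nat (ι × ℕ)
    refine ⟨fun k => A (e k).1 (e k).2, ?_, fun k => h2 _ _⟩
    refine iUnion_subset fun i => (h1 i).trans (iUnion_subset fun j => ?_)
    obtain ⟨k, hk⟩ := he (i, j)
    have : A i j = A (e k).1 (e k).2 := by rw [hk]
    rw [this]
    exact subset_iUnion (fun k => A (e k).1 (e k).2) k

theorem SigF.of_local [SecondCountableTopology X] {D : ℕ} {S : Set X}
    (h : ∀ x ∈ S, ∃ t ∈ 𝓝[S] x, μH[(D : ℝ)] t < ⊤) : SigF D S := by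
  choose! t ht ht' using h
  obtain ⟨c, hcS, hc, hcU⟩ := TopologicalSpace.countable_cover_nhdsWithin ht
  have : Countable c := hc.to_subtype
  refine SigF.mono (S' := ⋃ x : c, t x) ?_ (SigF.iUnion fun x =>
    ⟨fun _ => t x, subset_iUnion (fun _ : ℕ => t x) 0, fun _ => ht' x (hcS x.2)⟩)
  rwa [iUnion_subtype]

end

section

variable {E F : Type*} [NormedAddCommGroup E] [NormedSpace ℝ E] [FiniteDimensional ℝ E]
  [MeasurableSpace E] [BorelSpace E]
  [NormedAddCommGroup F] [NormedSpace ℝ F] [FiniteDimensional ℝ F]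

theorem hm_bdd {D : ℕ} (hD : finrank ℝ E ≤ D) {s : Set E} (hs : Bornology.IsBounded s) :
    μH[(D : ℝ)] s < ⊤ := by
  rcases hD.lt_or_eq with h | h
  · have h1 : dimH s < D := by
      refine lt_of_le_of_lt (dimH_mono (subset_univ s)) ?_
      rw [Real.dimH_univ_eq_finrank]
      exact_mod_cast h
    have h2 := hausdorffMeasure_of_dimH_lt (X := E) (d := (D : ℝ≥0)) (s := s) (by exact_mod_cast h1)
    have h3 : μH[(D : ℝ)] s = 0 := by exact_mod_cast h2
    rw [h3]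
    exact ENNReal.zero_lt_top
  · rw [← h]
    exact hs.measure_lt_top

theorem hm_level_surj {f : E → F} {f' : E →L[ℝ] F} {a : E} (hf : HasStrictFDerivAt f f' a)
    (hs : (f' : E →ₗ[ℝ] F).range = ⊤) {D : ℕ} (hD : finrank ℝ (f' : E →ₗ[ℝ] F).ker ≤ D) :
    ∃ t ∈ 𝓝 a, μH[(D : ℝ)] {x ∈ t | f x = f a} < ⊤ := by
  have : CompleteSpace E := FiniteDimensional.complete ℝ E
  set g := hf.implicitFunction f f' hs (f a) with hg
  have hg' := hf.to_implicitFunction hs
  obtain ⟨C, s, hs0, hL⟩ := hg'.exists_lipschitzOnWith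
  have h1 := hf.eq_implicitFunction hs
  set φ := hf.implicitToOpenPartialHomeomorph f f' hs with hφ
  have h2 : Filter.Tendsto (fun x => (φ x).2) (𝓝 a) (𝓝 0) := by
    have h3 : ContinuousAt φ a :=
      φ.continuousAt (hf.mem_implicitToOpenPartialHomeomorph_source hs)
    have h4 : φ a = (f a, 0) := hf.implicitToOpenPartialHomeomorph_self hs
    have h5 := (continuous_snd.tendsto _).comp h3.tendsto
    rw [h4] at h5
    exact h5
  have hb : s ∩ Metric.ball (0 : (f' : E →ₗ[ℝ] F).ker) 1 ∈ 𝓝 (0 : (f' : E →ₗ[ℝ] F).ker) :=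
    Filter.inter_mem hs0 (Metric.ball_mem_nhds _ one_pos)
  have h3 : ∀ᶠ x in 𝓝 a, (φ x).2 ∈ s ∩ Metric.ball (0 : (f' : E →ₗ[ℝ] F).ker) 1 := h2 hb
  refine ⟨{x | g.comp (fun y => (φ y).2) x = x ∨ f x ≠ f a} ∩
    {x | (φ x).2 ∈ s ∩ Metric.ball (0 : (f' : E →ₗ[ℝ] F).ker) 1}, ?_, ?_⟩
  · refine Filter.inter_mem ?_ h3
    filter_upwards [h1] with x hx
    by_cases hfx : f x = f a
    · left
      rw [hfx] at hx
      exact hx
    · exact Or.inr hfx
  · have h4 : {x ∈ {x | g.comp (fun y => (φ y).2) x = x ∨ f x ≠ f a} ∩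
        {x | (φ x).2 ∈ s ∩ Metric.ball (0 : (f' : E →ₗ[ℝ] F).ker) 1} | f x = f a} ⊆
        g '' (s ∩ Metric.ball (0 : (f' : E →ₗ[ℝ] F).ker) 1) := by
      rintro x ⟨⟨h4, h5⟩, h6⟩
      rcases h4 with h4 | h4
      · exact ⟨(φ x).2, h5, h4⟩
      · exact absurd h6 h4
    refine lt_of_le_of_lt (measure_mono h4) ?_
    refine lt_of_le_of_lt ((hL.mono inter_subset_left).hausdorffMeasure_image_le
      (Nat.cast_nonneg D)) ?_
    refine ENNReal.mul_lt_top (ENNReal.rpow_lt_top_of_nonneg (Nat.cast_nonneg D)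
      ENNReal.coe_ne_top) ?_
    exact hm_bdd hD (Metric.isBounded_ball.subset inter_subset_right)

theorem hm_level {f : E → F} {f' : E →L[ℝ] F} {a : E} (hf : HasStrictFDerivAt f f' a)
    {D : ℕ} (hD : finrank ℝ (f' : E →ₗ[ℝ] F).ker ≤ D) :
    ∃ t ∈ 𝓝 a, μH[(D : ℝ)] {x ∈ t | f x = f a} < ⊤ := by
  obtain ⟨p, hp⟩ := (f' : E →ₗ[ℝ] F).range.subtype.exists_leftInverse_of_injective
    (Submodule.ker_subtype _)
  let p' : F →L[ℝ] (f' : E →ₗ[ℝ] F).range := LinearMap.toContinuousLinearMap p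
  have h1 : HasStrictFDerivAt (fun x => p' (f x)) (p'.comp f') a :=
    p'.hasStrictFDerivAt.comp a hf
  have hpf : ∀ x, ((p' (f' x) : (f' : E →ₗ[ℝ] F).range) : F) = f' x := by
    intro x
    have := congrArg (fun q => q ⟨f' x, ⟨x, rfl⟩⟩) hp
    have h2 : p (f' x) = ⟨f' x, ⟨x, rfl⟩⟩ := this
    change ((p (f' x) : (f' : E →ₗ[ℝ] F).range) : F) = f' x
    rw [h2]
  have hs : (p'.comp f').toLinearMap.range = ⊤ := by
    rw [LinearMap.range_eq_top]
    rintro ⟨y, x, rfl⟩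
    exact ⟨x, Subtype.ext (hpf x)⟩
  have hk : (p'.comp f').toLinearMap.ker = (f' : E →ₗ[ℝ] F).ker := by
    ext x
    simp only [LinearMap.mem_ker, ContinuousLinearMap.coe_coe, ContinuousLinearMap.comp_apply]
    constructor
    · intro h
      rw [← hpf x, h]
      rfl
    · intro h
      rw [h, map_zero]
  obtain ⟨t, ht, hd⟩ := hm_level_surj h1 hs (D := D) (by rw [hk]; exact hD)
  refine ⟨t, ht, lt_of_le_of_lt (measure_mono ?_) hd⟩
  rintro x ⟨hx, hfx⟩
  exact ⟨hx, by simp only [hfx]⟩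

end

section

open MvPolynomial Pool.Agent.Y119.CB Pool.Agent.Y776

variable {n : ℕ} {σ : Type} [Fintype σ]
variable {P : Fin n → σ → MvPolynomial σ ℚ} {K : Subfield ℂ} {U : Set (Fin n → ℂ)}
  {Φ : (Fin n → ℂ) → σ → ℂ}

theorem SigF_piece (hU : IsOpen U)
    (hΦ : ∀ x ∈ U, ∀ s, HasFDerivAt (fun y => Φ y s) (∑ j, (aeval (Φ x) (P j s)) •
      (ContinuousLinearMap.proj j : (Fin n → ℂ) →L[ℂ] ℂ)) x) (d : ℕ) {r : ℕ}
    (H : Fin r → MvPolynomial σ K) : SigF (2 * d) (piece P K Φ U d H) := by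
  apply SigF.of_local
  rintro x ⟨hx, h0, hd⟩
  obtain ⟨t, ht, h1⟩ := hm_level (D := 2 * d)
    ((strict_mapR hU hΦ H hx).restrictScalars ℝ) (by
      rw [finrank_real_ker]
      exact Nat.mul_le_mul_left 2 hd)
  refine ⟨t ∩ piece P K Φ U d H, Filter.inter_mem (mem_nhdsWithin_of_mem_nhds ht)
    self_mem_nhdsWithin, lt_of_le_of_lt (measure_mono ?_) h1⟩
  rintro y ⟨hy, hy'⟩
  exact ⟨hy, by rw [hy'.2.1, h0]⟩

theorem SigF_piece_real (hU : IsOpen U)
    (hΦ : ∀ x ∈ U, ∀ s, HasFDerivAt (fun y => Φ y s) (∑ j, (aeval (Φ x) (P j s)) •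
      (ContinuousLinearMap.proj j : (Fin n → ℂ) →L[ℂ] ℂ)) x) (d : ℕ) {r : ℕ}
    (H : Fin r → MvPolynomial σ K) :
    SigF d {x : Fin n → ℝ | (fun i => (x i : ℂ)) ∈ piece P K Φ U d H} := by
  apply SigF.of_local
  rintro x ⟨hx, h0, hd⟩
  have h1 : HasStrictFDerivAt (fun y : Fin n → ℝ => mapR K Φ H (emb n y))
      (((mapR' P K Φ H (emb n x)).restrictScalars ℝ).comp (emb n)) x :=
    ((strict_mapR hU hΦ H hx).restrictScalars ℝ).comp x (emb n).hasStrictFDerivAt
  obtain ⟨t, ht, h2⟩ := hm_level (D := d) h1 (by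
    have h3 := finrank_real_emb (mapR' P K Φ H (emb n x)).toLinearMap.ker
    exact h3.trans hd)
  refine ⟨t ∩ {x : Fin n → ℝ | (fun i => (x i : ℂ)) ∈ piece P K Φ U d H},
    Filter.inter_mem (mem_nhdsWithin_of_mem_nhds ht)
    self_mem_nhdsWithin, lt_of_le_of_lt (measure_mono ?_) h2⟩
  rintro y ⟨hy, hy'⟩
  refine ⟨hy, ?_⟩
  have h3 : mapR K Φ H (emb n y) = 0 := hy'.2.1
  have h4 : mapR K Φ H (emb n x) = 0 := h0
  simp only [h3, h4]

/-- **The measure of the set of the points with at most `d` compatible directions.** -/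
theorem SigF_Tan (hk : (K : Set ℂ).Countable) (hU : IsOpen U)
    (hΦ : ∀ x ∈ U, ∀ s, HasFDerivAt (fun y => Φ y s) (∑ j, (aeval (Φ x) (P j s)) •
      (ContinuousLinearMap.proj j : (Fin n → ℂ) →L[ℂ] ℂ)) x) (d : ℕ) :
    SigF (2 * d) {x | x ∈ U ∧ finrank ℂ (Tan P K (Φ x)) ≤ d} ∧
    SigF d {x : Fin n → ℝ | (fun i => (x i : ℂ)) ∈ U ∧
      finrank ℂ (Tan P K (Φ fun i => (x i : ℂ))) ≤ d} := by
  have hkc : Countable K := hk.to_subtype
  have hRc : Countable (MvPolynomial σ K) := by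
    rw [← Cardinal.mk_le_aleph0_iff]
    refine MvPolynomial.cardinalMk_le_max.trans ?_
    exact max_le (max_le (Cardinal.mk_le_aleph0_iff.2 hkc)
      (Cardinal.mk_le_aleph0_iff.2 inferInstance)) le_rfl
  constructor
  · have h1 : {x | x ∈ U ∧ finrank ℂ (Tan P K (Φ x)) ≤ d} ⊆
        ⋃ p : (Σ r : ℕ, Fin r → MvPolynomial σ K), piece P K Φ U d p.2 := by
      rintro x ⟨hx, hd⟩
      obtain ⟨r, H, h⟩ := mem_piece hx hd
      exact mem_iUnion.2 ⟨⟨r, H⟩, h⟩
    exact SigF.mono h1 (SigF.iUnion fun p => SigF_piece hU hΦ d p.2)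
  · have h1 : {x : Fin n → ℝ | (fun i => (x i : ℂ)) ∈ U ∧
        finrank ℂ (Tan P K (Φ fun i => (x i : ℂ))) ≤ d} ⊆
        ⋃ p : (Σ r : ℕ, Fin r → MvPolynomial σ K),
          {x : Fin n → ℝ | (fun i => (x i : ℂ)) ∈ piece P K Φ U d p.2} := by
      rintro x ⟨hx, hd⟩
      obtain ⟨r, H, h⟩ := mem_piece hx hd
      exact mem_iUnion.2 ⟨⟨r, H⟩, h⟩
    exact SigF.mono h1 (SigF.iUnion fun p => SigF_piece_real hU hΦ d p.2)

end

/-- the complement of countably many proper affine subspaces has positive measure -/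
theorem hm_compl {E : Type*} [NormedAddCommGroup E] [NormedSpace ℝ E] [FiniteDimensional ℝ E]
    [MeasurableSpace E] [BorelSpace E]
    {ι : Type*} [Countable ι] (A : ι → AffineSubspace ℝ E) (hA : ∀ i, A i ≠ ⊤) :
    0 < μH[(finrank ℝ E : ℝ)] (⋃ i, (A i : Set E))ᶜ := by
  have h1 : (μH[finrank ℝ E] : Measure E) (⋃ i, (A i : Set E)) = 0 :=
    measure_iUnion_null fun i => Measure.addHaar_affineSubspace _ (A i) (hA i)
  rw [pos_iff_ne_zero]
  intro h
  have h3 : (μH[finrank ℝ E] : Measure E) univ = 0 := by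
    rw [← union_compl_self (⋃ i, (A i : Set E))]
    exact measure_union_null h1 h
  exact (isOpen_univ.measure_pos _ univ_nonempty).ne' h3

theorem hm_indep {E : Type*} [NormedAddCommGroup E] [NormedSpace ℝ E] [FiniteDimensional ℝ E]
    [MeasurableSpace E] [BorelSpace E]
    {s d : ℕ} {c : Fin s → ℂ} (hc : LinearIndependent ℚ c) (f : Fin d → E →ₗ[ℝ] ℂ)
    (hf : ∀ q : Fin d → ℚ, ∑ j, (q j : ℝ) • f j = 0 → q = 0) :
    0 < μH[(finrank ℝ E : ℝ)] {x : E | LinearIndependent ℚ (Fin.append c fun j => f j x)} := by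
  classical
  let ι := {q : (Fin s → ℚ) × (Fin d → ℚ) // q.2 ≠ 0}
  have : Countable ι := inferInstance
  let A : ι → AffineSubspace ℝ E := fun q =>
    hyp (∑ j, ((q.1.2 j : ℝ)) • f j) (-∑ i, (q.1.1 i : ℂ) * c i)
  refine lt_of_lt_of_le (hm_compl A fun q => hyp_ne_top (fun h => q.2 (hf _ h)) _)
    (measure_mono ?_)
  intro x hx
  rw [mem_compl_iff, mem_iUnion, not_exists] at hx
  change LinearIndependent ℚ _
  rw [Fintype.linearIndependent_iff]
  intro g hg
  rw [Fin.sum_univ_add] at hg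
  simp only [Fin.append_left, Fin.append_right] at hg
  have h1 : (fun j => g (Fin.natAdd s j)) = 0 := by
    by_contra hne
    apply hx ⟨(fun i => g (Fin.castAdd d i), fun j => g (Fin.natAdd s j)), hne⟩
    change (∑ j, ((g (Fin.natAdd s j) : ℝ)) • f j) x = -∑ i, (g (Fin.castAdd d i) : ℂ) * c i
    rw [LinearMap.sum_apply, eq_neg_iff_add_eq_zero, add_comm, ← hg]
    congr 1
  have h2 : ∀ j, g (Fin.natAdd s j) = 0 := fun j => congrFun h1 j
  simp only [h2, zero_smul, Finset.sum_const_zero, add_zero] at hg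
  have h3 := Fintype.linearIndependent_iff.1 hc _ hg
  intro i
  refine Fin.addCases (fun i => ?_) (fun j => ?_) i
  · exact h3 i
  · exact h2 j

theorem hm_append {s d : ℕ} {c : Fin s → ℂ} (hc : LinearIndependent ℚ c) :
    0 < μH[((2 * d : ℕ) : ℝ)] {x : Fin d → ℂ | LinearIndependent ℚ (Fin.append c x)} := by
  have h1 := hm_indep (E := Fin d → ℂ) hc (fun j => (LinearMap.proj j : (Fin d → ℂ) →ₗ[ℝ] ℂ)) (by
    intro q hq
    funext k
    have h2 := LinearMap.congr_fun hq (Pi.single k 1)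
    rw [LinearMap.sum_apply, Finset.sum_eq_single k] at h2
    · simpa using h2
    · intro j _ hj
      rw [LinearMap.smul_apply, LinearMap.proj_apply, Pi.single_eq_of_ne hj, smul_zero]
    · intro h; exact absurd (Finset.mem_univ _) h)
  have h2 : finrank ℝ (Fin d → ℂ) = 2 * d := by
    rw [Module.finrank_pi_fintype]
    simp [Complex.finrank_real_complex, mul_comm]
  rw [h2] at h1
  exact h1

theorem hm_append_real {s d : ℕ} {c : Fin s → ℂ} (hc : LinearIndependent ℚ c) :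
    0 < μH[(d : ℝ)] {x : Fin d → ℝ | LinearIndependent ℚ (Fin.append c fun j => (x j : ℂ))} := by
  have h1 := hm_indep (E := Fin d → ℝ) hc (fun j => Complex.ofRealLI.toLinearMap ∘ₗ
    (LinearMap.proj j : (Fin d → ℝ) →ₗ[ℝ] ℝ)) (by
    intro q hq
    funext k
    have h2 := LinearMap.congr_fun hq (Pi.single k 1)
    rw [LinearMap.sum_apply, Finset.sum_eq_single k] at h2
    · simpa using h2
    · intro j _ hj
      rw [LinearMap.smul_apply, LinearMap.comp_apply, LinearMap.proj_apply,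
        Pi.single_eq_of_ne hj, map_zero, smul_zero]
    · intro h; exact absurd (Finset.mem_univ _) h)
  rw [Module.finrank_fin_fun] at h1
  exact h1

/-- the coordinates from some place on -/
theorem hm_proj {𝕜 : Type} [RCLike 𝕜] [MeasurableSpace 𝕜] [BorelSpace 𝕜]
    {s d D : ℕ} {S : Set (Fin d → 𝕜)}
    {F : Set (Fin (s + d) → 𝕜)} (h : ∀ x ∈ S, ∃ z ∈ F, ∀ j, z (Fin.natAdd s j) = x j)
    (hS : 0 < μH[(D : ℝ)] S) : 0 < μH[(D : ℝ)] F := by
  let π : (Fin (s + d) → 𝕜) →L[𝕜] (Fin d → 𝕜) :=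
    ContinuousLinearMap.pi fun j => ContinuousLinearMap.proj (Fin.natAdd s j)
  have h1 : S ⊆ π '' F := by
    intro x hx
    obtain ⟨z, hz, hzx⟩ := h x hx
    exact ⟨z, hz, funext hzx⟩
  have h2 : μH[(D : ℝ)] (π '' F) ≤ (‖π‖₊ : ℝ≥0∞) ^ (D : ℝ) * μH[(D : ℝ)] F :=
    π.lipschitz.lipschitzOnWith.hausdorffMeasure_image_le (Nat.cast_nonneg D)
  rw [pos_iff_ne_zero]
  intro h0
  rw [h0, mul_zero] at h2
  exact absurd (lt_of_lt_of_le hS ((measure_mono h1).trans h2)) (by simp)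

end Pool.Agent.H445
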