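import Pool.Agent.H445.ExpE
import Pool.Graph.R_seed8.Y685.G9

/-!
# A rank inequality for a space of compatible derivations (exponentials and elliptic functions)
-/

set_option autoImplicit false

open Set Module
open Pool.Agent.TH813.Rel (DF MK subset_cl rk_le_of_subset_cl cl_of_base)
open Pool.Agent.Y685
open Pool.Agent.Y776 (Tf lg lgL Tf_lin lg_lin ET ET_finite TfL TfL_apply)
open Pool.Agent.W245.EB Pool.Agent.TH813.Ell H667R3
open scoped PeriodPair

noncomputable section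

namespace Pool.Agent.H445

variable {L : PeriodPair} {κ : ℂ} {K C : IntermediateField ℚ ℂ}

/-- the numbers of a space of points -/
def NV (L : PeriodPair) (V : Submodule (kL L) ℂ) : Set ℂ :=
  {x | ∃ v ∈ V, v ∉ L.lattice ∧ (x = v ∨ x = zt L v ∨ x = ℘[L] v)}

/-- the numbers of a space of points and of a space of exponents -/
def NW (L : PeriodPair) (V : Submodule (kL L) ℂ) (T : Submodule ℚ ℂ) : Set ℂ := EV T ∪ NV L V

theorem NV_mono {V W : Submodule (kL L) ℂ} (h : V ≤ W) : NV L V ⊆ NV L W := by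
  rintro x ⟨v, hv, h1, h2⟩
  exact ⟨v, h hv, h1, h2⟩

theorem EP_subset_NV {m : ℕ} {p : Fin m → ℂ} {V : Submodule (kL L) ℂ} (h : ∀ i, p i ∈ V)
    (hL : ∀ i, p i ∉ L.lattice) : EP L p ⊆ NV L V := by
  rintro _ (⟨i, rfl⟩ | ⟨i, rfl⟩ | ⟨i, rfl⟩)
  · exact ⟨p i, h i, hL i, Or.inl rfl⟩
  · exact ⟨p i, h i, hL i, Or.inr (Or.inl rfl)⟩
  · exact ⟨p i, h i, hL i, Or.inr (Or.inr rfl)⟩

theorem NV_killed {δ : Derivation ℚ ℂ ℂ} (h2 : δ L.g₂ = 0) (h3 : δ L.g₃ = 0) {m : ℕ}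
    {p : Fin m → ℂ} (h : ∀ x ∈ EP L p, δ x = 0) {x : ℂ}
    (hx : x ∈ NV L (Submodule.span (kL L) (range p))) : δ x = 0 := by
  obtain ⟨v, hv, hvL, hx⟩ := hx
  obtain ⟨a1, a2, a3⟩ := kill_spanK h2 h3 h hv hvL
  rcases hx with rfl | rfl | rfl
  · exact a1
  · exact a2
  · exact a3

theorem EV_killed {δ : Derivation ℚ ℂ ℂ} {m : ℕ} {t : Fin m → ℂ} (h : ∀ x ∈ ET t, δ x = 0) {x : ℂ}
    (hx : x ∈ EV (Submodule.span ℚ (range t))) : δ x = 0 := by
  have h1 := EV_subset_cl (⊥ : IntermediateField ℚ ℂ) t hx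
  rw [← mem_clo_iff] at h1
  refine h1 δ (fun y hy => ?_) h
  obtain ⟨q, rfl⟩ := IntermediateField.mem_bot.1 hy
  exact δ.map_algebraMap q

theorem NW_subset_cl (h2 : L.g₂ ∈ C) (h3 : L.g₃ ∈ C) {m s : ℕ} (p : Fin m → ℂ) (t : Fin s → ℂ) :
    NW L (Submodule.span (kL L) (range p)) (Submodule.span ℚ (range t)) ⊆
      (MK C).closure (ET t ∪ EP L p) := by
  intro x hx
  rw [← mem_clo_iff]
  intro δ hδ hS
  rcases hx with hx | hx
  · exact EV_killed (fun y hy => hS y (Or.inl hy)) hx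
  · exact NV_killed (hδ _ h2) (hδ _ h3) (fun y hy => hS y (Or.inr hy)) hx

theorem NW_subset {m s : ℕ} {p : Fin m → ℂ} {t : Fin s → ℂ} {V : Submodule (kL L) ℂ}
    {T : Submodule ℚ ℂ} (hp : ∀ i, p i ∈ V) (hL : ∀ i, p i ∉ L.lattice) (ht : ∀ i, t i ∈ T) :
    ET t ∪ EP L p ⊆ NW L V T :=
  union_subset_union (ET_subset_EV ht) (EP_subset_NV hp hL)

theorem NW_mono {V W : Submodule (kL L) ℂ} {T S : Submodule ℚ ℂ} (h : V ≤ W) (h' : T ≤ S) :
    NW L V T ⊆ NW L W S := union_subset_union (EV_mono h') (NV_mono h)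

theorem eRk_NW (h2 : L.g₂ ∈ C) (h3 : L.g₃ ∈ C) {m s : ℕ} {p : Fin m → ℂ}
    (hL : ∀ i, p i ∉ L.lattice) (t : Fin s → ℂ) :
    (MK C).eRk (NW L (Submodule.span (kL L) (range p)) (Submodule.span ℚ (range t))) =
      (MK C).eRk (ET t ∪ EP L p) :=
  le_antisymm (rk_le_of_subset_cl (NW_subset_cl h2 h3 p t))
    ((MK C).eRk_mono (NW_subset (fun i => Submodule.subset_span ⟨i, rfl⟩) hL
      fun i => Submodule.subset_span ⟨i, rfl⟩))

/-- a basis of a space of points outside of the lattice -/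
theorem exists_tupleK (V : Submodule (kL L) ℂ) [FiniteDimensional (kL L) V] :
    ∃ p : Fin (finrank (kL L) V) → ℂ, LinearIndependent (kL L) p ∧
      Submodule.span (kL L) (range p) = V ∧ ∀ i, p i ∉ L.lattice := by
  obtain ⟨p, h1, h2, h3⟩ := exists_basis_off V
  refine ⟨p, h1, ?_, h3⟩
  apply Submodule.eq_of_le_of_finrank_eq
  · rw [Submodule.span_le]
    rintro _ ⟨i, rfl⟩
    exact h2 i
  · rw [finrank_span_eq_card h1, Fintype.card_fin]

/-- the restriction of a derivation to a space of points -/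
def dK (D : Derivation ℚ ℂ ℂ) : ℂ →ₗ[kL L] ℂ where
  toFun := D
  map_add' := map_add D
  map_smul' := by
    rintro ⟨c, hc⟩ x
    change D (c * x) = c * D x
    rw [D_mul, der_kL D hc]
    ring

/-- the restriction of derivations to two spaces -/
def eVT (V : Submodule (kL L) ℂ) (T : Submodule ℚ ℂ) :
    Derivation ℚ ℂ ℂ →ₗ[ℂ] ((V →ₗ[kL L] ℂ) × (T →ₗ[ℚ] ℂ)) where
  toFun := fun D => (dK D ∘ₗ V.subtype, D.toLinearMap ∘ₗ T.subtype)
  map_add' := fun _ _ => rfl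
  map_smul' := fun _ _ => rfl

theorem eVT_fst (V : Submodule (kL L) ℂ) (T : Submodule ℚ ℂ) (D : Derivation ℚ ℂ ℂ) (x : V) :
    (eVT V T D).1 x = D x := rfl

theorem eVT_snd (V : Submodule (kL L) ℂ) (T : Submodule ℚ ℂ) (D : Derivation ℚ ℂ ℂ) (x : T) :
    (eVT V T D).2 x = D x := rfl

theorem eVT_eq_zero {V : Submodule (kL L) ℂ} {T : Submodule ℚ ℂ} {D : Derivation ℚ ℂ ℂ} :
    eVT V T D = 0 ↔ (∀ x ∈ V, D x = 0) ∧ ∀ x ∈ T, D x = 0 := by
  constructor
  · intro h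
    exact ⟨fun x hx => LinearMap.congr_fun (congrArg Prod.fst h) ⟨x, hx⟩,
      fun x hx => LinearMap.congr_fun (congrArg Prod.snd h) ⟨x, hx⟩⟩
  · rintro ⟨h1, h2⟩
    refine Prod.ext ?_ ?_
    · ext x
      exact h1 x x.2
    · ext x
      exact h2 x x.2

set_option synthInstance.maxHeartbeats 400000 in
instance instFinK (V : Submodule (kL L) ℂ) [FiniteDimensional (kL L) V] :
    FiniteDimensional ℂ (V →ₗ[kL L] ℂ) := Module.Finite.linearMap (kL L) ℂ V ℂ

theorem finrank_eVT_le (V : Submodule (kL L) ℂ) (T : Submodule ℚ ℂ) [FiniteDimensional (kL L) V]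
    [FiniteDimensional ℚ T] (Δ : Submodule ℂ (Derivation ℚ ℂ ℂ)) :
    finrank ℂ (Δ.map (eVT V T)) ≤ finrank (kL L) V + finrank ℚ T := by
  refine (Submodule.finrank_le _).trans ?_
  rw [Module.finrank_prod, Module.finrank_linearMap, Module.finrank_linearMap,
    Module.finrank_self, mul_one, mul_one]

/-- a complement in a space -/
theorem exists_rel_complk {k : Type*} [Field k] [Module k ℂ] {A X : Submodule k ℂ}
    [FiniteDimensional k X] (hA : A ≤ X) :
    ∃ Y ≤ X, (∀ x ∈ Y, x ∈ A → x = 0) ∧ finrank k A + finrank k Y = finrank k X ∧ X ≤ A ⊔ Y := by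
  obtain ⟨Y, h1, h2, h3⟩ := exists_rel_compl hA
  have hAf : FiniteDimensional k A := Submodule.finiteDimensional_of_le hA
  have hYf : FiniteDimensional k Y := Submodule.finiteDimensional_of_le h1
  refine ⟨Y, h1, fun x hx hxA => ?_, by omega, ?_⟩
  · have : x ∈ Y ⊓ A := ⟨hx, hxA⟩
    rw [h2] at this
    exact (Submodule.mem_bot _).1 this
  · apply ge_of_eq
    apply Submodule.eq_of_le_of_finrank_eq (sup_le hA h1)
    have h4 := Submodule.finrank_sup_add_finrank_inf_eq A Y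
    rw [inf_comm, h2, finrank_bot, add_zero] at h4
    omega

end Pool.Agent.H445
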