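import Pool.Agent.H445.EllA

/-!
# Many compatible derivations give a large rank (exponentials and elliptic functions)
-/

set_option autoImplicit false

open Set Module
open Pool.Agent.TH813.Rel (DF MK subset_cl rk_le_of_subset_cl cl_of_base)
open Pool.Agent.Y685
open Pool.Agent.Y776 (Tf lg lgL Tf_lin lg_lin ET ET_finite TfL TfL_apply)
open Pool.Agent.W245.EB Pool.Agent.TH813.Ell H667R3
open scoped PeriodPair

noncomputable section

namespace Pool.Agent.H445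

variable {L : PeriodPair} {κ : ℂ} {K C : IntermediateField ℚ ℂ}

/-- the kernel of a derivation as a space of points -/
def kerK (L : PeriodPair) (D : Derivation ℚ ℂ ℂ) : Submodule (kL L) ℂ :=
  LinearMap.ker (dK (L := L) D)

theorem mem_kerK {D : Derivation ℚ ℂ ℂ} {x : ℂ} : x ∈ kerK L D ↔ D x = 0 := Iff.rfl

/-- **Many compatible derivations give a large rank.** -/
theorem chainM (hE : Eig L κ) (h2 : L.g₂ ∈ K) (h3 : L.g₃ ∈ K)
    {Δ : Submodule ℂ (Derivation ℚ ℂ ℂ)} (hΔ : Δ ≤ DF K) (m : ℕ) :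
    ∀ (V : Submodule (kL L) ℂ) (T : Submodule ℚ ℂ) (_ : FiniteDimensional (kL L) V)
      (_ : FiniteDimensional ℚ T), finrank (kL L) V + finrank ℚ T = m →
      (∀ D ∈ Δ, ∀ x ∈ V, Cm1 L D x) → (∀ D ∈ Δ, ∀ x ∈ T, Tf D x = 0) →
      (∀ x ∈ V, x ≠ 0 → ∃ D ∈ Δ, D x ≠ 0) → (∀ x ∈ T, x ≠ 0 → ∃ D ∈ Δ, D x ≠ 0) →
      ((2 * finrank (kL L) V + finrank ℚ T + finrank ℂ (Δ.map (eVT V T)) : ℕ) : ℕ∞) ≤
        (MK K).eRk (NW L V T) := by
  induction m using Nat.strong_induction_on with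
  | _ m ih =>
  intro V T hV hT hm hC hTf hDV hDT
  by_cases hne : ∃ D ∈ Δ, eVT V T D ≠ 0
  swap
  · -- the spaces are zero
    push Not at hne
    have hV0 : V = ⊥ := by
      rw [Submodule.eq_bot_iff]
      intro x hx
      by_contra hx0
      obtain ⟨D, hD1, hD2⟩ := hDV x hx hx0
      exact hD2 ((eVT_eq_zero.1 (hne D hD1)).1 x hx)
    have hT0 : T = ⊥ := by
      rw [Submodule.eq_bot_iff]
      intro x hx
      by_contra hx0
      obtain ⟨D, hD1, hD2⟩ := hDT x hx hx0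
      exact hD2 ((eVT_eq_zero.1 (hne D hD1)).2 x hx)
    have h1 : Δ.map (eVT V T) = ⊥ := by
      rw [Submodule.eq_bot_iff]
      rintro _ ⟨D, hD1, rfl⟩
      exact hne D hD1
    rw [h1, finrank_bot]
    subst hV0
    subst hT0
    rw [finrank_bot, finrank_bot]
    simp
  -- a derivation with the largest kernel
  let kr : Derivation ℚ ℂ ℂ → ℕ := fun D =>
    finrank (kL L) (V ⊓ kerK L D : Submodule (kL L) ℂ) +
      finrank ℚ (T ⊓ LinearMap.ker D.toLinearMap : Submodule ℚ ℂ)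
  let S : Set ℕ := {k | ∃ D ∈ Δ, eVT V T D ≠ 0 ∧ kr D = k}
  have hS1 : S.Nonempty := by
    obtain ⟨D, h4, h5⟩ := hne
    exact ⟨_, D, h4, h5, rfl⟩
  have hS2 : BddAbove S := by
    refine ⟨m, ?_⟩
    rintro _ ⟨D, -, -, rfl⟩
    rw [← hm]
    exact add_le_add (Submodule.finrank_mono inf_le_left) (Submodule.finrank_mono inf_le_left)
  obtain ⟨D, hDΔ, hDne, hDk⟩ := Nat.sSup_mem hS1 hS2
  have hmax : ∀ D' ∈ Δ, eVT V T D' ≠ 0 → kr D' ≤ kr D := by
    intro D' h4 h5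
    rw [hDk]
    exact le_csSup hS2 ⟨D', h4, h5, rfl⟩
  set V₁ : Submodule (kL L) ℂ := V ⊓ kerK L D with hV₁
  set T₁ : Submodule ℚ ℂ := T ⊓ LinearMap.ker D.toLinearMap with hT₁
  have hV₁V : V₁ ≤ V := inf_le_left
  have hT₁T : T₁ ≤ T := inf_le_left
  have hV₁D : ∀ x ∈ V₁, D x = 0 := fun x hx => hx.2
  have hT₁D : ∀ x ∈ T₁, D x = 0 := fun x hx => hx.2
  have hV₁f : FiniteDimensional (kL L) V₁ := Submodule.finiteDimensional_of_le hV₁V
  have hT₁f : FiniteDimensional ℚ T₁ := Submodule.finiteDimensional_of_le hT₁T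
  have hkr1 : ∀ D' : Derivation ℚ ℂ ℂ, (∀ x ∈ V₁, D' x = 0) → V₁ ≤ V ⊓ kerK L D' :=
    fun D' h x hx => ⟨hV₁V hx, h x hx⟩
  have hkr2 : ∀ D' : Derivation ℚ ℂ ℂ, (∀ x ∈ T₁, D' x = 0) →
      T₁ ≤ T ⊓ LinearMap.ker D'.toLinearMap := fun D' h x hx => ⟨hT₁T hx, h x hx⟩
  have hVf' : ∀ D' : Derivation ℚ ℂ ℂ, FiniteDimensional (kL L)
      (V ⊓ kerK L D' : Submodule (kL L) ℂ) := fun D' => Submodule.finiteDimensional_of_le inf_le_left
  have hTf' : ∀ D' : Derivation ℚ ℂ ℂ, FiniteDimensional ℚ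
      (T ⊓ LinearMap.ker D'.toLinearMap : Submodule ℚ ℂ) :=
    fun D' => Submodule.finiteDimensional_of_le inf_le_left
  -- an element which is moved
  obtain ⟨x₀, hx₀, hx₀D, hx₀c⟩ : ∃ x₀ : ℂ, (x₀ ∈ V ∨ x₀ ∈ T) ∧ D x₀ ≠ 0 ∧
      ∀ D' : Derivation ℚ ℂ ℂ, (∀ x ∈ V₁, D' x = 0) → (∀ x ∈ T₁, D' x = 0) → D' x₀ = 0 →
        kr D < kr D' := by
    by_cases hV' : ∃ x ∈ V, D x ≠ 0
    · obtain ⟨x, hx, hxD⟩ := hV'
      refine ⟨x, Or.inl hx, hxD, fun D' h4 h5 h6 => ?_⟩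
      refine add_lt_add_of_lt_of_le ?_ ?_
      · have := hVf' D'
        apply Submodule.finrank_lt_finrank_of_lt
        refine lt_of_le_of_ne (hkr1 D' h4) fun h => hxD ?_
        have h7 : x ∈ V ⊓ kerK L D' := ⟨hx, h6⟩
        rw [← h] at h7
        exact hV₁D x h7
      · have := hTf' D'
        exact Submodule.finrank_mono (hkr2 D' h5)
    · by_cases hT' : ∃ x ∈ T, D x ≠ 0
      · obtain ⟨x, hx, hxD⟩ := hT'
        refine ⟨x, Or.inr hx, hxD, fun D' h4 h5 h6 => ?_⟩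
        refine add_lt_add_of_le_of_lt ?_ ?_
        · have := hVf' D'
          exact Submodule.finrank_mono (hkr1 D' h4)
        · have := hTf' D'
          apply Submodule.finrank_lt_finrank_of_lt
          refine lt_of_le_of_ne (hkr2 D' h5) fun h => hxD ?_
          have h7 : x ∈ T ⊓ LinearMap.ker D'.toLinearMap := ⟨hx, h6⟩
          rw [← h] at h7
          exact hT₁D x h7
      · push Not at hV' hT'
        exact absurd (eVT_eq_zero.2 ⟨hV', hT'⟩) hDne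
  have hm₁ : finrank (kL L) V₁ + finrank ℚ T₁ < m := by
    rw [← hm]
    rcases hx₀ with hx | hx
    · refine add_lt_add_of_lt_of_le (Submodule.finrank_lt_finrank_of_lt ?_)
        (Submodule.finrank_mono hT₁T)
      exact lt_of_le_of_ne hV₁V fun h => hx₀D (hV₁D _ (h ▸ hx))
    · refine add_lt_add_of_le_of_lt (Submodule.finrank_mono hV₁V)
        (Submodule.finrank_lt_finrank_of_lt ?_)
      exact lt_of_le_of_ne hT₁T fun h => hx₀D (hT₁D _ (h ▸ hx))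
  -- the induction hypothesis
  have hI := ih _ hm₁ V₁ T₁ hV₁f hT₁f rfl (fun D hD x hx => hC D hD x (hV₁V hx))
    (fun D hD x hx => hTf D hD x (hT₁T hx)) (fun x hx => hDV x (hV₁V hx))
    (fun x hx => hDT x (hT₁T hx))
  -- the dimension of the restrictions
  have hdim : finrank ℂ (Δ.map (eVT V T)) ≤ finrank ℂ (Δ.map (eVT V₁ T₁)) + 1 := by
    let r : ((V →ₗ[kL L] ℂ) × (T →ₗ[ℚ] ℂ)) →ₗ[ℂ] ((V₁ →ₗ[kL L] ℂ) × (T₁ →ₗ[ℚ] ℂ)) :=
      { toFun := fun f => (f.1 ∘ₗ Submodule.inclusion hV₁V, f.2 ∘ₗ Submodule.inclusion hT₁T)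
        map_add' := fun _ _ => rfl
        map_smul' := fun _ _ => rfl }
    let R := r.domRestrict (Δ.map (eVT V T))
    have h4 := LinearMap.finrank_range_add_finrank_ker R
    have h5 : LinearMap.range R = Δ.map (eVT V₁ T₁) := by
      ext f
      constructor
      · rintro ⟨⟨_, D', hD', rfl⟩, rfl⟩
        exact ⟨D', hD', rfl⟩
      · rintro ⟨D', hD', rfl⟩
        exact ⟨⟨_, D', hD', rfl⟩, rfl⟩
    have h6 : finrank ℂ (LinearMap.ker R) ≤ 1 := by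
      obtain ⟨e₀, he₀⟩ : ∃ e₀ : ((V →ₗ[kL L] ℂ) × (T →ₗ[ℚ] ℂ)) →ₗ[ℂ] ℂ,
          ∀ D' : Derivation ℚ ℂ ℂ, e₀ (eVT V T D') = D' x₀ := by
        rcases hx₀ with hx | hx
        · exact ⟨{ toFun := fun f => f.1 ⟨x₀, hx⟩
                   map_add' := fun _ _ => rfl
                   map_smul' := fun _ _ => rfl }, fun D' => rfl⟩
        · exact ⟨{ toFun := fun f => f.2 ⟨x₀, hx⟩
                   map_add' := fun _ _ => rfl
                   map_smul' := fun _ _ => rfl }, fun D' => rfl⟩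
      let ev : LinearMap.ker R →ₗ[ℂ] ℂ :=
        (e₀ ∘ₗ (Δ.map (eVT V T)).subtype) ∘ₗ (LinearMap.ker R).subtype
      have hinj : Function.Injective ev := by
        rw [injective_iff_map_eq_zero]
        rintro ⟨⟨_, D', hD', rfl⟩, hker⟩ h0
        have h7 : D' x₀ = 0 := by
          rw [← he₀ D']
          exact h0
        have h8 : eVT V₁ T₁ D' = 0 := hker
        obtain ⟨h8, h9⟩ := eVT_eq_zero.1 h8
        by_contra hne'
        have h10 : eVT V T D' ≠ 0 := by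
          intro h
          apply hne'
          apply Subtype.ext
          apply Subtype.ext
          exact h
        exact absurd (hx₀c D' h8 h9 h7) (not_lt.2 (hmax D' hD' h10))
      have := LinearMap.finrank_le_finrank_of_injective hinj
      rwa [finrank_self] at this
    rw [h5] at h4
    have h7 : finrank ℂ (Δ.map (eVT V T)) = finrank ℂ (Δ.map (eVT V₁ T₁)) +
        finrank ℂ (LinearMap.ker R) := h4.symm
    omega
  -- complements
  obtain ⟨V₂, hV₂V, hdjV, hcardV, -⟩ := exists_rel_complk hV₁V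
  obtain ⟨T₂, hT₂T, hdjT, hcardT, -⟩ := exists_rel_complk hT₁T
  have hV₂f : FiniteDimensional (kL L) V₂ := Submodule.finiteDimensional_of_le hV₂V
  have hT₂f : FiniteDimensional ℚ T₂ := Submodule.finiteDimensional_of_le hT₂T
  obtain ⟨p₁, hp₁, hsp₁, hL₁⟩ := exists_tupleK V₁
  obtain ⟨p₂, hp₂, hsp₂, hL₂⟩ := exists_tupleK V₂
  obtain ⟨t₁, ht₁, hs₁⟩ := exists_tuple T₁
  obtain ⟨t₂, ht₂, hs₂⟩ := exists_tuple T₂
  have hp₁V : ∀ i, p₁ i ∈ V₁ := fun i => hsp₁ ▸ Submodule.subset_span ⟨i, rfl⟩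
  have hp₂V : ∀ i, p₂ i ∈ V₂ := fun i => hsp₂ ▸ Submodule.subset_span ⟨i, rfl⟩
  have ht₁V : ∀ i, t₁ i ∈ T₁ := fun i => hs₁ ▸ Submodule.subset_span ⟨i, rfl⟩
  have ht₂V : ∀ i, t₂ i ∈ T₂ := fun i => hs₂ ▸ Submodule.subset_span ⟨i, rfl⟩
  have hpos : 0 < finrank ℚ T₂ + finrank (kL L) V₂ := by omega
  have h4 := ax_fixed (z := p₂) (t := t₂) hE (hΔ hDΔ _ h2) (hΔ hDΔ _ h3)
    (fun i => hC D hDΔ _ (hV₂V (hp₂V i))) (fun l => hTf D hDΔ _ (hT₂T (ht₂V l)))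
    (fun c hc hq => by
      have e : ∑ i, c i * p₂ i = ∑ i, (⟨c i, hc i⟩ : kL L) • p₂ i := rfl
      have h5 : ∑ i, c i * p₂ i ∈ V₂ := by
        rw [e]
        exact sum_mem fun l _ => Submodule.smul_mem _ _ (hp₂V l)
      have h6 := hdjV _ h5 ⟨hV₂V h5, hq⟩
      rw [e] at h6
      exact funext fun i => congrArg Subtype.val (Fintype.linearIndependent_iff.1 hp₂ _ h6 i))
    (fun q hq => by
      have h5 : ∑ l, q l • t₂ l ∈ T₂ := sum_mem fun l _ => Submodule.smul_mem _ _ (ht₂V l)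
      have h6 := hdjT _ h5 ⟨hT₂T h5, hq⟩
      exact funext fun i => Fintype.linearIndependent_iff.1 ht₂ q h6 i) hpos
  have h5 : clo K (ET t₁ ∪ EP L p₁) ≤ Cst D := by
    intro x hx
    refine hx D (hΔ hDΔ) ?_
    rintro _ ((⟨i, rfl⟩ | ⟨i, rfl⟩) | ⟨i, rfl⟩ | ⟨i, rfl⟩ | ⟨i, rfl⟩)
    · exact hT₁D _ (ht₁V i)
    · have h6 := hTf D hDΔ _ (hT₁T (ht₁V i))
      change D (Complex.exp (t₁ i)) = 0
      rw [Pool.Agent.Y776.D_exp h6, hT₁D _ (ht₁V i), mul_zero]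
    · exact hV₁D _ (hp₁V i)
    · obtain ⟨h6, h7⟩ := hC D hDΔ _ (hV₁V (hp₁V i))
      change D (zt L (p₁ i)) = 0
      rw [hV₁D _ (hp₁V i)] at h6
      unfold et at h7
      rw [h6, mul_zero, add_zero] at h7
      exact h7
    · obtain ⟨h6, h7⟩ := hC D hDΔ _ (hV₁V (hp₁V i))
      rw [hV₁D _ (hp₁V i)] at h6
      exact (wp_killed (hΔ hDΔ _ h2) (hΔ hDΔ _ h3) h6 (hL₁ i)).1
  have h6 := rank_mono_base h5 ((ET_finite t₂).union (EP_finite (L := L) p₂))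
  have h7 := rank_add (C := K) ((ET_finite t₁).union (EP_finite (L := L) p₁))
    ((ET_finite t₂).union (EP_finite (L := L) p₂))
  have h8 : (MK K).eRk ((ET t₁ ∪ EP L p₁) ∪ (ET t₂ ∪ EP L p₂)) ≤ (MK K).eRk (NW L V T) := by
    apply (MK K).eRk_mono
    exact union_subset (NW_subset (fun i => hV₁V (hp₁V i)) hL₁ fun i => hT₁T (ht₁V i))
      (NW_subset (fun i => hV₂V (hp₂V i)) hL₂ fun i => hT₂T (ht₂V i))
  have h9 := eRk_NW h2 h3 hL₁ t₁
  rw [hs₁, hsp₁] at h9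
  rw [h9] at hI
  calc ((2 * finrank (kL L) V + finrank ℚ T + finrank ℂ (Δ.map (eVT V T)) : ℕ) : ℕ∞)
      ≤ ((2 * finrank (kL L) V₁ + finrank ℚ T₁ + finrank ℂ (Δ.map (eVT V₁ T₁)) : ℕ) : ℕ∞) +
        ((finrank ℚ T₂ + 2 * finrank (kL L) V₂ + 1 : ℕ) : ℕ∞) := by
        rw [← Nat.cast_add]
        exact_mod_cast (by omega : 2 * finrank (kL L) V + finrank ℚ T +
          finrank ℂ (Δ.map (eVT V T)) ≤
          (2 * finrank (kL L) V₁ + finrank ℚ T₁ + finrank ℂ (Δ.map (eVT V₁ T₁))) +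
            (finrank ℚ T₂ + 2 * finrank (kL L) V₂ + 1))
    _ ≤ (MK K).eRk (ET t₁ ∪ EP L p₁) + (MK (clo K (ET t₁ ∪ EP L p₁))).eRk (ET t₂ ∪ EP L p₂) :=
        add_le_add hI (h4.trans h6)
    _ = (MK K).eRk ((ET t₁ ∪ EP L p₁) ∪ (ET t₂ ∪ EP L p₂)) := h7.symm
    _ ≤ (MK K).eRk (NW L V T) := h8

end Pool.Agent.H445
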