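import Pool.Agent.H445.EllB

/-!
# Failures of the elliptico-toric inequality: reduction to a closed field
-/

set_option autoImplicit false

open Set Module MvPolynomial
open Pool.Agent.TH813.Rel (DF MK subset_cl rk_le_of_subset_cl cl_of_base exists_derF)
open Pool.Agent.Y685
open Pool.Agent.Y776 (Tf lg lgL Tf_lin lg_lin ET ET_finite TfL TfL_apply Good good_der good_union
  countable_bad exists_chain grC Grad)
open Pool.Agent.W245.EB Pool.Agent.TH813.Ell H667R3 Pool.Agent.Y119.CB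
open scoped PeriodPair

noncomputable section

namespace Pool.Agent.H445

variable {L : PeriodPair} {κ : ℂ} {K : Subfield ℂ} {n s : ℕ}

/-- every compatible direction comes from a derivation -/
theorem Tan_CF (hK : Fld K) (hL : L ∈ LK K) {z : Fin n → ℂ} {t : Fin s → ℂ} {v : Fin (n + s) → ℂ}
    (hv : v ∈ Tan PF' K (Pf' L (Fin.append z t))) :
    ∃ D ∈ CF K L z t, ∀ j, D (Fin.append z t j) = v j := by
  classical
  obtain ⟨D₀, hD⟩ := exists_derivation (k := K) (Pf' L (Fin.append z t))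
    (fun s₀ => ∑ j, v j * aeval (Pf' L (Fin.append z t)) (PF' (n := n) (s := s) j s₀)) (by
      intro H hH
      have h1 := hv _ ⟨H, hH, rfl⟩
      rw [← h1]
      simp only [grC, Finset.mul_sum, Finset.sum_mul]
      rw [Finset.sum_comm]
      exact Finset.sum_congr rfl fun j _ => Finset.sum_congr rfl fun s _ => by ring)
  set D : Derivation ℚ ℂ ℂ := D₀.restrictScalars ℚ with hDD
  have hk : ∀ x ∈ K, D x = 0 := fun c hc => D₀.map_algebraMap ⟨c, hc⟩
  have k1 : ∀ i, D (z i) = v (Fin.castAdd s i) := by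
    intro i
    change D₀ (z i) = _
    have := hD (.z i)
    rw [Fin.sum_univ_add] at this
    simpa [Pf', PA, PB, apply_ite] using this
  have k2 : ∀ i, D (zeta L (z i)) = -(v (Fin.castAdd s i) * ℘[L] (z i)) := by
    intro i
    change D₀ (zeta L (z i)) = _
    have := hD (.ze i)
    rw [Fin.sum_univ_add] at this
    simpa [Pf', PA, PB, apply_ite] using this
  have k3 : ∀ i, D (℘[L] (z i)) = v (Fin.castAdd s i) * ℘'[L] (z i) := by
    intro i
    change D₀ (℘[L] (z i)) = _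
    have := hD (.wp i)
    rw [Fin.sum_univ_add] at this
    simpa [Pf', PA, PB, apply_ite] using this
  have k4 : ∀ l, D (t l) = v (Fin.natAdd n l) := by
    intro l
    change D₀ (t l) = _
    have := hD (.t l)
    rw [Fin.sum_univ_add] at this
    simpa [Pf', PA, PB, apply_ite] using this
  have k5 : ∀ l, D (Complex.exp (t l)) = v (Fin.natAdd n l) * Complex.exp (t l) := by
    intro l
    change D₀ (Complex.exp (t l)) = _
    have := hD (.e l)
    rw [Fin.sum_univ_add] at this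
    simpa [Pf', PA, PB, apply_ite] using this
  refine ⟨D, ⟨hk, fun i => ?_, fun l => Tf_eq (k4 l) (k5 l)⟩, fun j => ?_⟩
  · by_cases h2 : 2 * z i ∈ L.lattice
    · have hzK : z i ∈ K := by
        have h3 := lat_mem hL h2
        have h4 : z i = 2 * z i / 2 := by ring
        rw [h4]
        exact div_mem h3 (by exact_mod_cast natCast_mem K 2)
      refine ⟨by rw [om_of_two_mul_mem L _ h2, hk _ hzK], ?_⟩
      unfold et
      rw [om_of_two_mul_mem L _ h2, mul_zero, add_zero]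
      exact hk _ (hK.zt L hL _ hzK)
    · have h1 : om L D (z i) = v (Fin.castAdd s i) := by
        unfold om
        rw [k3, mul_div_assoc, div_self (wp'_ne_zero L h2), mul_one]
      refine ⟨by rw [h1, k1], ?_⟩
      unfold et
      rw [h1, zt_of_notMem (two_mul_notMem_of L h2), k2]
      ring
  · induction j using Fin.addCases with
    | left i => rw [Fin.append_left, k1]
    | right l => rw [Fin.append_right, k4]

theorem CF_le (z : Fin n → ℂ) (t : Fin s → ℂ) : CF K L z t ≤ DF (IFd K) := fun _ hD => hD.1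

theorem CF_span (hE : Eig L κ) (h2 : L.g₂ ∈ K) (h3 : L.g₃ ∈ K) {z : Fin n → ℂ} {t : Fin s → ℂ}
    {D : Derivation ℚ ℂ ℂ} (hD : D ∈ CF K L z t) :
    (∀ x ∈ Submodule.span (kL L) (range z), Cm1 L D x) ∧
      ∀ x ∈ Submodule.span ℚ (range t), Tf D x = 0 := by
  constructor
  · intro x hx
    have h1 : Submodule.span (kL L) (range z) ≤ CmS hE (hD.1 _ h2) (hD.1 _ h3) := by
      rw [Submodule.span_le]
      rintro _ ⟨i, rfl⟩
      exact hD.2.1 i
    exact h1 hx
  · intro x hx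
    obtain ⟨q, rfl⟩ := mem_span_range hx
    rw [Tf_lin]
    exact Finset.sum_eq_zero fun j _ => by rw [hD.2.2, mul_zero]

/-- a point outside of the field is moved by a compatible derivation -/
theorem Fld.moves_pt (hK : Fld K) (hL : L ∈ LK K) {z : Fin n → ℂ} (t : Fin s → ℂ)
    (hz : ∀ i, z i ∉ L.lattice) {x : ℂ} (hx : x ∉ K) : ∃ D ∈ CF K L z t, D x ≠ 0 := by
  have hxL : x ∉ L.lattice := fun h => hx (lat_mem hL h)
  have h1 := hK.good L hL (n + 1) s (Fin.cons x z) t (Fin.castAdd s 0) (by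
    intro i
    refine Fin.cases ?_ (fun i => ?_) i
    · simpa using hxL
    · simpa using hz i) (by rw [Fin.append_left]; simpa using hx)
  obtain ⟨v, hv, hv1⟩ := good_Tan h1
  obtain ⟨D, hD, hDv⟩ := Tan_CF hK hL hv
  refine ⟨D, ⟨hD.1, fun i => ?_, hD.2.2⟩, ?_⟩
  · have := hD.2.1 i.succ
    simpa using this
  · have h2 := hDv (Fin.castAdd s 0)
    rw [Fin.append_left, hv1] at h2
    have h3 : D x = 1 := by simpa using h2
    rw [h3]
    exact one_ne_zero

/-- an exponent outside of the field is moved by a compatible derivation -/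
theorem Fld.moves_ex (hK : Fld K) (hL : L ∈ LK K) {z : Fin n → ℂ} (t : Fin s → ℂ)
    (hz : ∀ i, z i ∉ L.lattice) {x : ℂ} (hx : x ∉ K) : ∃ D ∈ CF K L z t, D x ≠ 0 := by
  have h1 := hK.good L hL n (s + 1) z (Fin.cons x t) (Fin.natAdd n 0) hz
    (by rw [Fin.append_right]; simpa using hx)
  obtain ⟨v, hv, hv1⟩ := good_Tan h1
  obtain ⟨D, hD, hDv⟩ := Tan_CF hK hL hv
  refine ⟨D, ⟨hD.1, hD.2.1, fun i => ?_⟩, ?_⟩
  · have := hD.2.2 i.succ
    simpa using this
  · have h2 := hDv (Fin.natAdd n 0)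
    rw [Fin.append_right, hv1] at h2
    have h3 : D x = 1 := by simpa using h2
    rw [h3]
    exact one_ne_zero

theorem finrank_map_le {M N N' : Type*} [AddCommGroup M] [Module ℂ M] [AddCommGroup N] [Module ℂ N]
    [FiniteDimensional ℂ N] [AddCommGroup N'] [Module ℂ N'] (Δ : Submodule ℂ M) (f : M →ₗ[ℂ] N)
    (g : M →ₗ[ℂ] N') (h : ∀ D ∈ Δ, f D = 0 → g D = 0) :
    finrank ℂ (Δ.map g) ≤ finrank ℂ (Δ.map f) := by
  let f' := f.domRestrict Δ
  let g' := g.domRestrict Δ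
  have hf : LinearMap.range f' = Δ.map f := by
    rw [LinearMap.range_domRestrict]
  have hg : LinearMap.range g' = Δ.map g := by
    rw [LinearMap.range_domRestrict]
  have hker : LinearMap.ker f' ≤ LinearMap.ker g' := by
    rintro ⟨D, hD⟩ h0
    exact h D hD h0
  rw [← hf, ← hg]
  have h6 : Function.Surjective (LinearMap.rangeRestrict f') := LinearMap.surjective_rangeRestrict f'
  obtain ⟨s, hs⟩ := (LinearMap.rangeRestrict f').exists_rightInverse_of_surjective
    (LinearMap.range_eq_top.2 h6)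
  let φ : LinearMap.range f' →ₗ[ℂ] LinearMap.range g' := (LinearMap.rangeRestrict g') ∘ₗ s
  have hφ : Function.Surjective φ := by
    rintro ⟨_, D, rfl⟩
    refine ⟨LinearMap.rangeRestrict f' D, ?_⟩
    have h7 : s (LinearMap.rangeRestrict f' D) - D ∈ LinearMap.ker f' := by
      rw [LinearMap.mem_ker, map_sub, sub_eq_zero]
      have := LinearMap.congr_fun hs (LinearMap.rangeRestrict f' D)
      exact congrArg Subtype.val this
    have h8 := hker h7
    rw [LinearMap.mem_ker, map_sub, sub_eq_zero] at h8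
    exact Subtype.ext h8
  exact LinearMap.finrank_le_finrank_of_surjective hφ

/-- independence modulo a space of points -/
def IndP (L : PeriodPair) (A : Submodule (kL L) ℂ) (z : Fin n → ℂ) : Prop :=
  ∀ c : Fin n → ℂ, (∀ i, c i ∈ kL L) → ∑ i, c i * z i ∈ A → c = 0

/-- independence modulo a space of exponents -/
def IndE (B : Submodule ℚ ℂ) (t : Fin s → ℂ) : Prop :=
  ∀ q : Fin s → ℚ, ∑ i, q i • t i ∈ B → q = 0

theorem IndP.li {A : Submodule (kL L) ℂ} {z : Fin n → ℂ} (h : IndP L A z) :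
    LinearIndependent (kL L) z := by
  rw [li_iff]
  intro a ha h0
  exact h a ha (by rw [h0]; exact A.zero_mem)

theorem IndE.li {B : Submodule ℚ ℂ} {t : Fin s → ℂ} (h : IndE B t) : LinearIndependent ℚ t := by
  rw [Fintype.linearIndependent_iff]
  intro q hq i
  exact congrFun (h q (by rw [hq]; exact B.zero_mem)) i

theorem sum_K (c : Fin n → ℂ) (hc : ∀ i, c i ∈ kL L) (z : Fin n → ℂ) :
    ∑ i, c i * z i = ∑ i, (⟨c i, hc i⟩ : kL L) • z i := rfl

theorem IndP.sub {A : Submodule (kL L) ℂ} {z : Fin n → ℂ} (h : IndP L A z) {m : ℕ} {y : Fin m → ℂ}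
    (hy : LinearIndependent (kL L) y) (hyz : ∀ i, y i ∈ Submodule.span (kL L) (range z)) :
    IndP L A y := by
  intro c hc h0
  apply li_iff.1 hy c hc
  have h1 : ∑ i, c i * y i ∈ Submodule.span (kL L) (range z) := by
    rw [sum_K c hc]
    exact sum_mem fun i _ => Submodule.smul_mem _ _ (hyz i)
  obtain ⟨a, ha⟩ := (Submodule.mem_span_range_iff_exists_fun (kL L)).1 h1
  have h2 : ∑ i, (a i : ℂ) * z i = ∑ i, c i * y i := ha
  have h3 := h (fun i => (a i : ℂ)) (fun i => (a i).2) (by rw [h2]; exact h0)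
  rw [← h2]
  exact Finset.sum_eq_zero fun i _ => by
    have := congrFun h3 i
    simp only [Pi.zero_apply] at this
    rw [this, zero_mul]

theorem IndE.sub {B : Submodule ℚ ℂ} {t : Fin s → ℂ} (h : IndE B t) {m : ℕ} {y : Fin m → ℂ}
    (hy : LinearIndependent ℚ y) (hyt : ∀ i, y i ∈ Submodule.span ℚ (range t)) : IndE B y := by
  intro c h0
  have h4 : ∑ i, c i • y i = 0 := by
    have h1 : ∑ i, c i • y i ∈ Submodule.span ℚ (range t) :=
      sum_mem fun i _ => Submodule.smul_mem _ _ (hyt i)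
    obtain ⟨a, ha⟩ := mem_span_range h1
    have h3 := h a (by rw [← ha]; exact h0)
    rw [ha, h3]
    simp
  exact funext fun i => Fintype.linearIndependent_iff.1 hy c h4 i

/-- `n` points and `s` exponents which miss the bound `s + 2 n + c` by at least `m` -/
structure FailM (L : PeriodPair) (P : Set ℂ) (A : Submodule (kL L) ℂ) (B : Submodule ℚ ℂ)
    (c n s m : ℕ) (z : Fin n → ℂ) (t : Fin s → ℂ) : Prop where
  off : ∀ i, z i ∉ L.lattice
  indP : IndP L A z
  indE : IndE B t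
  rk : (MK (⊥ : IntermediateField ℚ ℂ)).eRk (P ∪ (ET t ∪ EP L z)) + m ≤ ((s + 2 * n + c : ℕ) : ℕ∞)

/-- **Reduction of a failure to the closed field** -/
theorem FailM.reduce {P : Set ℂ} {A : Submodule (kL L) ℂ} {B : Submodule ℚ ℂ} {c m : ℕ}
    {z : Fin n → ℂ} {t : Fin s → ℂ} (h : FailM L P A B c n s m z t) (hK : Fld K) (hL : L ∈ LK K)
    (hP : P.Finite) (hPK : P ⊆ K) (hg2 : L.g₂ ∈ clo ⊥ P) (hg3 : L.g₃ ∈ clo ⊥ P) :
    (∃ (n₀ s₀ : ℕ) (z₀ : Fin n₀ → ℂ) (t₀ : Fin s₀ → ℂ), n₀ ≤ n ∧ s₀ ≤ s ∧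
      finrank ℂ (Tan PF' K (Pf' L (Fin.append z t))) + (n₀ + s₀) ≤ n + s ∧
      FailM L P A B c n₀ s₀ (m + finrank ℂ (Tan PF' K (Pf' L (Fin.append z t)))) z₀ t₀) ∧
    (finrank ℂ (Tan PF' K (Pf' L (Fin.append z t))) = 0 → (∀ j, z j ∈ K) ∧ ∀ j, t j ∈ K) := by
  classical
  obtain ⟨κ, hE⟩ := exists_eig L
  have hL2 := hK.g₂ L hL
  have hL3 := hK.g₃ L hL
  set V : Submodule (kL L) ℂ := Submodule.span (kL L) (range z) with hV
  set T : Submodule ℚ ℂ := Submodule.span ℚ (range t) with hT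
  have hVf : FiniteDimensional (kL L) V := FiniteDimensional.span_of_finite (kL L) (finite_range z)
  have hTf : FiniteDimensional ℚ T := FiniteDimensional.span_of_finite ℚ (finite_range t)
  have hVn : finrank (kL L) V = n := by
    rw [hV, finrank_span_eq_card h.indP.li, Fintype.card_fin]
  have hTn : finrank ℚ T = s := by
    rw [hT, finrank_span_eq_card h.indE.li, Fintype.card_fin]
  -- the field as a space of points
  let KP : Submodule (kL L) ℂ :=
    { carrier := (K : Set ℂ)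
      add_mem' := fun {a b} ha hb => K.add_mem ha hb
      zero_mem' := K.zero_mem
      smul_mem' := fun a x hx => K.mul_mem (kL_mem hL a.2) hx }
  have hV₀V : V ⊓ KP ≤ V := inf_le_left
  have hT₀T : T ⊓ KQ K ≤ T := inf_le_left
  set V₀ : Submodule (kL L) ℂ := V ⊓ KP with hV₀
  set T₀ : Submodule ℚ ℂ := T ⊓ KQ K with hT₀
  have hV₀f : FiniteDimensional (kL L) V₀ := Submodule.finiteDimensional_of_le hV₀V
  have hT₀f : FiniteDimensional ℚ T₀ := Submodule.finiteDimensional_of_le hT₀T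
  obtain ⟨V₁, hV₁V, hdjV, hcardV, hsupV⟩ := exists_rel_complk hV₀V
  obtain ⟨T₁, hT₁T, hdjT, hcardT, hsupT⟩ := exists_rel_complk hT₀T
  have hV₁f : FiniteDimensional (kL L) V₁ := Submodule.finiteDimensional_of_le hV₁V
  have hT₁f : FiniteDimensional ℚ T₁ := Submodule.finiteDimensional_of_le hT₁T
  rw [hVn] at hcardV
  rw [hTn] at hcardT
  have hdV : ∀ x ∈ V₁, x ≠ 0 → x ∉ K := fun x hx hx0 hxK => hx0 (hdjV x hx ⟨hV₁V hx, hxK⟩)
  have hdT : ∀ x ∈ T₁, x ≠ 0 → x ∉ K := fun x hx hx0 hxK => hx0 (hdjT x hx ⟨hT₁T hx, hxK⟩)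
  -- the compatible derivations
  set Δ := CF K L z t with hΔ
  have hch := chainM (L := L) (κ := κ) (K := IFd K) hE hL2 hL3 (Δ := Δ) (CF_le z t) _ V₁ T₁ hV₁f
    hT₁f rfl (fun D hD x hx => (CF_span hE hL2 hL3 hD).1 x (hV₁V hx))
    (fun D hD x hx => (CF_span hE hL2 hL3 hD).2 x (hT₁T hx))
    (fun x hx hx0 => Fld.moves_pt hK hL t h.off (hdV x hx hx0))
    (fun x hx hx0 => Fld.moves_ex hK hL t h.off (hdT x hx hx0))
  -- the dimension of the directions
  set d := finrank ℂ (Tan PF' K (Pf' L (Fin.append z t))) with hd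
  have hd1 : d ≤ finrank ℂ (Δ.map (eVT V₁ T₁)) := by
    let ev : Derivation ℚ ℂ ℂ →ₗ[ℂ] (Fin (n + s) → ℂ) :=
      { toFun := fun D j => D (Fin.append z t j)
        map_add' := fun _ _ => rfl
        map_smul' := fun _ _ => rfl }
    have h4 : Tan PF' K (Pf' L (Fin.append z t)) ≤ Δ.map ev := by
      intro v hv
      obtain ⟨D, hD, h5⟩ := Tan_CF hK hL hv
      exact ⟨D, hD, funext h5⟩
    refine (Submodule.finrank_mono h4).trans (finrank_map_le Δ _ _ ?_)
    intro D hD h0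
    obtain ⟨h5, h6⟩ := eVT_eq_zero.1 h0
    have h7 : ∀ x ∈ V, D x = 0 := by
      intro x hx
      obtain ⟨a, ha, b, hb, rfl⟩ := Submodule.mem_sup.1 (hsupV hx)
      rw [map_add, hD.1 _ ha.2, h5 _ hb, add_zero]
    have h8 : ∀ x ∈ T, D x = 0 := by
      intro x hx
      obtain ⟨a, ha, b, hb, rfl⟩ := Submodule.mem_sup.1 (hsupT hx)
      rw [map_add, hD.1 _ ha.2, h6 _ hb, add_zero]
    funext j
    change D (Fin.append z t j) = 0
    induction j using Fin.addCases with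
    | left i => rw [Fin.append_left]; exact h7 _ (Submodule.subset_span ⟨i, rfl⟩)
    | right l => rw [Fin.append_right]; exact h8 _ (Submodule.subset_span ⟨l, rfl⟩)
  have hd2 := finrank_eVT_le V₁ T₁ Δ
  -- the rank
  obtain ⟨z₀, hz₀, hsz₀, hLz₀⟩ := exists_tupleK V₀
  obtain ⟨z₁, hz₁, hsz₁, hLz₁⟩ := exists_tupleK V₁
  obtain ⟨t₀, ht₀, hst₀⟩ := exists_tuple T₀
  obtain ⟨t₁, ht₁, hst₁⟩ := exists_tuple T₁
  have hz₀V : ∀ i, z₀ i ∈ V₀ := fun i => hsz₀ ▸ Submodule.subset_span ⟨i, rfl⟩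
  have hz₁V : ∀ i, z₁ i ∈ V₁ := fun i => hsz₁ ▸ Submodule.subset_span ⟨i, rfl⟩
  have ht₀V : ∀ i, t₀ i ∈ T₀ := fun i => hst₀ ▸ Submodule.subset_span ⟨i, rfl⟩
  have ht₁V : ∀ i, t₁ i ∈ T₁ := fun i => hst₁ ▸ Submodule.subset_span ⟨i, rfl⟩
  have hr1 := eRk_NW (C := IFd K) hL2 hL3 hLz₁ t₁
  rw [hst₁, hsz₁] at hr1
  rw [hr1] at hch
  set C : IntermediateField ℚ ℂ := clo ⊥ P with hC
  have hCK : C ≤ IFd K := clo_le_IFd hK bot_le hPK
  have hr2 := eRk_NW (C := C) hg2 hg3 h.off t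
  rw [← hV, ← hT] at hr2
  have hr3 : (MK C).eRk ((ET t₀ ∪ EP L z₀) ∪ (ET t₁ ∪ EP L z₁)) ≤
      (MK C).eRk (ET t ∪ EP L z) := by
    rw [← hr2]
    apply (MK _).eRk_mono
    exact union_subset (NW_subset (fun i => hV₀V (hz₀V i)) hLz₀ fun i => hT₀T (ht₀V i))
      (NW_subset (fun i => hV₁V (hz₁V i)) hLz₁ fun i => hT₁T (ht₁V i))
  have hf0 : (ET t₀ ∪ EP L z₀).Finite := (ET_finite t₀).union (EP_finite z₀)
  have hf1 : (ET t₁ ∪ EP L z₁).Finite := (ET_finite t₁).union (EP_finite z₁)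
  have hf : (ET t ∪ EP L z).Finite := (ET_finite t).union (EP_finite z)
  rw [rank_add hf0 hf1] at hr3
  have hr4 : clo C (ET t₀ ∪ EP L z₀) ≤ IFd K := by
    apply clo_le_IFd hK hCK
    rintro _ ((⟨i, rfl⟩ | ⟨i, rfl⟩) | ⟨i, rfl⟩ | ⟨i, rfl⟩ | ⟨i, rfl⟩)
    · exact (ht₀V i).2
    · exact hK.exp _ (ht₀V i).2
    · exact (hz₀V i).2
    · exact hK.zt L hL _ (hz₀V i).2
    · exact hK.wp L hL _ (hz₀V i).2
  have hr5 := rank_mono_base hr4 hf1
  have hrk := h.rk
  rw [rank_add hP hf] at hrk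
  -- the ranks as numbers
  have hnat : ∀ (F : IntermediateField ℚ ℂ) {S : Set ℂ}, S.Finite →
      ∃ r : ℕ, (MK F).eRk S = r := by
    intro F S hS
    have : (MK F).eRk S ≠ ⊤ := by
      rw [← lt_top_iff_ne_top]
      exact lt_of_le_of_lt ((MK _).eRk_le_encard _) hS.encard_lt_top
    exact ⟨_, (ENat.natCast_toNat this).symm⟩
  obtain ⟨rP, hrP⟩ := hnat ⊥ hP
  obtain ⟨r, hr⟩ := hnat C hf0
  obtain ⟨r1, hr1'⟩ := hnat (IFd K) hf1
  obtain ⟨r2, hr2'⟩ := hnat (clo C (ET t₀ ∪ EP L z₀)) hf1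
  obtain ⟨r3, hr3'⟩ := hnat C hf
  rw [hr1'] at hch
  rw [hr1', hr2'] at hr5
  rw [hr, hr2', hr3'] at hr3
  rw [hrP, hr3'] at hrk
  have e1 : 2 * finrank (kL L) V₁ + finrank ℚ T₁ + finrank ℂ (Δ.map (eVT V₁ T₁)) ≤ r1 := by
    exact_mod_cast hch
  have e2 : r1 ≤ r2 := by exact_mod_cast hr5
  have e3 : r + r2 ≤ r3 := by exact_mod_cast hr3
  have e4 : rP + r3 + m ≤ s + 2 * n + c := by exact_mod_cast hrk
  refine ⟨⟨finrank (kL L) V₀, finrank ℚ T₀, z₀, t₀, by omega, by omega, by omega, hLz₀,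
    h.indP.sub hz₀ fun i => hV₀V (hz₀V i), h.indE.sub ht₀ fun i => hT₀T (ht₀V i), ?_⟩,
    fun h0 => ?_⟩
  · rw [rank_add hP hf0, hrP, ← hC, hr]
    exact_mod_cast (by omega : rP + r + (m + d) ≤ finrank ℚ T₀ + 2 * finrank (kL L) V₀ + c)
  · have hTan : Tan PF' K (Pf' L (Fin.append z t)) = ⊥ := Submodule.finrank_eq_zero.1 h0
    have key : ∀ j, Fin.append z t j ∈ K := by
      intro j
      by_contra hj
      obtain ⟨v, hvT, hv⟩ := good_Tan (hK.good L hL n s z t j h.off hj)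
      rw [hTan, Submodule.mem_bot] at hvT
      rw [hvT] at hv
      exact zero_ne_one hv
    refine ⟨fun j => ?_, fun j => ?_⟩
    · have := key (Fin.castAdd s j)
      rwa [Fin.append_left] at this
    · have := key (Fin.natAdd n j)
      rwa [Fin.append_right] at this

end Pool.Agent.H445
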