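import Pool.Agent.H445.EllC

/-!
# The exact dimension of the set of the failures of the elliptico-toric inequality
-/

set_option autoImplicit false

open Set Module MvPolynomial
open Pool.Agent.TH813.Rel (DF MK subset_cl rk_le_of_subset_cl cl_of_base exists_derF)
open Pool.Agent.Y685
open Pool.Agent.Y776 (Tf lg lgL Tf_lin lg_lin ET ET_finite TfL TfL_apply Good good_der good_union
  countable_bad exists_chain grC Grad)
open Pool.Agent.W245.EB Pool.Agent.TH813.Ell H667R3 Pool.Agent.Y119.CB
open scoped PeriodPair NNReal ENNReal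

noncomputable section

namespace Pool.Agent.H445

variable {L : PeriodPair} {κ : ℂ} {K : Subfield ℂ} {n s : ℕ}

/-- the field of multiplications is a finite extension of the rational numbers -/
instance finite_kL (L : PeriodPair) : Module.Finite ℚ (kL L) := by
  have hP : FiniteDimensional ℚ (PQ L) :=
    FiniteDimensional.span_of_finite ℚ (by simp)
  have key : ∀ c : kL L, (c : ℂ) * L.ω₁ ∈ PQ L := by
    intro c
    obtain ⟨m, hm, h⟩ := mem_kL.1 c.2
    obtain ⟨a, b, hab⟩ := PeriodPair.mem_lattice.1 (h _ L.ω₁_mem_lattice)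
    have hm0 : (m : ℂ) ≠ 0 := by exact_mod_cast hm.ne'
    have h1 : (c : ℂ) * L.ω₁ = ((a : ℚ) / m) • L.ω₁ + ((b : ℚ) / m) • L.ω₂ := by
      rw [Rat.smul_def, Rat.smul_def]
      push_cast
      field_simp
      linear_combination -hab
    rw [h1]
    exact add_mem (Submodule.smul_mem _ _ (Submodule.subset_span (by simp)))
      (Submodule.smul_mem _ _ (Submodule.subset_span (by simp)))
  let f : kL L →ₗ[ℚ] PQ L :=
    { toFun := fun c => ⟨(c : ℂ) * L.ω₁, key c⟩
      map_add' := fun a b => Subtype.ext (by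
        change ((a : ℂ) + b) * L.ω₁ = a * L.ω₁ + b * L.ω₁
        ring)
      map_smul' := fun q a => Subtype.ext (by
        change ((q • a : kL L) : ℂ) * L.ω₁ = q • ((a : ℂ) * L.ω₁)
        rw [Rat.smul_def, Rat.smul_def]
        push_cast
        ring) }
  have hf : Function.Injective f := by
    intro a b hab
    have h1 : (a : ℂ) * L.ω₁ = b * L.ω₁ := congrArg Subtype.val hab
    exact Subtype.ext (mul_right_cancel₀ (ω₁_ne_zero L) h1)
  exact Module.Finite.of_injective f hf

/-- an algebraic point outside of the lattice and of a space -/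
theorem exists_alg_pt (X : Submodule (kL L) ℂ) [FiniteDimensional (kL L) X] :
    ∃ r : ℂ, IsAlgebraic ℚ r ∧ r ∉ X ∧ r ∉ L.lattice := by
  have h1 : Module.Finite ℚ (X.restrictScalars ℚ) := Module.Finite.trans (R := ℚ) (kL L) X
  have hP : FiniteDimensional ℚ (PQ L) :=
    FiniteDimensional.span_of_finite ℚ (by simp)
  obtain ⟨r, hr1, hr2⟩ := exists_real_alg (X.restrictScalars ℚ ⊔ PQ L)
  refine ⟨r, hr1, fun h => hr2 (Submodule.mem_sup_left h), fun h => hr2 (Submodule.mem_sup_right ?_)⟩
  obtain ⟨a, b, hab⟩ := PeriodPair.mem_lattice.1 h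
  rw [← hab]
  have e : (a : ℂ) * L.ω₁ + b * L.ω₂ = (a : ℚ) • L.ω₁ + (b : ℚ) • L.ω₂ := by
    rw [Rat.smul_def, Rat.smul_def]
    push_cast
    rfl
  rw [e]
  exact add_mem (Submodule.smul_mem _ _ (Submodule.subset_span (by simp)))
    (Submodule.smul_mem _ _ (Submodule.subset_span (by simp)))

variable {P : Set ℂ} {A : Submodule (kL L) ℂ} {B : Submodule ℚ ℂ} {c : ℕ}

theorem FailM.mono {m m' : ℕ} (hm : m ≤ m') {z : Fin n → ℂ} {t : Fin s → ℂ}
    (h : FailM L P A B c n s m' z t) : FailM L P A B c n s m z t :=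
  ⟨h.off, h.indP, h.indE, le_trans (by gcongr) h.rk⟩

theorem mem_span_snoc {k : Type*} [Field k] [Module k ℂ] {X : Submodule k ℂ} {r : ℂ} (hr : r ∉ X)
    {a : k} (h : a • r ∈ X) : a = 0 := by
  by_contra h0
  apply hr
  have := X.smul_mem a⁻¹ h
  rwa [smul_smul, inv_mul_cancel₀ h0, one_smul] at this

/-- adding an algebraic point -/
theorem FailM.succP [FiniteDimensional (kL L) A] {m : ℕ} {z : Fin n → ℂ} {t : Fin s → ℂ}
    (h : FailM L P A B c n s m z t) : ∃ z' : Fin (n + 1) → ℂ, FailM L P A B c (n + 1) s m z' t := by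
  have hf : FiniteDimensional (kL L) (Submodule.span (kL L) (range z)) :=
    FiniteDimensional.span_of_finite (kL L) (finite_range z)
  obtain ⟨r, hr1, hr2, hr3⟩ := exists_alg_pt (Submodule.span (kL L) (range z) ⊔ A)
  refine ⟨Fin.snoc z r, ?_, ?_, h.indE, ?_⟩
  · intro i
    refine Fin.lastCases ?_ (fun i => ?_) i
    · rw [Fin.snoc_last]; exact hr3
    · rw [Fin.snoc_castSucc]; exact h.off i
  · intro a ha h0
    rw [Fin.sum_univ_castSucc] at h0
    simp only [Fin.snoc_castSucc, Fin.snoc_last] at h0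
    have h1 : ∑ i : Fin n, a i.castSucc * z i ∈ Submodule.span (kL L) (range z) := by
      rw [sum_K (fun i : Fin n => a i.castSucc) (fun i => ha _)]
      exact sum_mem fun i _ => Submodule.smul_mem _ _ (Submodule.subset_span ⟨i, rfl⟩)
    have h2 : (⟨a (Fin.last n), ha _⟩ : kL L) • r ∈ Submodule.span (kL L) (range z) ⊔ A := by
      change a (Fin.last n) * r ∈ _
      have h3 := sub_mem (Submodule.mem_sup_right (S := Submodule.span (kL L) (range z)) h0)
        (Submodule.mem_sup_left (T := A) h1)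
      rwa [add_sub_cancel_left] at h3
    have h3 : a (Fin.last n) = 0 := congrArg Subtype.val (mem_span_snoc hr2 h2)
    rw [h3, zero_mul, add_zero] at h0
    have h4 := h.indP (fun i => a i.castSucc) (fun i => ha _) h0
    funext i
    refine Fin.lastCases ?_ (fun i => ?_) i
    · exact h3
    · exact congrFun h4 i
  · have h1 : P ∪ (ET t ∪ EP L (Fin.snoc z r : Fin (n + 1) → ℂ)) ⊆
        (MK (⊥ : IntermediateField ℚ ℂ)).closure
          (insert (zt L r) (insert (℘[L] r) (P ∪ (ET t ∪ EP L z)))) := by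
      have h0 : P ∪ (ET t ∪ EP L z) ⊆ insert (zt L r) (insert (℘[L] r) (P ∪ (ET t ∪ EP L z))) :=
        (subset_insert _ _).trans (subset_insert _ _)
      rintro y (hy | hy | ⟨i, rfl⟩ | ⟨i, rfl⟩ | ⟨i, rfl⟩)
      · exact subset_cl _ (h0 (Or.inl hy))
      · exact subset_cl _ (h0 (Or.inr (Or.inl hy)))
      · refine Fin.lastCases ?_ (fun i => ?_) i
        · rw [Fin.snoc_last]
          exact alg_mem_cl hr1 _
        · rw [Fin.snoc_castSucc]
          exact subset_cl _ (h0 (Or.inr (Or.inr (Or.inl ⟨i, rfl⟩))))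
      · refine Fin.lastCases ?_ (fun i => ?_) i
        · beta_reduce
          rw [Fin.snoc_last]
          exact subset_cl _ (mem_insert _ _)
        · beta_reduce
          rw [Fin.snoc_castSucc]
          exact subset_cl _ (h0 (Or.inr (Or.inr (Or.inr (Or.inl ⟨i, rfl⟩)))))
      · refine Fin.lastCases ?_ (fun i => ?_) i
        · beta_reduce
          rw [Fin.snoc_last]
          exact subset_cl _ (mem_insert_of_mem _ (mem_insert _ _))
        · beta_reduce
          rw [Fin.snoc_castSucc]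
          exact subset_cl _ (h0 (Or.inr (Or.inr (Or.inr (Or.inr ⟨i, rfl⟩)))))
    calc (MK (⊥ : IntermediateField ℚ ℂ)).eRk
          (P ∪ (ET t ∪ EP L (Fin.snoc z r : Fin (n + 1) → ℂ))) + m
        ≤ (((MK (⊥ : IntermediateField ℚ ℂ)).eRk (P ∪ (ET t ∪ EP L z)) + 1) + 1) + m := by
          gcongr
          refine (rk_le_of_subset_cl h1).trans (((MK _).eRk_insert_le_add_one _ _).trans ?_)
          gcongr
          exact (MK _).eRk_insert_le_add_one _ _
      _ = ((MK (⊥ : IntermediateField ℚ ℂ)).eRk (P ∪ (ET t ∪ EP L z)) + m) + 2 := by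
          rw [show (2 : ℕ∞) = 1 + 1 from rfl]
          ring
      _ ≤ ((s + 2 * n + c : ℕ) : ℕ∞) + 2 := by gcongr; exact h.rk
      _ = ((s + 2 * (n + 1) + c : ℕ) : ℕ∞) := by push_cast; ring

/-- adding an algebraic exponent -/
theorem FailM.succE [FiniteDimensional ℚ B] {m : ℕ} {z : Fin n → ℂ} {t : Fin s → ℂ}
    (h : FailM L P A B c n s m z t) : ∃ t' : Fin (s + 1) → ℂ, FailM L P A B c n (s + 1) m z t' := by
  have hf : FiniteDimensional ℚ (Submodule.span ℚ (range t)) :=
    FiniteDimensional.span_of_finite ℚ (finite_range t)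
  obtain ⟨r₀, hr1, hr2⟩ := exists_real_alg (Submodule.span ℚ (range t) ⊔ B)
  set r : ℂ := (r₀ : ℂ) with hr
  refine ⟨Fin.snoc t r, h.off, h.indP, ?_, ?_⟩
  · intro a h0
    rw [Fin.sum_univ_castSucc] at h0
    simp only [Fin.snoc_castSucc, Fin.snoc_last] at h0
    have h1 : ∑ i : Fin s, a i.castSucc • t i ∈ Submodule.span ℚ (range t) :=
      sum_mem fun i _ => Submodule.smul_mem _ _ (Submodule.subset_span ⟨i, rfl⟩)
    have h2 : a (Fin.last s) • r ∈ Submodule.span ℚ (range t) ⊔ B := by
      have h3 := sub_mem (Submodule.mem_sup_right (S := Submodule.span ℚ (range t)) h0)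
        (Submodule.mem_sup_left (T := B) h1)
      rwa [add_sub_cancel_left] at h3
    have h3 : a (Fin.last s) = 0 := mem_span_snoc hr2 h2
    rw [h3, zero_smul, add_zero] at h0
    have h4 := h.indE (fun i => a i.castSucc) h0
    funext i
    refine Fin.lastCases ?_ (fun i => ?_) i
    · exact h3
    · exact congrFun h4 i
  · have h1 : P ∪ (ET (Fin.snoc t r : Fin (s + 1) → ℂ) ∪ EP L z) ⊆
        (MK (⊥ : IntermediateField ℚ ℂ)).closure
          (insert (Complex.exp r) (P ∪ (ET t ∪ EP L z))) := by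
      rintro y (hy | (⟨i, rfl⟩ | ⟨i, rfl⟩) | hy)
      · exact subset_cl _ (mem_insert_of_mem _ (Or.inl hy))
      · refine Fin.lastCases ?_ (fun i => ?_) i
        · rw [Fin.snoc_last]
          exact alg_mem_cl hr1 _
        · rw [Fin.snoc_castSucc]
          exact subset_cl _ (mem_insert_of_mem _ (Or.inr (Or.inl (Or.inl ⟨i, rfl⟩))))
      · refine Fin.lastCases ?_ (fun i => ?_) i
        · beta_reduce
          rw [Fin.snoc_last]
          exact subset_cl _ (mem_insert _ _)
        · beta_reduce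
          rw [Fin.snoc_castSucc]
          exact subset_cl _ (mem_insert_of_mem _ (Or.inr (Or.inl (Or.inr ⟨i, rfl⟩))))
      · exact subset_cl _ (mem_insert_of_mem _ (Or.inr (Or.inr hy)))
    calc (MK (⊥ : IntermediateField ℚ ℂ)).eRk
          (P ∪ (ET (Fin.snoc t r : Fin (s + 1) → ℂ) ∪ EP L z)) + m
        ≤ ((MK (⊥ : IntermediateField ℚ ℂ)).eRk (P ∪ (ET t ∪ EP L z)) + 1) + m := by
          gcongr
          exact (rk_le_of_subset_cl h1).trans ((MK _).eRk_insert_le_add_one _ _)
      _ = ((MK (⊥ : IntermediateField ℚ ℂ)).eRk (P ∪ (ET t ∪ EP L z)) + m) + 1 := by ring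
      _ ≤ ((s + 2 * n + c : ℕ) : ℕ∞) + 1 := by gcongr; exact h.rk
      _ = (((s + 1) + 2 * n + c : ℕ) : ℕ∞) := by push_cast; ring

theorem FailM.extend [FiniteDimensional (kL L) A] [FiniteDimensional ℚ B] {n₀ s₀ m : ℕ}
    (hn : n₀ ≤ n) (hs : s₀ ≤ s) (h : ∃ (z : Fin n₀ → ℂ) (t : Fin s₀ → ℂ), FailM L P A B c n₀ s₀ m z t) :
    ∃ (z : Fin n → ℂ) (t : Fin s → ℂ), FailM L P A B c n s m z t := by
  have h1 : ∃ (z : Fin n → ℂ) (t : Fin s₀ → ℂ), FailM L P A B c n s₀ m z t := by
    induction n, hn using Nat.le_induction with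
    | base => exact h
    | succ n _ ih =>
      obtain ⟨z, t, hz⟩ := ih
      obtain ⟨z', hz'⟩ := hz.succP
      exact ⟨z', t, hz'⟩
  induction s, hs using Nat.le_induction with
  | base => exact h1
  | succ s _ ih =>
    obtain ⟨z, t, hz⟩ := ih
    obtain ⟨t', hz'⟩ := hz.succE
    exact ⟨z, t', hz'⟩

theorem EP_append {b : ℕ} (z : Fin n → ℂ) (x : Fin b → ℂ) :
    EP L (Fin.append z x) = EP L z ∪ EP L x := by
  ext y
  simp only [EP, mem_union, mem_range]
  constructor
  · rintro (⟨i, rfl⟩ | ⟨i, rfl⟩ | ⟨i, rfl⟩)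
    · refine Fin.addCases (fun i => ?_) (fun j => ?_) i
      · exact Or.inl (Or.inl ⟨i, by rw [Fin.append_left]⟩)
      · exact Or.inr (Or.inl ⟨j, by rw [Fin.append_right]⟩)
    · refine Fin.addCases (fun i => ?_) (fun j => ?_) i
      · exact Or.inl (Or.inr (Or.inl ⟨i, by rw [Fin.append_left]⟩))
      · exact Or.inr (Or.inr (Or.inl ⟨j, by rw [Fin.append_right]⟩))
    · refine Fin.addCases (fun i => ?_) (fun j => ?_) i
      · exact Or.inl (Or.inr (Or.inr ⟨i, by rw [Fin.append_left]⟩))
      · exact Or.inr (Or.inr (Or.inr ⟨j, by rw [Fin.append_right]⟩))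
  · rintro ((⟨i, rfl⟩ | ⟨i, rfl⟩ | ⟨i, rfl⟩) | (⟨i, rfl⟩ | ⟨i, rfl⟩ | ⟨i, rfl⟩))
    · exact Or.inl ⟨Fin.castAdd b i, by rw [Fin.append_left]⟩
    · exact Or.inr (Or.inl ⟨Fin.castAdd b i, by rw [Fin.append_left]⟩)
    · exact Or.inr (Or.inr ⟨Fin.castAdd b i, by rw [Fin.append_left]⟩)
    · exact Or.inl ⟨Fin.natAdd n i, by rw [Fin.append_right]⟩
    · exact Or.inr (Or.inl ⟨Fin.natAdd n i, by rw [Fin.append_right]⟩)
    · exact Or.inr (Or.inr ⟨Fin.natAdd n i, by rw [Fin.append_right]⟩)

theorem encard_EP {d : ℕ} (x : Fin d → ℂ) : (EP L x).encard ≤ (3 * d : ℕ) := by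
  have h1 : ∀ f : Fin d → ℂ, (range f).encard ≤ d := by
    intro f
    rw [← image_univ]
    refine (encard_image_le _ _).trans ?_
    rw [encard_univ]
    simp
  refine (encard_union_le _ _).trans ?_
  refine (add_le_add (h1 _) ((encard_union_le _ _).trans (add_le_add (h1 _) (h1 _)))).trans ?_
  exact_mod_cast (by omega : d + (d + d) ≤ 3 * d)

/-- adding arbitrary points and exponents -/
theorem FailM.append {m a b : ℕ} {z : Fin n → ℂ} {t : Fin s → ℂ}
    (h : FailM L P A B c n s (m + (b + a)) z t) {x : Fin b → ℂ} {y : Fin a → ℂ}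
    (hx : ∀ i, x i ∉ L.lattice) (hP : IndP L A (Fin.append z x)) (hE : IndE B (Fin.append t y)) :
    FailM L P A B c (n + b) (s + a) m (Fin.append z x) (Fin.append t y) := by
  refine ⟨fun i => ?_, hP, hE, ?_⟩
  · refine Fin.addCases (fun i => ?_) (fun j => ?_) i
    · rw [Fin.append_left]; exact h.off i
    · rw [Fin.append_right]; exact hx j
  · have e : P ∪ (ET (Fin.append t y) ∪ EP L (Fin.append z x)) =
        (P ∪ (ET t ∪ EP L z)) ∪ (ET y ∪ EP L x) := by
      rw [ET_append, EP_append]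
      ext w
      simp only [mem_union]
      tauto
    rw [e]
    have h1 := (MK (⊥ : IntermediateField ℚ ℂ)).eRk_union_le_eRk_add_encard (P ∪ (ET t ∪ EP L z))
      (ET y ∪ EP L x)
    have h2 : (ET y ∪ EP L x).encard ≤ ((2 * a + 3 * b : ℕ) : ℕ∞) := by
      refine (encard_union_le _ _).trans ?_
      rw [Nat.cast_add]
      exact add_le_add (encard_ET y) (encard_EP x)
    have h3 := h.rk
    calc (MK (⊥ : IntermediateField ℚ ℂ)).eRk ((P ∪ (ET t ∪ EP L z)) ∪ (ET y ∪ EP L x)) + m
        ≤ ((MK (⊥ : IntermediateField ℚ ℂ)).eRk (P ∪ (ET t ∪ EP L z)) +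
            ((2 * a + 3 * b : ℕ) : ℕ∞)) + m := by
          gcongr
          exact h1.trans (add_le_add le_rfl h2)
      _ = ((MK (⊥ : IntermediateField ℚ ℂ)).eRk (P ∪ (ET t ∪ EP L z)) + (m + (b + a) : ℕ)) +
            (a + 2 * b : ℕ) := by
          have e1 : ((2 * a + 3 * b : ℕ) : ℕ∞) + m = ((m + (b + a) : ℕ) : ℕ∞) +
              ((a + 2 * b : ℕ) : ℕ∞) := by
            rw [← Nat.cast_add, ← Nat.cast_add]
            congr 1
            omega
          rw [add_assoc, e1, ← add_assoc]
      _ ≤ ((s + 2 * n + c : ℕ) : ℕ∞) + (a + 2 * b : ℕ) := by gcongr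
      _ = (((s + a) + 2 * (n + b) + c : ℕ) : ℕ∞) := by
          rw [← Nat.cast_add]
          congr 1
          omega

/-- the tuples which are independent over a field modulo the field -/
def Gen (K : Subfield ℂ) (d : ℕ) : Set (Fin d → ℂ) :=
  {x | ∀ c : Fin d → ℂ, (∀ j, c j ∈ K) → ∑ j, c j * x j ∈ K → c = 0}

theorem dimH_Gen (hK : (K : Set ℂ).Countable) (d : ℕ) : ((2 * d : ℕ) : ℝ≥0∞) ≤ dimH (Gen K d) := by
  classical
  have hKc : Countable K := hK.to_subtype
  let ι := {q : (Fin d → K) × K // q.1 ≠ 0}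
  let lin : (Fin d → K) → ((Fin d → ℂ) →ₗ[ℝ] ℂ) := fun c =>
    { toFun := fun x => ∑ j, (c j : ℂ) * x j
      map_add' := fun x y => by
        rw [← Finset.sum_add_distrib]
        exact Finset.sum_congr rfl fun j _ => by rw [Pi.add_apply]; ring
      map_smul' := fun r x => by
        rw [RingHom.id_apply, Finset.smul_sum]
        exact Finset.sum_congr rfl fun j _ => by
          rw [Pi.smul_apply, Complex.real_smul, Complex.real_smul]; ring }
  let H : ι → AffineSubspace ℝ (Fin d → ℂ) := fun q => hyp (lin q.1.1) (q.1.2 : ℂ)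
  have h1 := dimH_compl H (fun q => hyp_ne_top (fun h => q.2 (by
    funext j
    have h2 := LinearMap.congr_fun h (Pi.single j 1)
    have h3 : ∑ i, (q.1.1 i : ℂ) * (Pi.single j (1 : ℂ) : Fin d → ℂ) i = 0 := h2
    rw [Finset.sum_eq_single j] at h3
    · rw [Pi.single_eq_same, mul_one] at h3
      exact Subtype.ext h3
    · intro i _ hij
      rw [Pi.single_eq_of_ne hij, mul_zero]
    · intro h; exact absurd (Finset.mem_univ _) h)) _)
  have h2 : finrank ℝ (Fin d → ℂ) = 2 * d := by
    rw [Module.finrank_pi_fintype]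
    simp [Complex.finrank_real_complex, mul_comm]
  rw [h2] at h1
  refine h1.trans (dimH_mono ?_)
  intro x hx c hc h0
  rw [mem_compl_iff, mem_iUnion, not_exists] at hx
  by_contra hne
  refine hx ⟨(fun j => ⟨c j, hc j⟩, ⟨_, h0⟩), fun h => hne ?_⟩ rfl
  funext j
  exact congrArg Subtype.val (congrFun h j)

/-- generic points and exponents -/
theorem FailM.generic {m a b : ℕ} {z : Fin n → ℂ} {t : Fin s → ℂ}
    (h : FailM L P A B c n s (m + (b + a)) z t) (hL : L ∈ LK K) (hAK : ∀ x ∈ A, x ∈ K)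
    (hBK : ∀ x ∈ B, x ∈ K) (hz : ∀ i, z i ∈ K) (ht : ∀ i, t i ∈ K) {w : Fin (b + a) → ℂ}
    (hw : w ∈ Gen K (b + a)) :
    FailM L P A B c (n + b) (s + a) m (Fin.append z fun i => w (Fin.castAdd a i))
      (Fin.append t fun i => w (Fin.natAdd b i)) := by
  have hkK : ∀ x ∈ kL L, x ∈ K := fun x hx => kL_mem hL hx
  have hqK : ∀ q : ℚ, (q : ℂ) ∈ K := fun q => SubfieldClass.ratCast_mem K q
  refine h.append (fun i hi => ?_) ?_ ?_
  · have h1 := hw (Pi.single (Fin.castAdd a i) 1) (fun j => by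
      by_cases hj : j = Fin.castAdd a i
      · subst hj; rw [Pi.single_eq_same]; exact K.one_mem
      · rw [Pi.single_eq_of_ne hj]; exact K.zero_mem) (by
      rw [Finset.sum_eq_single (Fin.castAdd a i)]
      · rw [Pi.single_eq_same, one_mul]
        exact lat_mem hL hi
      · intro j _ hj
        rw [Pi.single_eq_of_ne hj, zero_mul]
      · intro h; exact absurd (Finset.mem_univ _) h)
    have h2 := congrFun h1 (Fin.castAdd a i)
    rw [Pi.single_eq_same] at h2
    exact one_ne_zero h2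
  · intro e he h0
    rw [Fin.sum_univ_add] at h0
    simp only [Fin.append_left, Fin.append_right] at h0
    have h1 := hw (Fin.append (fun j : Fin b => e (Fin.natAdd n j)) (fun _ : Fin a => 0))
      (fun j => by
        refine Fin.addCases (fun j => ?_) (fun j => ?_) j
        · rw [Fin.append_left]; exact hkK _ (he _)
        · rw [Fin.append_right]; exact K.zero_mem) (by
      rw [Fin.sum_univ_add]
      simp only [Fin.append_left, Fin.append_right, zero_mul, Finset.sum_const_zero, add_zero]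
      have h2 := K.sub_mem (hAK _ h0) (K.sum_mem fun i (_ : i ∈ Finset.univ) =>
        K.mul_mem (hkK _ (he (Fin.castAdd b i))) (hz i))
      rwa [add_sub_cancel_left] at h2)
    have h2 : ∀ j : Fin b, e (Fin.natAdd n j) = 0 := by
      intro j
      have := congrFun h1 (Fin.castAdd a j)
      rwa [Fin.append_left] at this
    simp only [h2, zero_mul, Finset.sum_const_zero, add_zero] at h0
    have h3 := h.indP (fun i => e (Fin.castAdd b i)) (fun i => he _) h0
    funext i
    refine Fin.addCases (fun i => ?_) (fun j => ?_) i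
    · exact congrFun h3 i
    · exact h2 j
  · intro e h0
    rw [Fin.sum_univ_add] at h0
    simp only [Fin.append_left, Fin.append_right] at h0
    have h1 := hw (Fin.append (fun _ : Fin b => 0) (fun j : Fin a => (e (Fin.natAdd s j) : ℂ)))
      (fun j => by
        refine Fin.addCases (fun j => ?_) (fun j => ?_) j
        · rw [Fin.append_left]; exact K.zero_mem
        · rw [Fin.append_right]; exact hqK _) (by
      rw [Fin.sum_univ_add]
      simp only [Fin.append_left, Fin.append_right, zero_mul, Finset.sum_const_zero, zero_add]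
      have h2 := K.sub_mem (hBK _ h0) (K.sum_mem fun i (_ : i ∈ Finset.univ) =>
        show e (Fin.castAdd a i) • t i ∈ K by
          rw [Rat.smul_def]
          exact K.mul_mem (hqK _) (ht i))
      rw [add_sub_cancel_left] at h2
      simp only [Rat.smul_def] at h2
      exact h2)
    have h2 : ∀ j : Fin a, e (Fin.natAdd s j) = 0 := by
      intro j
      have := congrFun h1 (Fin.natAdd b j)
      rw [Fin.append_right, Pi.zero_apply] at this
      exact_mod_cast this
    simp only [h2, zero_smul, Finset.sum_const_zero, add_zero] at h0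
    have h3 := h.indE (fun i => e (Fin.castAdd a i)) h0
    funext i
    refine Fin.addCases (fun i => ?_) (fun j => ?_) i
    · exact congrFun h3 i
    · exact h2 j

end Pool.Agent.H445
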