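import Pool.Agent.H445.EllD

/-!
# The dimension formula for the failures of the elliptico-toric inequality
-/

set_option autoImplicit false

open Set Module MvPolynomial
open Pool.Agent.TH813.Rel (DF MK subset_cl rk_le_of_subset_cl cl_of_base exists_derF)
open Pool.Agent.Y685
open Pool.Agent.Y776 (ET ET_finite)
open Pool.Agent.W245.EB Pool.Agent.TH813.Ell H667R3
open scoped PeriodPair NNReal ENNReal

noncomputable section

namespace Pool.Agent.H445

variable {L : PeriodPair} {n s : ℕ}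

/-- the set of the failures -/
def SM (L : PeriodPair) (P : Set ℂ) (A : Submodule (kL L) ℂ) (B : Submodule ℚ ℂ) (c n s m : ℕ) :
    Set (Fin (n + s) → ℂ) :=
  {w | FailM L P A B c n s m (fun i => w (Fin.castAdd s i)) (fun i => w (Fin.natAdd n i))}

variable {P : Set ℂ} {A : Submodule (kL L) ℂ} {B : Submodule ℚ ℂ} {c m : ℕ}

theorem mem_SM {w : Fin (n + s) → ℂ} : w ∈ SM L P A B c n s m ↔
    FailM L P A B c n s m (fun i => w (Fin.castAdd s i)) (fun i => w (Fin.natAdd n i)) := Iff.rfl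

theorem append_mem_SM {z : Fin n → ℂ} {t : Fin s → ℂ} : Fin.append z t ∈ SM L P A B c n s m ↔
    FailM L P A B c n s m z t := by
  rw [mem_SM]
  simp only [Fin.append_left, Fin.append_right]

theorem SM_nonempty : (SM L P A B c n s m).Nonempty ↔
    ∃ (z : Fin n → ℂ) (t : Fin s → ℂ), FailM L P A B c n s m z t := by
  constructor
  · rintro ⟨w, hw⟩
    exact ⟨_, _, hw⟩
  · rintro ⟨z, t, h⟩
    exact ⟨_, append_mem_SM.2 h⟩

theorem append_eta (w : Fin (n + s) → ℂ) :
    Fin.append (fun i => w (Fin.castAdd s i)) (fun i => w (Fin.natAdd n i)) = w := by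
  funext i
  refine Fin.addCases (fun i => ?_) (fun j => ?_) i
  · rw [Fin.append_left]
  · rw [Fin.append_right]

/-- the hypotheses on the base -/
structure BaseM (L : PeriodPair) (P : Set ℂ) (A : Submodule (kL L) ℂ) (B : Submodule ℚ ℂ) : Prop where
  fin : P.Finite
  g2 : L.g₂ ∈ clo ⊥ P
  g3 : L.g₃ ∈ clo ⊥ P
  finA : FiniteDimensional (kL L) A
  finB : FiniteDimensional ℚ B

theorem countable_kL (L : PeriodPair) : (kL L : Set ℂ).Countable := by
  obtain ⟨K, hK, hS⟩ := exists_Fld (S := {L.ω₁, L.ω₂}) (by simp)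
  exact hK.cnt.mono fun x hx => kL_mem ⟨hS (by simp), hS (by simp)⟩ hx

theorem BaseM.cntA (h : BaseM L P A B) : (A : Set ℂ).Countable := by
  have := h.finA
  have h1 : (kL L : Set ℂ).Countable := countable_kL L
  have h2 : Countable (kL L) := h1.to_subtype
  have h3 : Countable A := (Module.finBasis (kL L) A).equivFun.toEquiv.countable_iff.2 inferInstance
  exact Set.countable_coe_iff.1 h3

theorem BaseM.cntB (h : BaseM L P A B) : (B : Set ℂ).Countable := by
  have := h.finB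
  have h3 : Countable B := (Module.finBasis ℚ B).equivFun.toEquiv.countable_iff.2 inferInstance
  exact Set.countable_coe_iff.1 h3

/-- a closed field which contains everything -/
theorem BaseM.exists_field (h : BaseM L P A B) {S : Set ℂ} (hS : S.Countable) :
    ∃ K : Subfield ℂ, Fld K ∧ L ∈ LK K ∧ P ⊆ K ∧ S ⊆ K ∧ (∀ x ∈ A, x ∈ K) ∧ ∀ x ∈ B, x ∈ K := by
  obtain ⟨K, hK, hKS⟩ := exists_Fld (S := {L.ω₁, L.ω₂} ∪ (P ∪ (S ∪ ((A : Set ℂ) ∪ (B : Set ℂ)))))
    ((by simp : ({L.ω₁, L.ω₂} : Set ℂ).Countable).union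
      (h.fin.countable.union (hS.union (h.cntA.union h.cntB))))
  exact ⟨K, hK, ⟨hKS (Or.inl (by simp)), hKS (Or.inl (by simp))⟩,
    fun x hx => hKS (Or.inr (Or.inl hx)), fun x hx => hKS (Or.inr (Or.inr (Or.inl hx))),
    fun x hx => hKS (Or.inr (Or.inr (Or.inr (Or.inl hx)))),
    fun x hx => hKS (Or.inr (Or.inr (Or.inr (Or.inr hx))))⟩

/-- the admissible levels -/
def LevM (L : PeriodPair) (P : Set ℂ) (A : Submodule (kL L) ℂ) (B : Submodule ℚ ℂ) (c n s m : ℕ) :
    Set ℕ :=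
  {d | ∃ b a : ℕ, b ≤ n ∧ a ≤ s ∧ b + a = d ∧ (SM L P A B c (n - b) (s - a) (m + d)).Nonempty}

theorem LevM_bdd : BddAbove (LevM L P A B c n s m) := by
  refine ⟨n + s, ?_⟩
  rintro d ⟨b, a, h1, h2, rfl, -⟩
  exact add_le_add h1 h2

/-- the level of a failure -/
theorem FailM.level (hB : BaseM L P A B) {K : Subfield ℂ} (hK : Fld K) (hL : L ∈ LK K)
    (hPK : P ⊆ K) {w : Fin (n + s) → ℂ} (hw : w ∈ SM L P A B c n s m) :
    finrank ℂ (Tan PF' K (Pf' L w)) ∈ LevM L P A B c n s m ∧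
      (finrank ℂ (Tan PF' K (Pf' L w)) = 0 → ∀ j, w j ∈ K) := by
  have hfA := hB.finA
  have hfB := hB.finB
  obtain ⟨⟨n₀, s₀, z₀, t₀, h1, h2, h3, h4⟩, h5⟩ := FailM.reduce (mem_SM.1 hw) hK hL hB.fin hPK hB.g2
    hB.g3
  rw [append_eta] at h3 h4 h5
  constructor
  · refine ⟨min (finrank ℂ (Tan PF' K (Pf' L w))) (n - n₀),
      finrank ℂ (Tan PF' K (Pf' L w)) - min (finrank ℂ (Tan PF' K (Pf' L w))) (n - n₀), by omega,
      by omega, by omega, SM_nonempty.2 (FailM.extend ?_ ?_ ⟨z₀, t₀, h4⟩)⟩ <;> omega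
  · intro h0
    obtain ⟨h6, h7⟩ := h5 h0
    intro j
    refine Fin.addCases (fun i => ?_) (fun j => ?_) j
    · exact h6 i
    · exact h7 j

theorem LevM_down (hB : BaseM L P A B) {d e : ℕ} (hed : e ≤ d) (hd : d ∈ LevM L P A B c n s m) :
    e ∈ LevM L P A B c n s m := by
  have hfA := hB.finA
  have hfB := hB.finB
  obtain ⟨b, a, h1, h2, rfl, h3⟩ := hd
  obtain ⟨z, t, h4⟩ := SM_nonempty.1 h3
  refine ⟨min b e, e - min b e, by omega, by omega, by omega, SM_nonempty.2
    (FailM.extend (n₀ := n - b) (s₀ := s - a) (by omega) (by omega) ⟨z, t, h4.mono (by omega)⟩)⟩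

theorem lowerM (hB : BaseM L P A B) {d : ℕ} (hd : d ∈ LevM L P A B c n s m) :
    ((2 * d : ℕ) : ℝ≥0∞) ≤ dimH (SM L P A B c n s m) := by
  obtain ⟨b, a, h1, h2, rfl, h3⟩ := hd
  obtain ⟨n', rfl⟩ : ∃ n', n = n' + b := ⟨n - b, by omega⟩
  obtain ⟨s', rfl⟩ : ∃ s', s = s' + a := ⟨s - a, by omega⟩
  rw [Nat.add_sub_cancel, Nat.add_sub_cancel] at h3
  obtain ⟨z, t, h4⟩ := SM_nonempty.1 h3
  obtain ⟨K, hK, hL, -, hS, hAK, hBK⟩ := hB.exists_field (S := range z ∪ range t)
    ((countable_range z).union (countable_range t))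
  have h5 : ∀ w ∈ Gen K (b + a), FailM L P A B c (n' + b) (s' + a) m
      (Fin.append z fun i => w (Fin.castAdd a i)) (Fin.append t fun i => w (Fin.natAdd b i)) :=
    fun w hw => FailM.generic h4 hL hAK hBK (fun i => hS (Or.inl ⟨i, rfl⟩))
      (fun i => hS (Or.inr ⟨i, rfl⟩)) hw
  let σ : Fin (b + a) → Fin ((n' + b) + (s' + a)) := Fin.addCases
    (fun i => Fin.castAdd _ (Fin.natAdd n' i)) (fun i => Fin.natAdd _ (Fin.natAdd s' i))
  let π : (Fin ((n' + b) + (s' + a)) → ℂ) →L[ℂ] (Fin (b + a) → ℂ) :=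
    ContinuousLinearMap.pi fun j => ContinuousLinearMap.proj (σ j)
  refine (dimH_Gen hK.cnt (b + a)).trans (le_trans (dimH_mono ?_)
    (π.lipschitz.dimH_image_le (SM L P A B c (n' + b) (s' + a) m)))
  intro w hw
  refine ⟨Fin.append (Fin.append z fun i => w (Fin.castAdd a i))
    (Fin.append t fun i => w (Fin.natAdd b i)), append_mem_SM.2 (h5 w hw), ?_⟩
  funext j
  change Fin.append (Fin.append z fun i => w (Fin.castAdd a i))
    (Fin.append t fun i => w (Fin.natAdd b i)) (σ j) = w j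
  refine Fin.addCases (fun i => ?_) (fun i => ?_) j
  · simp only [σ, Fin.addCases_left, Fin.append_left, Fin.append_right]
  · simp only [σ, Fin.addCases_right, Fin.append_right]

/-- **The dimension formula** -/
theorem dimM (hB : BaseM L P A B) :
    dimH (SM L P A B c n s m) = (2 * sSup (LevM L P A B c n s m) : ℕ) := by
  apply le_antisymm
  · obtain ⟨K, hK, hL, hPK, -, -, -⟩ := hB.exists_field (S := ∅) Set.countable_empty
    refine (dimH_mono ?_).trans (dimH_Tan (P := PF' (n := n) (s := s)) (K := K) (Φ := Pf' L) hK.cnt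
      (isOpen_Uf L) (fun x hx s₀ => Pf'_der L hx s₀) (sSup (LevM L P A B c n s m))).1
    intro w hw
    exact ⟨(mem_SM.1 hw).off, le_csSup LevM_bdd (FailM.level hB hK hL hPK hw).1⟩
  · rcases Set.eq_empty_or_nonempty (LevM L P A B c n s m) with h | h
    · rw [h, csSup_empty]
      simp
    · exact lowerM hB (Nat.sSup_mem h LevM_bdd)

/-- **Countability** -/
theorem countableM (hB : BaseM L P A B) :
    (SM L P A B c n s m).Countable ↔ 1 ∉ LevM L P A B c n s m := by
  constructor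
  · intro h h1
    have h2 := lowerM hB h1
    rw [h.dimH_zero] at h2
    norm_num at h2
  · intro h
    obtain ⟨K, hK, hL, hPK, -, -, -⟩ := hB.exists_field (S := ∅) Set.countable_empty
    refine Set.Countable.mono ?_ (Set.countable_univ_pi fun _ : Fin (n + s) => hK.cnt)
    intro w hw j _
    obtain ⟨h1, h2⟩ := FailM.level hB hK hL hPK hw
    refine h2 ?_ j
    by_contra h0
    exact h (LevM_down hB (Nat.one_le_iff_ne_zero.2 h0) h1)

end Pool.Agent.H445
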