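import Pool.Agent.H445.EllE
import Pool.Graph.R_seed8.W245.EB.RedZ

/-!
# The theorem of Schneider for a point of an elliptic curve
-/

set_option autoImplicit false

open Set Module
open Pool.Agent.TH813.Rel (DF MK subset_cl rk_le_of_subset_cl cl_of_base)
open Pool.Agent.Y685
open Pool.Agent.W245.EB Pool.Agent.TH813.Ell H667R3
open scoped PeriodPair

noncomputable section

namespace Pool.Agent.H445

variable {L : PeriodPair}

theorem alg_of_cl_empty {C : IntermediateField ℚ ℂ} (hC : ∀ x ∈ C, IsAlgebraic ℚ x) {y : ℂ}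
    (hy : y ∈ (MK C).closure ∅) : IsAlgebraic ℚ y := by
  have h5 := Pool.Agent.TH813.Rel.mem_cl.1 hy
  rw [Algebra.adjoin_empty] at h5
  have h6 : Algebra.IsAlgebraic ℚ C := ⟨fun c => by
    have := hC c c.2
    exact (isAlgebraic_algebraMap_iff (A := ℂ) (algebraMap C ℂ).injective).1 this⟩
  have h7 : IsAlgebraic C y := by
    have h8 : Algebra.IsAlgebraic C (⊥ : Subalgebra C ℂ) := ⟨fun c => by
      obtain ⟨r, hr⟩ := Algebra.mem_bot.1 c.2
      have : c = algebraMap C (⊥ : Subalgebra C ℂ) r := Subtype.ext hr.symm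
      rw [this]
      exact isAlgebraic_algebraMap r⟩
    exact h5.restrictScalars C
  exact h7.restrictScalars ℚ

/-- the theorem of Schneider -/
theorem schneider {S : Set ℂ} {p : ℂ} (hp : p ∉ L.lattice) (h2 : L.g₂ ∈ S) (h3 : L.g₃ ∈ S)
    (h4 : p ∈ S) (h5 : ℘[L] p ∈ S) : 1 ≤ (MK (⊥ : IntermediateField ℚ ℂ)).eRk S := by
  rw [Order.one_le_iff_ne_zero]
  intro h0
  have h6 : S ⊆ (MK (⊥ : IntermediateField ℚ ℂ)).closure ∅ :=
    (Matroid.eRk_eq_zero_iff (M := MK (⊥ : IntermediateField ℚ ℂ)) (X := S)).1 h0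
  have h7 : ∀ y ∈ S, IsAlgebraic ℚ y := fun y hy => alg_of_cl_empty alg_bot (h6 hy)
  have hp0 : p ≠ 0 := fun h => hp (h ▸ zero_mem _)
  have h8 := second_kind (h7 _ h2) (h7 _ h3) (m := 1) (fun _ => p) (fun _ => Or.inr (h7 _ h5)) (by
    intro α _ hs
    rw [Fin.sum_univ_one] at hs
    funext i
    rw [Subsingleton.elim i 0]
    exact (mul_eq_zero.1 hs).resolve_right hp0) 0 1 isAlgebraic_zero isAlgebraic_one
    (Or.inr one_ne_zero) (fun _ => 1) (fun _ => isAlgebraic_one) (by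
    rw [Fin.sum_univ_one]
    simpa using h7 _ h4)
  exact one_ne_zero (congrFun h8 0)

end Pool.Agent.H445
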