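import Pool.Agent.H445.EllE

/-!
# All tuples which violate the inequality, dependent or not
-/

set_option autoImplicit false

open Set Module MvPolynomial
open Pool.Agent.TH813.Rel (DF MK subset_cl rk_le_of_subset_cl cl_of_base exists_derF)
open Pool.Agent.Y685
open Pool.Agent.Y776 (ET ET_finite)
open Pool.Agent.W245.EB Pool.Agent.TH813.Ell H667R3
open scoped PeriodPair NNReal ENNReal

noncomputable section

namespace Pool.Agent.H445

variable {L : PeriodPair} {n s : ℕ}

/-- the dimension of the span modulo a space -/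
def dimQ {k : Type} [Field k] [Module k ℂ] (A : Submodule k ℂ) {n : ℕ} (z : Fin n → ℂ) : ℕ :=
  finrank k (Submodule.span k (Set.range (fun i => A.mkQ (z i))))

theorem dimQ_le {k : Type} [Field k] [Module k ℂ] (A : Submodule k ℂ) {n : ℕ} (z : Fin n → ℂ) :
    dimQ A z ≤ n := by
  have := finrank_range_le_card (R := k) (fun i => A.mkQ (z i))
  rwa [Fintype.card_fin] at this

/-- a maximal independent subtuple -/
theorem exists_sub {k : Type} [Field k] [Module k ℂ] (A : Submodule k ℂ) {n : ℕ} (z : Fin n → ℂ) :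
    ∃ σ : Fin (dimQ A z) → Fin n, LinearIndependent k (fun i => A.mkQ (z (σ i))) ∧
      ∀ i, ∃ (c : Fin (dimQ A z) → k) (a : A), z i = ∑ j, c j • z (σ j) + a := by
  classical
  obtain ⟨κ, a, ha, hsp, hli⟩ := exists_linearIndependent' k (fun i => A.mkQ (z i))
  have : Finite κ := Finite.of_injective a ha
  have : Fintype κ := Fintype.ofFinite κ
  have hcard : Fintype.card κ = dimQ A z := by
    rw [dimQ, ← hsp, finrank_span_eq_card hli]
  let e : Fin (dimQ A z) ≃ κ := (Fintype.equivFinOfCardEq hcard).symm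
  refine ⟨fun i => a (e i), hli.comp e e.injective, fun i => ?_⟩
  have h1 : A.mkQ (z i) ∈ Submodule.span k (Set.range (fun i => A.mkQ (z (a (e i))))) := by
    have h2 : Set.range (fun i => A.mkQ (z (a (e i)))) =
        Set.range ((fun i => A.mkQ (z i)) ∘ a) := by
      have : (fun i => A.mkQ (z (a (e i)))) = ((fun i => A.mkQ (z i)) ∘ a) ∘ e := rfl
      rw [this, e.surjective.range_comp]
    rw [h2, hsp]
    exact Submodule.subset_span ⟨i, rfl⟩
  obtain ⟨c, hc⟩ := (Submodule.mem_span_range_iff_exists_fun k).1 h1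
  have h3 : A.mkQ (z i - ∑ j, c j • z (a (e j))) = 0 := by
    rw [map_sub, map_sum, sub_eq_zero, ← hc]
    exact Finset.sum_congr rfl fun j _ => by rw [map_smul]
  rw [Submodule.mkQ_apply, Submodule.Quotient.mk_eq_zero] at h3
  exact ⟨c, ⟨_, h3⟩, by simp⟩

theorem dimQ_of_li {k : Type} [Field k] [Module k ℂ] {A : Submodule k ℂ} {n : ℕ} {z : Fin n → ℂ}
    (h : LinearIndependent k (fun i => A.mkQ (z i))) : dimQ A z = n := by
  rw [dimQ, finrank_span_eq_card h, Fintype.card_fin]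

theorem IndP_iff {A : Submodule (kL L) ℂ} {z : Fin n → ℂ} :
    IndP L A z ↔ LinearIndependent (kL L) (fun i => A.mkQ (z i)) := by
  rw [Fintype.linearIndependent_iff]
  have key : ∀ c : Fin n → kL L, ∑ i, c i • A.mkQ (z i) = 0 ↔ ∑ i, (c i : ℂ) * z i ∈ A := by
    intro c
    have h1 : ∑ i, c i • A.mkQ (z i) = A.mkQ (∑ i, c i • z i) := by
      rw [map_sum]
      exact Finset.sum_congr rfl fun i _ => by rw [map_smul]
    rw [h1, Submodule.mkQ_apply, Submodule.Quotient.mk_eq_zero]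
    rfl
  constructor
  · intro h c hc i
    have h1 := h (fun i => (c i : ℂ)) (fun i => (c i).2) ((key c).1 hc)
    exact Subtype.ext (congrFun h1 i)
  · intro h c hc h0
    have h1 := h (fun i => ⟨c i, hc i⟩) ((key _).2 h0)
    funext i
    exact congrArg Subtype.val (h1 i)

theorem IndE_iff {B : Submodule ℚ ℂ} {t : Fin s → ℂ} :
    IndE B t ↔ LinearIndependent ℚ (fun i => B.mkQ (t i)) := by
  rw [Fintype.linearIndependent_iff]
  have key : ∀ c : Fin s → ℚ, ∑ i, c i • B.mkQ (t i) = 0 ↔ ∑ i, c i • t i ∈ B := by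
    intro c
    have h1 : ∑ i, c i • B.mkQ (t i) = B.mkQ (∑ i, c i • t i) := by
      rw [map_sum]
      exact Finset.sum_congr rfl fun i _ => by rw [map_smul]
    rw [h1, Submodule.mkQ_apply, Submodule.Quotient.mk_eq_zero]
  constructor
  · intro h c hc i
    exact congrFun (h c ((key c).1 hc)) i
  · intro h c h0
    funext i
    exact h c ((key c).2 h0) i

/-- the tuples which violate the inequality by at least `m` -/
def VM (L : PeriodPair) (P : Set ℂ) (A : Submodule (kL L) ℂ) (B : Submodule ℚ ℂ) (c n s m : ℕ) :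
    Set (Fin (n + s) → ℂ) :=
  {w | (∀ i, w (Fin.castAdd s i) ∉ L.lattice) ∧
    (MK (⊥ : IntermediateField ℚ ℂ)).eRk (P ∪ (ET (fun i => w (Fin.natAdd n i)) ∪
      EP L (fun i => w (Fin.castAdd s i)))) + m ≤
      ((dimQ B (fun i => w (Fin.natAdd n i)) + c + 2 * dimQ A (fun i => w (Fin.castAdd s i)) : ℕ) :
        ℕ∞)}

variable {P : Set ℂ} {A : Submodule (kL L) ℂ} {B : Submodule ℚ ℂ} {c m : ℕ}

theorem SM_subset_VM : SM L P A B c n s m ⊆ VM L P A B c n s m := by
  intro w hw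
  have h := mem_SM.1 hw
  refine ⟨h.off, ?_⟩
  rw [dimQ_of_li (IndP_iff.1 h.indP), dimQ_of_li (IndE_iff.1 h.indE)]
  refine h.rk.trans ?_
  exact_mod_cast (by omega : s + 2 * n + c ≤ s + c + 2 * n)

theorem EP_comp_subset {n' : ℕ} (z : Fin n → ℂ) (σ : Fin n' → Fin n) :
    EP L (fun i => z (σ i)) ⊆ EP L z := by
  rintro _ (⟨i, rfl⟩ | ⟨i, rfl⟩ | ⟨i, rfl⟩)
  · exact Or.inl ⟨σ i, rfl⟩
  · exact Or.inr (Or.inl ⟨σ i, rfl⟩)
  · exact Or.inr (Or.inr ⟨σ i, rfl⟩)

theorem ET_comp_subset {n' : ℕ} (z : Fin n → ℂ) (σ : Fin n' → Fin n) :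
    ET (fun i => z (σ i)) ⊆ ET z := by
  rintro _ (⟨i, rfl⟩ | ⟨i, rfl⟩)
  · exact Or.inl ⟨σ i, rfl⟩
  · exact Or.inr ⟨σ i, rfl⟩

/-- the indices of the affine maps -/
structure AffI (L : PeriodPair) (A : Submodule (kL L) ℂ) (B : Submodule ℚ ℂ) (n s : ℕ) where
  n₁ : ℕ
  s₁ : ℕ
  hn : n₁ ≤ n
  hs : s₁ ≤ s
  M : Fin n → Fin n₁ → kL L
  a : Fin n → A
  N : Fin s → Fin s₁ → ℚ
  b : Fin s → B

/-- the affine maps -/
def AffI.map (q : AffI L A B n s) (w : Fin (q.n₁ + q.s₁) → ℂ) : Fin (n + s) → ℂ :=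
  Fin.append (fun i => ∑ j, (q.M i j : ℂ) * w (Fin.castAdd q.s₁ j) + q.a i)
    (fun i => ∑ j, (q.N i j : ℂ) * w (Fin.natAdd q.n₁ j) + q.b i)

theorem AffI.lipschitz (q : AffI L A B n s) : ∃ K : ℝ≥0, LipschitzWith K q.map := by
  let lin : (Fin (q.n₁ + q.s₁) → ℂ) →ₗ[ℂ] (Fin (n + s) → ℂ) :=
    { toFun := fun w => Fin.append (fun i => ∑ j, (q.M i j : ℂ) * w (Fin.castAdd q.s₁ j))
        (fun i => ∑ j, (q.N i j : ℂ) * w (Fin.natAdd q.n₁ j))
      map_add' := fun x y => by
        funext i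
        refine Fin.addCases (fun i => ?_) (fun i => ?_) i
        · simp only [Fin.append_left, Pi.add_apply, mul_add, Finset.sum_add_distrib]
        · simp only [Fin.append_right, Pi.add_apply, mul_add, Finset.sum_add_distrib]
      map_smul' := fun r x => by
        funext i
        refine Fin.addCases (fun i => ?_) (fun i => ?_) i
        · simp only [Fin.append_left, Pi.smul_apply, smul_eq_mul, RingHom.id_apply, Finset.mul_sum]
          exact Finset.sum_congr rfl fun j _ => by ring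
        · simp only [Fin.append_right, Pi.smul_apply, smul_eq_mul, RingHom.id_apply, Finset.mul_sum]
          exact Finset.sum_congr rfl fun j _ => by ring }
  let lin' : (Fin (q.n₁ + q.s₁) → ℂ) →L[ℂ] (Fin (n + s) → ℂ) := LinearMap.toContinuousLinearMap lin
  let v : Fin (n + s) → ℂ := Fin.append (fun i => (q.a i : ℂ)) (fun i => (q.b i : ℂ))
  have h1 : q.map = fun w => lin' w + v := by
    funext w i
    refine Fin.addCases (fun i => ?_) (fun i => ?_) i
    · simp only [AffI.map, lin', lin, v, LinearMap.coe_toContinuousLinearMap', LinearMap.coe_mk,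
        AddHom.coe_mk, Pi.add_apply, Fin.append_left]
    · simp only [AffI.map, lin', lin, v, LinearMap.coe_toContinuousLinearMap', LinearMap.coe_mk,
        AddHom.coe_mk, Pi.add_apply, Fin.append_right]
  rw [h1]
  exact ⟨_, lin'.lipschitz.add (LipschitzWith.const v)⟩

theorem countable_AffI (hB : BaseM L P A B) : Countable (AffI L A B n s) := by
  have h1 : Countable (kL L) := (countable_kL L).to_subtype
  have h2 : Countable A := hB.cntA.to_subtype
  have h3 : Countable B := hB.cntB.to_subtype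
  let f : AffI L A B n s → (Σ n₁ : ℕ, Σ s₁ : ℕ, ((Fin n → Fin n₁ → kL L) × (Fin n → A)) ×
      ((Fin s → Fin s₁ → ℚ) × (Fin s → B))) :=
    fun q => ⟨q.n₁, q.s₁, ((q.M, q.a), (q.N, q.b))⟩
  have hf : Function.Injective f := by
    rintro ⟨n₁, s₁, hn, hs, M, a, N, b⟩ ⟨n₁', s₁', hn', hs', M', a', N', b'⟩ h
    simp only [f, Sigma.mk.injEq] at h
    obtain ⟨rfl, h⟩ := h
    rw [heq_eq_eq, Sigma.mk.injEq] at h
    obtain ⟨rfl, h⟩ := h
    rw [heq_eq_eq] at h
    simp only [Prod.mk.injEq] at h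
    obtain ⟨⟨rfl, rfl⟩, rfl, rfl⟩ := h
    rfl
  exact hf.countable

/-- reduction to independent tuples -/
theorem VM_sub {w : Fin (n + s) → ℂ} (hw : w ∈ VM L P A B c n s m) :
    ∃ (q : AffI L A B n s) (u : Fin (q.n₁ + q.s₁) → ℂ), u ∈ SM L P A B c q.n₁ q.s₁ m ∧
      q.map u = w := by
  obtain ⟨h1, h2⟩ := hw
  set z : Fin n → ℂ := fun i => w (Fin.castAdd s i) with hz
  set t : Fin s → ℂ := fun i => w (Fin.natAdd n i) with ht
  obtain ⟨σ, hσ, hσ'⟩ := exists_sub A z
  obtain ⟨τ, hτ, hτ'⟩ := exists_sub B t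
  choose M a hM using hσ'
  choose N b hN using hτ'
  refine ⟨⟨dimQ A z, dimQ B t, dimQ_le A z, dimQ_le B t, M, a, N, b⟩,
    Fin.append (fun i => z (σ i)) (fun i => t (τ i)), append_mem_SM.2 ⟨fun i => h1 (σ i),
      IndP_iff.2 hσ, IndE_iff.2 hτ, ?_⟩, ?_⟩
  · refine le_trans (add_le_add ((MK _).eRk_mono (union_subset_union_right _
      (union_subset_union (ET_comp_subset t τ) (EP_comp_subset z σ)))) le_rfl) (h2.trans ?_)
    exact_mod_cast (by omega : dimQ B t + c + 2 * dimQ A z ≤ dimQ B t + 2 * dimQ A z + c)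
  · funext i
    refine Fin.addCases (fun i => ?_) (fun i => ?_) i
    · simp only [AffI.map, Fin.append_left]
      exact (hM i).symm
    · simp only [AffI.map, Fin.append_right]
      rw [show w (Fin.natAdd n i) = t i from rfl, hN i]
      congr 1

theorem VM_nonempty (hB : BaseM L P A B) : (VM L P A B c n s m).Nonempty ↔
    (SM L P A B c n s m).Nonempty := by
  have hfA := hB.finA
  have hfB := hB.finB
  constructor
  · rintro ⟨w, hw⟩
    obtain ⟨q, u, hu, -⟩ := VM_sub hw
    exact SM_nonempty.2 (FailM.extend q.hn q.hs ⟨_, _, mem_SM.1 hu⟩)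
  · rintro ⟨w, hw⟩
    exact ⟨w, SM_subset_VM hw⟩

theorem LevM_mono (hB : BaseM L P A B) {n₁ s₁ : ℕ} (hn : n₁ ≤ n) (hs : s₁ ≤ s) :
    LevM L P A B c n₁ s₁ m ⊆ LevM L P A B c n s m := by
  have hfA := hB.finA
  have hfB := hB.finB
  rintro d ⟨b, a, h1, h2, h3, h4⟩
  obtain ⟨z, t, h5⟩ := SM_nonempty.1 h4
  exact ⟨b, a, by omega, by omega, h3, SM_nonempty.2 (FailM.extend (n₀ := n₁ - b) (s₀ := s₁ - a)
    (by omega) (by omega) ⟨z, t, h5⟩)⟩

/-- the levels in terms of all tuples -/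
theorem mem_LevM (hB : BaseM L P A B) {d : ℕ} : d ∈ LevM L P A B c n s m ↔
    ∃ b a : ℕ, b ≤ n ∧ a ≤ s ∧ b + a = d ∧ (VM L P A B c (n - b) (s - a) (m + d)).Nonempty := by
  simp only [VM_nonempty hB]
  rfl

/-- **The dimension formula for all tuples** -/
theorem dimV (hB : BaseM L P A B) :
    dimH (VM L P A B c n s m) = (2 * sSup (LevM L P A B c n s m) : ℕ) := by
  apply le_antisymm
  · have := countable_AffI (n := n) (s := s) hB
    have h1 : VM L P A B c n s m ⊆ ⋃ q : AffI L A B n s, q.map '' SM L P A B c q.n₁ q.s₁ m := by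
      intro w hw
      obtain ⟨q, u, hu, rfl⟩ := VM_sub hw
      exact mem_iUnion.2 ⟨q, u, hu, rfl⟩
    refine (dimH_mono h1).trans ?_
    rw [dimH_iUnion]
    refine iSup_le fun q => ?_
    obtain ⟨K, hK⟩ := q.lipschitz
    refine (hK.dimH_image_le _).trans ?_
    rw [dimM hB]
    have h2 : sSup (LevM L P A B c q.n₁ q.s₁ m) ≤ sSup (LevM L P A B c n s m) := by
      rcases Set.eq_empty_or_nonempty (LevM L P A B c q.n₁ q.s₁ m) with h | h
      · rw [h, csSup_empty]
        exact Nat.zero_le _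
      · exact csSup_le_csSup LevM_bdd h (LevM_mono hB q.hn q.hs)
    exact_mod_cast Nat.mul_le_mul_left 2 h2
  · rw [← dimM hB]
    exact dimH_mono SM_subset_VM

theorem countableV (hB : BaseM L P A B) :
    (VM L P A B c n s m).Countable ↔ 1 ∉ LevM L P A B c n s m := by
  rw [← countableM hB]
  constructor
  · intro h
    exact h.mono SM_subset_VM
  · intro h
    have := countable_AffI (n := n) (s := s) hB
    have h1 : VM L P A B c n s m ⊆ ⋃ q : AffI L A B n s, q.map '' SM L P A B c q.n₁ q.s₁ m := by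
      intro w hw
      obtain ⟨q, u, hu, rfl⟩ := VM_sub hw
      exact mem_iUnion.2 ⟨q, u, hu, rfl⟩
    refine (Set.countable_iUnion fun q => ?_).mono h1
    refine Set.Countable.image ?_ _
    rw [countableM hB]
    exact fun h2 => (countableM hB).1 h (LevM_mono hB q.hn q.hs h2)

end Pool.Agent.H445
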