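import Pool.Agent.H445.DimB
import Pool.Graph.R_seed8.Y685.G6

/-!
# A rank inequality for a space of compatible derivations (exponentials)
-/

set_option autoImplicit false

open Set Module
open Pool.Agent.TH813.Rel (DF MK subset_cl rk_le_of_subset_cl cl_of_base)
open Pool.Agent.Y685
open Pool.Agent.Y776 (Tf lg lgL Tf_lin lg_lin ET ET_finite TfL TfL_apply)
open Pool.Agent.W245.EB Pool.Agent.TH813.Ell H667R3

noncomputable section

namespace Pool.Agent.H445

/-- the numbers of a space and their exponentials -/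
def EV (V : Submodule ℚ ℂ) : Set ℂ := (V : Set ℂ) ∪ Complex.exp '' V

theorem EV_mono {V W : Submodule ℚ ℂ} (h : V ≤ W) : EV V ⊆ EV W :=
  union_subset_union h (image_mono h)

theorem ET_subset_EV {m : ℕ} {t : Fin m → ℂ} {V : Submodule ℚ ℂ} (h : ∀ i, t i ∈ V) :
    ET t ⊆ EV V := by
  rintro _ (⟨i, rfl⟩ | ⟨i, rfl⟩)
  · exact Or.inl (h i)
  · exact Or.inr ⟨_, h i, rfl⟩

theorem mem_span_range {m : ℕ} {t : Fin m → ℂ} {x : ℂ}
    (hx : x ∈ Submodule.span ℚ (range t)) : ∃ q : Fin m → ℚ, x = ∑ i, q i • t i := by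
  obtain ⟨q, hq⟩ := (Submodule.mem_span_range_iff_exists_fun ℚ).1 hx
  exact ⟨q, hq.symm⟩

theorem EV_subset_cl (C : IntermediateField ℚ ℂ) {m : ℕ} (t : Fin m → ℂ) :
    EV (Submodule.span ℚ (range t)) ⊆ (MK C).closure (ET t) := by
  have key : ∀ x ∈ Submodule.span ℚ (range t), ∀ D : Derivation ℚ ℂ ℂ, (∀ s ∈ ET t, D s = 0) →
      D x = 0 ∧ D (Complex.exp x) = 0 := by
    intro x hx D hD
    obtain ⟨q, rfl⟩ := mem_span_range hx
    constructor
    · rw [map_sum]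
      refine Finset.sum_eq_zero fun i _ => ?_
      rw [Derivation.map_smul, hD _ (Or.inl ⟨i, rfl⟩), smul_zero]
    · have h1 : lg D (∑ i, q i • t i) = 0 := by
        rw [lg_lin]
        refine Finset.sum_eq_zero fun i _ => ?_
        unfold lg
        rw [hD _ (Or.inr ⟨i, rfl⟩), zero_div, mul_zero]
      unfold lg at h1
      exact (div_eq_zero_iff.1 h1).resolve_right (Complex.exp_ne_zero _)
  rintro _ (hx | ⟨x, hx, rfl⟩)
  · rw [← mem_clo_iff]
    exact fun D _ hD => (key _ hx D hD).1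
  · rw [← mem_clo_iff]
    exact fun D _ hD => (key _ hx D hD).2

theorem eRk_EV (C : IntermediateField ℚ ℂ) {m : ℕ} (t : Fin m → ℂ) :
    (MK C).eRk (EV (Submodule.span ℚ (range t))) = (MK C).eRk (ET t) :=
  le_antisymm (rk_le_of_subset_cl (EV_subset_cl C t))
    ((MK C).eRk_mono (ET_subset_EV fun i => Submodule.subset_span ⟨i, rfl⟩))

/-- a basis of a space as a tuple of numbers -/
theorem exists_tuple (V : Submodule ℚ ℂ) [FiniteDimensional ℚ V] :
    ∃ t : Fin (finrank ℚ V) → ℂ, LinearIndependent ℚ t ∧ Submodule.span ℚ (range t) = V := by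
  let b := Module.finBasis ℚ V
  refine ⟨fun i => b i, b.linearIndependent.map' V.subtype V.ker_subtype, ?_⟩
  have h1 : (range fun i => ((b i : V) : ℂ)) = V.subtype '' range b := by
    rw [← range_comp]
    rfl
  rw [h1, Submodule.span_image, b.span_eq, Submodule.map_subtype_top]

/-- the restriction of derivations to a space -/
def eV (V : Submodule ℚ ℂ) : Derivation ℚ ℂ ℂ →ₗ[ℂ] (V →ₗ[ℚ] ℂ) where
  toFun := fun D => D.toLinearMap ∘ₗ V.subtype
  map_add' := fun _ _ => rfl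
  map_smul' := fun _ _ => rfl

theorem eV_apply (V : Submodule ℚ ℂ) (D : Derivation ℚ ℂ ℂ) (x : V) : eV V D x = D x := rfl

instance (V : Submodule ℚ ℂ) [FiniteDimensional ℚ V] : FiniteDimensional ℂ (V →ₗ[ℚ] ℂ) :=
  inferInstance

variable {L : PeriodPair} {κ : ℂ} {K : IntermediateField ℚ ℂ}

/-- **Many compatible derivations give a large rank.** -/
theorem chain (hE : Eig L κ) (h2 : L.g₂ ∈ K) (h3 : L.g₃ ∈ K)
    {Δ : Submodule ℂ (Derivation ℚ ℂ ℂ)} (hΔ : Δ ≤ DF K) (m : ℕ) :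
    ∀ (V : Submodule ℚ ℂ) (_ : FiniteDimensional ℚ V), finrank ℚ V = m →
      (∀ D ∈ Δ, ∀ x ∈ V, Tf D x = 0) → (∀ x ∈ V, x ≠ 0 → ∃ D ∈ Δ, D x ≠ 0) →
      ((finrank ℚ V + finrank ℂ (Δ.map (eV V)) : ℕ) : ℕ∞) ≤ (MK K).eRk (EV V) := by
  induction m using Nat.strong_induction_on with
  | _ m ih =>
  intro V hV hm hT hD
  by_cases hne : ∃ D ∈ Δ, ∃ x ∈ V, D x ≠ 0
  swap
  · -- the space is zero
    push Not at hne
    have hV0 : V = ⊥ := by
      rw [Submodule.eq_bot_iff]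
      intro x hx
      by_contra hx0
      obtain ⟨D, hD1, hD2⟩ := hD x hx hx0
      exact hD2 (hne D hD1 x hx)
    have h1 : Δ.map (eV V) = ⊥ := by
      rw [Submodule.eq_bot_iff]
      rintro _ ⟨D, hD1, rfl⟩
      ext x
      exact hne D hD1 x x.2
    rw [h1, finrank_bot]
    subst hV0
    rw [finrank_bot]
    simp
  -- a derivation with the largest kernel
  let S : Set ℕ := {k | ∃ D ∈ Δ, (∃ x ∈ V, D x ≠ 0) ∧
    finrank ℚ (V ⊓ LinearMap.ker D.toLinearMap : Submodule ℚ ℂ) = k}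
  have hS1 : S.Nonempty := by
    obtain ⟨D, h4, h5⟩ := hne
    exact ⟨_, D, h4, h5, rfl⟩
  have hS2 : BddAbove S := by
    refine ⟨m, ?_⟩
    rintro _ ⟨D, -, -, rfl⟩
    rw [← hm]
    exact Submodule.finrank_mono inf_le_left
  obtain ⟨D, hDΔ, ⟨x₀, hx₀V, hx₀⟩, hDk⟩ := Nat.sSup_mem hS1 hS2
  have hmax : ∀ D' ∈ Δ, (∃ x ∈ V, D' x ≠ 0) →
      finrank ℚ (V ⊓ LinearMap.ker D'.toLinearMap : Submodule ℚ ℂ) ≤
      finrank ℚ (V ⊓ LinearMap.ker D.toLinearMap : Submodule ℚ ℂ) := by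
    intro D' h4 h5
    rw [hDk]
    exact le_csSup hS2 ⟨D', h4, h5, rfl⟩
  set V₁ : Submodule ℚ ℂ := V ⊓ LinearMap.ker D.toLinearMap with hV₁
  have hV₁V : V₁ ≤ V := inf_le_left
  have hV₁D : ∀ x ∈ V₁, D x = 0 := fun x hx => hx.2
  have hV₁f : FiniteDimensional ℚ V₁ := Submodule.finiteDimensional_of_le hV₁V
  have hx₀1 : x₀ ∉ V₁ := fun h => hx₀ (hV₁D _ h)
  have hlt : V₁ < V := lt_of_le_of_ne hV₁V (fun h => hx₀1 (h ▸ hx₀V))
  have hm₁ : finrank ℚ V₁ < m := by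
    rw [← hm]
    exact Submodule.finrank_lt_finrank_of_lt hlt
  -- the induction hypothesis
  have hI := ih _ hm₁ V₁ hV₁f rfl (fun D hD x hx => hT D hD x (hV₁V hx))
    (fun x hx => hD x (hV₁V hx))
  -- the dimension of the restrictions
  have hdim : finrank ℂ (Δ.map (eV V)) ≤ finrank ℂ (Δ.map (eV V₁)) + 1 := by
    let r : (V →ₗ[ℚ] ℂ) →ₗ[ℂ] (V₁ →ₗ[ℚ] ℂ) :=
      { toFun := fun f => f ∘ₗ Submodule.inclusion hV₁V
        map_add' := fun _ _ => rfl
        map_smul' := fun _ _ => rfl }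
    let R := r.domRestrict (Δ.map (eV V))
    have h4 := LinearMap.finrank_range_add_finrank_ker R
    have h5 : LinearMap.range R = Δ.map (eV V₁) := by
      ext f
      constructor
      · rintro ⟨⟨_, D', hD', rfl⟩, rfl⟩
        exact ⟨D', hD', rfl⟩
      · rintro ⟨D', hD', rfl⟩
        exact ⟨⟨_, D', hD', rfl⟩, rfl⟩
    have h6 : finrank ℂ (LinearMap.ker R) ≤ 1 := by
      let ev : LinearMap.ker R →ₗ[ℂ] ℂ :=
        { toFun := fun f => (f.1.1 : V →ₗ[ℚ] ℂ) ⟨x₀, hx₀V⟩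
          map_add' := fun _ _ => rfl
          map_smul' := fun _ _ => rfl }
      have hinj : Function.Injective ev := by
        rw [injective_iff_map_eq_zero]
        rintro ⟨⟨_, D', hD', rfl⟩, hker⟩ h0
        have h7 : D' x₀ = 0 := h0
        have h8 : ∀ x ∈ V₁, D' x = 0 := fun x hx => LinearMap.congr_fun hker ⟨x, hx⟩
        by_contra hne'
        have h9 : ∃ x ∈ V, D' x ≠ 0 := by
          by_contra hcon
          push Not at hcon
          apply hne'
          apply Subtype.ext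
          apply Subtype.ext
          ext x
          exact hcon x x.2
        have h10 := hmax D' hD' h9
        have h11 : V₁ < V ⊓ LinearMap.ker D'.toLinearMap := by
          refine lt_of_le_of_ne (le_inf hV₁V fun x hx => h8 x hx) ?_
          intro h
          apply hx₀1
          rw [h]
          exact ⟨hx₀V, h7⟩
        have hf : FiniteDimensional ℚ (V ⊓ LinearMap.ker D'.toLinearMap : Submodule ℚ ℂ) :=
          Submodule.finiteDimensional_of_le inf_le_left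
        exact absurd (Submodule.finrank_lt_finrank_of_lt h11) (not_lt.2 h10)
      have := LinearMap.finrank_le_finrank_of_injective hinj
      rwa [finrank_self] at this
    rw [h5] at h4
    have h7 : finrank ℂ (Δ.map (eV V)) = finrank ℂ (Δ.map (eV V₁)) +
        finrank ℂ (LinearMap.ker R) := h4.symm
    omega
  -- a complement
  obtain ⟨W, hW⟩ := Submodule.exists_isCompl (V₁.comap V.subtype)
  let V₂ : Submodule ℚ ℂ := W.map V.subtype
  have hV₂V : V₂ ≤ V := Submodule.map_subtype_le V W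
  have hV₂f : FiniteDimensional ℚ V₂ := Submodule.finiteDimensional_of_le hV₂V
  have hdj : ∀ x ∈ V₂, x ∈ V₁ → x = 0 := by
    rintro _ ⟨x, hx, rfl⟩ hx1
    have h4 : x ∈ (V₁.comap V.subtype) ⊓ W := ⟨hx1, hx⟩
    rw [hW.inf_eq_bot, Submodule.mem_bot] at h4
    rw [h4]
    rfl
  have hcard : finrank ℚ V₁ + finrank ℚ V₂ = finrank ℚ V := by
    have h4 := Submodule.finrank_add_eq_of_isCompl hW
    have h5 : finrank ℚ (V₁.comap V.subtype) = finrank ℚ V₁ :=
      (Submodule.comapSubtypeEquivOfLe hV₁V).finrank_eq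
    have h6 : finrank ℚ V₂ = finrank ℚ W :=
      (Submodule.equivMapOfInjective V.subtype V.injective_subtype W).finrank_eq.symm
    rw [h6, ← h5]
    exact h4
  obtain ⟨t₁, ht₁, hs₁⟩ := exists_tuple V₁
  obtain ⟨t₂, ht₂, hs₂⟩ := exists_tuple V₂
  have ht₁V : ∀ i, t₁ i ∈ V₁ := fun i => hs₁ ▸ Submodule.subset_span ⟨i, rfl⟩
  have ht₂V : ∀ i, t₂ i ∈ V₂ := fun i => hs₂ ▸ Submodule.subset_span ⟨i, rfl⟩
  have hpos : 0 < finrank ℚ V₂ := by
    have := Submodule.finrank_lt_finrank_of_lt hlt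
    omega
  have h4 := ax_fixed (n := 0) (z := ![]) (t := t₂) hE (hΔ hDΔ _ h2) (hΔ hDΔ _ h3)
    (fun i => i.elim0) (fun l => hT D hDΔ _ (hV₂V (ht₂V l)))
    (fun c _ _ => Subsingleton.elim _ _) (fun q hq => by
      have h5 : ∑ l, q l • t₂ l ∈ V₂ := sum_mem fun l _ => Submodule.smul_mem _ _ (ht₂V l)
      have h6 := hdj _ h5 ⟨hV₂V h5, hq⟩
      exact funext fun i => Fintype.linearIndependent_iff.1 ht₂ q h6 i) (by omega)
  have hEP : EP L (![] : Fin 0 → ℂ) = ∅ := by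
    apply Set.eq_empty_of_forall_notMem
    rintro x (⟨i, -⟩ | ⟨i, -⟩ | ⟨i, -⟩) <;> exact i.elim0
  rw [hEP, union_empty] at h4
  have h5 : clo K (ET t₁) ≤ Cst D := by
    intro x hx
    refine hx D (hΔ hDΔ) ?_
    rintro _ (⟨i, rfl⟩ | ⟨i, rfl⟩)
    · exact hV₁D _ (ht₁V i)
    · have h6 := hT D hDΔ _ (hV₁V (ht₁V i))
      rw [Pool.Agent.Y776.D_exp h6, hV₁D _ (ht₁V i), mul_zero]
  have h6 := rank_mono_base h5 (ET_finite t₂)
  have h7 := rank_add (C := K) (ET_finite t₁) (ET_finite t₂)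
  have h8 : (MK K).eRk (ET t₁ ∪ ET t₂) ≤ (MK K).eRk (EV V) := by
    apply (MK K).eRk_mono
    exact union_subset (ET_subset_EV fun i => hV₁V (ht₁V i)) (ET_subset_EV fun i => hV₂V (ht₂V i))
  have h9 := eRk_EV K t₁
  rw [hs₁] at h9
  rw [h9] at hI
  calc ((finrank ℚ V + finrank ℂ (Δ.map (eV V)) : ℕ) : ℕ∞)
      ≤ ((finrank ℚ V₁ + finrank ℂ (Δ.map (eV V₁)) : ℕ) : ℕ∞) +
        ((finrank ℚ V₂ + 2 * 0 + 1 : ℕ) : ℕ∞) := by
        rw [← Nat.cast_add]
        exact_mod_cast (by omega : finrank ℚ V + finrank ℂ (Δ.map (eV V)) ≤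
          (finrank ℚ V₁ + finrank ℂ (Δ.map (eV V₁))) + (finrank ℚ V₂ + 2 * 0 + 1))
    _ ≤ (MK K).eRk (ET t₁) + (MK (clo K (ET t₁))).eRk (ET t₂) :=
        add_le_add hI (h4.trans h6)
    _ = (MK K).eRk (ET t₁ ∪ ET t₂) := h7.symm
    _ ≤ (MK K).eRk (EV V) := h8

end Pool.Agent.H445
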