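import Pool.Agent.H445.ExpA
import Pool.Graph.R_seed8.H340R2.LW

/-!
# Countable fields which are closed for the exponential function
-/

set_option autoImplicit false

open Set Module MvPolynomial
open Pool.Agent.TH813.Rel (DF MK subset_cl rk_le_of_subset_cl cl_of_base exists_derF)
open Pool.Agent.Y685
open Pool.Agent.Y776 (Tf lg lgL Tf_lin lg_lin ET ET_finite TfL TfL_apply Good good_der good_union
  countable_bad exists_chain grC Grad)
open Pool.Agent.W245.EB Pool.Agent.TH813.Ell H667R3 Pool.Agent.Y119.CB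

noncomputable section

namespace Pool.Agent.H445

variable {n : ℕ}

/-- the derivatives of the coordinates and of their exponentials -/
def PE (j : Fin n) : Fin n ⊕ Fin n → MvPolynomial (Fin n ⊕ Fin n) ℚ
  | .inl i => if j = i then 1 else 0
  | .inr i => if j = i then X (.inr i) else 0

/-- the coordinates and their exponentials -/
def PhE (x : Fin n → ℂ) : Fin n ⊕ Fin n → ℂ
  | .inl i => x i
  | .inr i => Complex.exp (x i)

theorem sum_PE (x v : Fin n → ℂ) (i : Fin n) :
    ∑ j, v j * aeval (PhE x) (PE j (.inl i)) = v i ∧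
    ∑ j, v j * aeval (PhE x) (PE j (.inr i)) = v i * Complex.exp (x i) := by
  constructor
  · rw [Finset.sum_eq_single i]
    · simp [PE]
    · intro j _ hj
      simp [PE, hj]
    · simp
  · rw [Finset.sum_eq_single i]
    · simp [PE, PhE]
    · intro j _ hj
      simp [PE, hj]
    · simp

theorem PhE_der (x : Fin n → ℂ) (s : Fin n ⊕ Fin n) :
    HasFDerivAt (fun y => PhE y s) (∑ j, (aeval (PhE x) (PE j s)) •
      (ContinuousLinearMap.proj j : (Fin n → ℂ) →L[ℂ] ℂ)) x := by
  rcases s with i | i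
  · have h1 : (∑ j, (aeval (PhE x) (PE j (.inl i))) •
        (ContinuousLinearMap.proj j : (Fin n → ℂ) →L[ℂ] ℂ)) =
        (1 : ℂ) • (ContinuousLinearMap.proj i : (Fin n → ℂ) →L[ℂ] ℂ) := by
      rw [Finset.sum_eq_single i]
      · simp [PE]
      · intro j _ hj
        have h0 : aeval (PhE x) (PE j (.inl i)) = 0 := by simp [PE, hj]
        rw [h0]
        ext v
        simp
      · simp
    rw [h1]
    exact hasFDerivAt_coord i (hasDerivAt_id _)
  · have h1 : (∑ j, (aeval (PhE x) (PE j (.inr i))) •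
        (ContinuousLinearMap.proj j : (Fin n → ℂ) →L[ℂ] ℂ)) =
        (Complex.exp (x i)) • (ContinuousLinearMap.proj i : (Fin n → ℂ) →L[ℂ] ℂ) := by
      rw [Finset.sum_eq_single i]
      · simp [PE, PhE]
      · intro j _ hj
        have h0 : aeval (PhE x) (PE j (.inr i)) = 0 := by simp [PE, hj]
        rw [h0]
        ext v
        simp
      · simp
    rw [h1]
    exact hasFDerivAt_coord i (Complex.hasDerivAt_exp _)

/-- closed fields -/
structure ClE (K : Subfield ℂ) : Prop where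
  cnt : (K : Set ℂ).Countable
  alg : ∀ x, IsAlgebraic K x → x ∈ K
  exp : ∀ x ∈ K, Complex.exp x ∈ K
  good : ∀ (n : ℕ) (a : Fin n → ℂ) (j : Fin n), a j ∉ K → Good PE K (PhE a) j

theorem exists_ClE {S : Set ℂ} (hS : S.Countable) : ∃ K : Subfield ℂ, ClE K ∧ S ⊆ K := by
  let B : Subfield ℂ → Set ℂ := fun k => ⋃ (n : ℕ), ⋃ (j : Fin n),
    {c : ℂ | ∃ a ∈ (univ : Set (Fin n → ℂ)), a j = c ∧ ¬ Good PE k (PhE a) j}
  have hB : ∀ k : Subfield ℂ, (k : Set ℂ).Countable → (B k).Countable := by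
    intro k hk
    refine Set.countable_iUnion fun n => Set.countable_iUnion fun j => ?_
    exact countable_bad PE hk isOpen_univ (fun x _ s => PhE_der x s) (s₀ := .inl j)
      (fun x => rfl)
  obtain ⟨K, F, hmono, hF, hFc, hSF, hTF, halg⟩ := exists_chain
    (fun k => (Complex.exp '' (k : Set ℂ)) ∪ B k)
    (fun k hk => (hk.image _).union (hB k hk)) hS
  refine ⟨F, ⟨hFc, halg, ?_, ?_⟩, hSF⟩
  · intro x hx
    obtain ⟨i, hi⟩ := (hF x).1 hx
    exact hTF i (Or.inl ⟨x, hi, rfl⟩)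
  · intro n a j haj
    refine good_union hmono (fun x hx => (hF x).1 hx) (fun i => ?_)
    by_contra hcon
    apply haj
    exact hTF i (Or.inr (mem_iUnion.2 ⟨n, mem_iUnion.2 ⟨j, a, mem_univ _, rfl, hcon⟩⟩))

/-- the derivations over a field which are compatible with some numbers -/
def DE (K : Subfield ℂ) (z : Fin n → ℂ) : Submodule ℂ (Derivation ℚ ℂ ℂ) where
  carrier := {D | D ∈ DF (IFd K) ∧ ∀ j, Tf D (z j) = 0}
  add_mem' := by
    rintro D D' ⟨h1, h2⟩ ⟨h3, h4⟩
    exact ⟨add_mem h1 h3, fun j => by rw [Pool.Agent.Y776.Tf_add_der, h2, h4, add_zero]⟩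
  zero_mem' := ⟨zero_mem _, fun j => by simp [Tf, lg]⟩
  smul_mem' := by
    rintro c D ⟨h1, h2⟩
    exact ⟨Submodule.smul_mem _ c h1,
      fun j => by rw [Pool.Agent.Y776.Tf_smul_der, h2, mul_zero]⟩

theorem mem_DE {K : Subfield ℂ} {z : Fin n → ℂ} {D : Derivation ℚ ℂ ℂ} :
    D ∈ DE K z ↔ D ∈ DF (IFd K) ∧ ∀ j, Tf D (z j) = 0 := Iff.rfl

theorem Tf_eq {D : Derivation ℚ ℂ ℂ} {x v : ℂ} (h1 : D x = v)
    (h2 : D (Complex.exp x) = v * Complex.exp x) : Tf D x = 0 := by
  unfold Tf lg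
  rw [h1, h2, mul_div_assoc, div_self (Complex.exp_ne_zero _)]
  ring

theorem good_DE {K : Subfield ℂ} {z : Fin n → ℂ} {j : Fin n} (h : Good PE K (PhE z) j) :
    ∃ D ∈ DE K z, D (z j) = 1 := by
  obtain ⟨D, v, hk, hv, hD⟩ := good_der h
  have k1 : ∀ i, D (z i) = v i := fun i => (hD (.inl i)).trans (sum_PE z v i).1
  have k2 : ∀ i, D (Complex.exp (z i)) = v i * Complex.exp (z i) :=
    fun i => (hD (.inr i)).trans (sum_PE z v i).2
  exact ⟨D, ⟨hk, fun i => Tf_eq (k1 i) (k2 i)⟩, by rw [k1, hv]⟩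

/-- every compatible direction comes from a derivation -/
theorem Tan_DE {K : Subfield ℂ} {z v : Fin n → ℂ} (hv : v ∈ Tan PE K (PhE z)) :
    ∃ D ∈ DE K z, ∀ j, D (z j) = v j := by
  obtain ⟨D, hD⟩ := exists_derivation (k := K) (PhE z)
    (fun s => ∑ j, v j * aeval (PhE z) (PE j s)) (by
      intro H hH
      have h1 := hv _ ⟨H, hH, rfl⟩
      rw [← h1]
      simp only [grC, Finset.mul_sum, Finset.sum_mul]
      rw [Finset.sum_comm]
      exact Finset.sum_congr rfl fun j _ => Finset.sum_congr rfl fun s _ => by ring)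
  have k1 : ∀ i, D (z i) = v i := fun i => (hD (.inl i)).trans (sum_PE z v i).1
  have k2 : ∀ i, D (Complex.exp (z i)) = v i * Complex.exp (z i) :=
    fun i => (hD (.inr i)).trans (sum_PE z v i).2
  exact ⟨D.restrictScalars ℚ, ⟨fun c hc => D.map_algebraMap ⟨c, hc⟩,
    fun i => Tf_eq (D := D.restrictScalars ℚ) (k1 i) (k2 i)⟩, k1⟩

theorem DE_span {K : Subfield ℂ} {z : Fin n → ℂ} {D : Derivation ℚ ℂ ℂ} (hD : D ∈ DE K z) {x : ℂ}
    (hx : x ∈ Submodule.span ℚ (range z)) : Tf D x = 0 := by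
  obtain ⟨q, rfl⟩ := mem_span_range hx
  rw [Tf_lin]
  exact Finset.sum_eq_zero fun j _ => by rw [hD.2, mul_zero]

/-- a combination outside of the field is moved by a compatible derivation -/
theorem ClE.moves {K : Subfield ℂ} (hK : ClE K) (z : Fin n → ℂ) {x : ℂ} (hxK : x ∉ K) :
    ∃ D ∈ DE K z, D x ≠ 0 := by
  obtain ⟨D, hD, hD1⟩ := good_DE (hK.good (n + 1) (Fin.cons x z) 0 (by simpa using hxK))
  refine ⟨D, ⟨hD.1, fun j => ?_⟩, ?_⟩
  · have := hD.2 j.succ
    simpa using this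
  · have h1 : D x = 1 := by simpa using hD1
    rw [h1]
    exact one_ne_zero

theorem ClE.clo_le {K : Subfield ℂ} (hK : ClE K) {C : IntermediateField ℚ ℂ} (hC : C ≤ IFd K)
    {A : Set ℂ} (hA : A ⊆ K) : clo C A ≤ IFd K := by
  intro x hx
  by_contra hxK
  have htr : Transcendental (IFd K) x := fun h => hxK (hK.alg x h)
  have hai : AlgebraicIndependent (IFd K) (fun _ : Unit => x) :=
    algebraicIndependent_unique_type_iff.2 htr
  obtain ⟨D, hD, hD1⟩ := exists_derF (IFd K) hai (fun _ => 1)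
  have h1 := hx D (fun y hy => hD y (hC hy)) (fun y hy => hD y (hA hy))
  rw [hD1 ()] at h1
  exact one_ne_zero h1

/-- the theorem of Hermite and Lindemann -/
theorem one_le_rank {C : IntermediateField ℚ ℂ} (hC : ∀ x ∈ C, IsAlgebraic ℚ x) {x : ℂ}
    (hx : x ≠ 0) {S : Set ℂ} (h1 : x ∈ S) (h2 : Complex.exp x ∈ S) : 1 ≤ (MK C).eRk S := by
  rw [Order.one_le_iff_ne_zero]
  intro h0
  have h3 : S ⊆ (MK C).closure ∅ := (Matroid.eRk_eq_zero_iff (M := MK C) (X := S)).1 h0
  have h4 : ∀ y ∈ S, IsAlgebraic ℚ y := by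
    intro y hy
    have h5 := Pool.Agent.TH813.Rel.mem_cl.1 (h3 hy)
    rw [Algebra.adjoin_empty] at h5
    have h6 : Algebra.IsAlgebraic ℚ C := ⟨fun c => by
      have := hC c c.2
      exact (isAlgebraic_algebraMap_iff (A := ℂ) (algebraMap C ℂ).injective).1 this⟩
    have h7 : IsAlgebraic C y := by
      have h8 : Algebra.IsAlgebraic C (⊥ : Subalgebra C ℂ) := ⟨fun c => by
        obtain ⟨r, hr⟩ := Algebra.mem_bot.1 c.2
        have : c = algebraMap C (⊥ : Subalgebra C ℂ) r := Subtype.ext hr.symm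
        rw [this]
        exact isAlgebraic_algebraMap r⟩
      exact h5.restrictScalars C
    exact h7.restrictScalars ℚ
  have h5 := Pool.Agent.H340R2.LW.lindemann_weierstrass (Finset.univ : Finset (Fin 2))
    ![x, 0] ![1, -Complex.exp x] (by
      intro i _
      fin_cases i
      · exact h4 _ h1
      · exact isAlgebraic_zero) (by
      intro i _
      fin_cases i
      · exact isAlgebraic_one
      · exact (h4 _ h2).neg) (by
      intro i _ j _ h
      fin_cases i <;> fin_cases j <;> simp_all) (by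
      rw [Fin.sum_univ_two]
      simp)
  have h6 := h5 0 (Finset.mem_univ _)
  simp at h6

end Pool.Agent.H445
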