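import Pool.Agent.H445.ExpB

/-!
# The dimension of the set of the failures of Schanuel's conjecture
-/

set_option autoImplicit false

open Set Module MvPolynomial
open Pool.Agent.TH813.Rel (DF MK subset_cl rk_le_of_subset_cl cl_of_base exists_derF)
open Pool.Agent.Y685
open Pool.Agent.Y776 (Tf lg lgL Tf_lin lg_lin ET ET_finite TfL TfL_apply Good good_der good_union
  countable_bad exists_chain grC Grad)
open Pool.Agent.W245.EB Pool.Agent.TH813.Ell H667R3 Pool.Agent.Y119.CB

noncomputable section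

namespace Pool.Agent.H445

variable {n : ℕ}

/-- a field as a rational space -/
def KQ (K : Subfield ℂ) : Submodule ℚ ℂ := Subalgebra.toSubmodule (IFd K).toSubalgebra

theorem mem_KQ {K : Subfield ℂ} {x : ℂ} : x ∈ KQ K ↔ x ∈ K := Iff.rfl

theorem alg_bot (x : ℂ) (hx : x ∈ (⊥ : IntermediateField ℚ ℂ)) : IsAlgebraic ℚ x := by
  obtain ⟨q, rfl⟩ := IntermediateField.mem_bot.1 hx
  exact isAlgebraic_algebraMap q

/-- **The dimension of the compatible directions at a failure** -/
theorem ClE.ineq {K : Subfield ℂ} (hK : ClE K) {L : PeriodPair} (hL2 : L.g₂ ∈ K) (hL3 : L.g₃ ∈ K)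
    {z : Fin n → ℂ} (hz : LinearIndependent ℚ z) {m : ℕ} (hm : 0 < m)
    (h : (MK (⊥ : IntermediateField ℚ ℂ)).eRk (ET z) + m ≤ (n : ℕ∞)) :
    2 * finrank ℂ (Tan PE K (PhE z)) + (m + 1) ≤ n ∧
      (finrank ℂ (Tan PE K (PhE z)) = 0 → ∀ j, z j ∈ K) := by
  classical
  obtain ⟨κ, hE⟩ := exists_eig L
  set V : Submodule ℚ ℂ := Submodule.span ℚ (range z) with hV
  have hVf : FiniteDimensional ℚ V := FiniteDimensional.span_of_finite ℚ (finite_range z)
  have hVn : finrank ℚ V = n := by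
    rw [hV, finrank_span_eq_card hz, Fintype.card_fin]
  set V₀ : Submodule ℚ ℂ := V ⊓ KQ K with hV₀
  have hV₀V : V₀ ≤ V := inf_le_left
  have hV₀f : FiniteDimensional ℚ V₀ := Submodule.finiteDimensional_of_le hV₀V
  obtain ⟨W, hW⟩ := Submodule.exists_isCompl (V₀.comap V.subtype)
  let V₁ : Submodule ℚ ℂ := W.map V.subtype
  have hV₁V : V₁ ≤ V := Submodule.map_subtype_le V W
  have hV₁f : FiniteDimensional ℚ V₁ := Submodule.finiteDimensional_of_le hV₁V
  have hdj : ∀ x ∈ V₁, x ∈ K → x = 0 := by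
    rintro _ ⟨x, hx, rfl⟩ hx1
    have h4 : x ∈ (V₀.comap V.subtype) ⊓ W := ⟨⟨x.2, hx1⟩, hx⟩
    rw [hW.inf_eq_bot, Submodule.mem_bot] at h4
    rw [h4]
    rfl
  have hcard : finrank ℚ V₀ + finrank ℚ V₁ = n := by
    rw [← hVn]
    have h4 := Submodule.finrank_add_eq_of_isCompl hW
    have h5 : finrank ℚ (V₀.comap V.subtype) = finrank ℚ V₀ :=
      (Submodule.comapSubtypeEquivOfLe hV₀V).finrank_eq
    have h6 : finrank ℚ V₁ = finrank ℚ W :=
      (Submodule.equivMapOfInjective V.subtype V.injective_subtype W).finrank_eq.symm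
    rw [h6, ← h5]
    exact h4
  -- the compatible derivations
  set Δ := DE K z with hΔ
  have hch := chain (L := L) (κ := κ) (K := IFd K) hE hL2 hL3 (Δ := Δ) (fun D hD => hD.1) _ V₁ hV₁f
    rfl (fun D hD x hx => DE_span hD (hV₁V hx))
    (fun x hx hx0 => hK.moves z (fun h => hx0 (hdj x hx h)))
  -- the dimension of the directions
  set d := finrank ℂ (Tan PE K (PhE z)) with hd
  have hd1 : d ≤ finrank ℂ (Δ.map (eV V₁)) := by
    have hex : ∀ v : Tan PE K (PhE z), ∃ D ∈ Δ, ∀ j, D (z j) = v.1 j := fun v => Tan_DE v.2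
    let evz : Derivation ℚ ℂ ℂ →ₗ[ℂ] (Fin n → ℂ) :=
      { toFun := fun D j => D (z j)
        map_add' := fun _ _ => rfl
        map_smul' := fun _ _ => rfl }
    -- restriction to `V₁` is injective
    have h4 : Tan PE K (PhE z) ≤ Δ.map evz := by
      intro v hv
      obtain ⟨D, hD, h5⟩ := hex ⟨v, hv⟩
      exact ⟨D, hD, funext h5⟩
    have h5 : finrank ℂ (Δ.map evz) ≤ finrank ℂ (Δ.map (eV V₁)) := by
      let f := (eV V₁).domRestrict Δ
      let g := evz.domRestrict Δ
      have hf : LinearMap.range f = Δ.map (eV V₁) := by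
        rw [LinearMap.range_domRestrict]
      have hg : LinearMap.range g = Δ.map evz := by
        rw [LinearMap.range_domRestrict]
      have hker : LinearMap.ker f ≤ LinearMap.ker g := by
        rintro ⟨D, hD⟩ h0
        have h6 : ∀ x ∈ V₁, D x = 0 := fun x hx => LinearMap.congr_fun h0 ⟨x, hx⟩
        have h7 : ∀ x ∈ V, D x = 0 := by
          intro x hx
          have h8 : (⟨x, hx⟩ : V) ∈ (V₀.comap V.subtype) ⊔ W := by
            rw [hW.sup_eq_top]; exact Submodule.mem_top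
          obtain ⟨a, ha, b, hb, hab⟩ := Submodule.mem_sup.1 h8
          have h9 : x = (a : ℂ) + (b : ℂ) := by
            have := congrArg Subtype.val hab
            exact this.symm
          have h10 : D (a : ℂ) = 0 := hD.1 _ ha.2
          have h11 : D (b : ℂ) = 0 := h6 _ ⟨b, hb, rfl⟩
          rw [h9, map_add, h10, h11, add_zero]
        exact funext fun j => h7 _ (Submodule.subset_span ⟨j, rfl⟩)
      rw [← hf, ← hg]
      have h6 : Function.Surjective (LinearMap.rangeRestrict f) := LinearMap.surjective_rangeRestrict f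
      obtain ⟨s, hs⟩ := (LinearMap.rangeRestrict f).exists_rightInverse_of_surjective
        (LinearMap.range_eq_top.2 h6)
      let φ : LinearMap.range f →ₗ[ℂ] LinearMap.range g := (LinearMap.rangeRestrict g) ∘ₗ s
      have hφ : Function.Surjective φ := by
        rintro ⟨_, D, rfl⟩
        refine ⟨LinearMap.rangeRestrict f D, ?_⟩
        have h7 : s (LinearMap.rangeRestrict f D) - D ∈ LinearMap.ker f := by
          rw [LinearMap.mem_ker, map_sub, sub_eq_zero]
          have := LinearMap.congr_fun hs (LinearMap.rangeRestrict f D)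
          exact congrArg Subtype.val this
        have h8 := hker h7
        rw [LinearMap.mem_ker, map_sub, sub_eq_zero] at h8
        exact Subtype.ext h8
      exact LinearMap.finrank_le_finrank_of_surjective hφ
    exact (Submodule.finrank_mono h4).trans h5
  have hd2 : finrank ℂ (Δ.map (eV V₁)) ≤ finrank ℚ V₁ := by
    refine (Submodule.finrank_le _).trans ?_
    rw [Module.finrank_linearMap, Module.finrank_self, mul_one]
  have hd3 : d = 0 → finrank ℚ V₁ = 0 := by
    intro h0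
    by_contra hne
    obtain ⟨x, hx, hx0⟩ : ∃ x ∈ V₁, x ≠ 0 := by
      by_contra hcon
      push Not at hcon
      apply hne
      rw [(Submodule.eq_bot_iff _).2 hcon, finrank_bot]
    have hxK : x ∉ K := fun h => hx0 (hdj x hx h)
    obtain ⟨j, hj⟩ : ∃ j, z j ∉ K := by
      by_contra hcon
      push Not at hcon
      apply hxK
      have h4 : V ≤ KQ K := by
        rw [hV, Submodule.span_le]
        rintro _ ⟨j, rfl⟩
        exact hcon j
      exact h4 (hV₁V hx)
    obtain ⟨v, hvT, hv⟩ := good_Tan (hK.good n z j hj)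
    have h4 : Tan PE K (PhE z) = ⊥ := Submodule.finrank_eq_zero.1 h0
    rw [h4, Submodule.mem_bot] at hvT
    rw [hvT] at hv
    exact zero_ne_one hv
  -- the rank
  obtain ⟨t₀, ht₀, hs₀⟩ := exists_tuple V₀
  obtain ⟨t₁, ht₁, hs₁⟩ := exists_tuple V₁
  have ht₀V : ∀ i, t₀ i ∈ V₀ := fun i => hs₀ ▸ Submodule.subset_span ⟨i, rfl⟩
  have ht₁V : ∀ i, t₁ i ∈ V₁ := fun i => hs₁ ▸ Submodule.subset_span ⟨i, rfl⟩
  have hr1 := eRk_EV (IFd K) t₁
  rw [hs₁] at hr1
  rw [hr1] at hch
  have hr2 := eRk_EV ⊥ z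
  rw [← hV] at hr2
  have hr3 : (MK (⊥ : IntermediateField ℚ ℂ)).eRk (ET t₀ ∪ ET t₁) ≤
      (MK (⊥ : IntermediateField ℚ ℂ)).eRk (ET z) := by
    rw [← hr2]
    apply (MK _).eRk_mono
    exact union_subset (ET_subset_EV fun i => hV₀V (ht₀V i)) (ET_subset_EV fun i => hV₁V (ht₁V i))
  rw [rank_add (ET_finite t₀) (ET_finite t₁)] at hr3
  have hr4 : clo ⊥ (ET t₀) ≤ IFd K := by
    apply hK.clo_le bot_le
    rintro _ (⟨i, rfl⟩ | ⟨i, rfl⟩)
    · exact (ht₀V i).2
    · exact hK.exp _ (ht₀V i).2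
  have hr5 := rank_mono_base hr4 (ET_finite t₁)
  have hr6 : 0 < finrank ℚ V₀ → 1 ≤ (MK (⊥ : IntermediateField ℚ ℂ)).eRk (ET t₀) := by
    intro h0
    exact one_le_rank alg_bot (ht₀.ne_zero ⟨0, h0⟩) (Or.inl ⟨_, rfl⟩) (Or.inr ⟨_, rfl⟩)
  -- the rank as a number
  obtain ⟨r, hr⟩ : ∃ r : ℕ, (MK (⊥ : IntermediateField ℚ ℂ)).eRk (ET t₀) = r := by
    have : (MK (⊥ : IntermediateField ℚ ℂ)).eRk (ET t₀) ≠ ⊤ := by
      rw [← lt_top_iff_ne_top]
      exact lt_of_le_of_lt ((MK _).eRk_le_encard _) (ET_finite t₀).encard_lt_top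
    exact ⟨_, (ENat.natCast_toNat this).symm⟩
  rw [hr] at hr3 hr6
  have hfin : ((r + (finrank ℚ V₁ + finrank ℂ (Δ.map (eV V₁))) + m : ℕ) : ℕ∞) ≤ n := by
    refine le_trans ?_ h
    push_cast
    refine add_le_add ?_ le_rfl
    refine le_trans ?_ hr3
    refine add_le_add le_rfl ?_
    have := hch.trans hr5
    push_cast at this
    exact this
  have hfin' : r + (finrank ℚ V₁ + finrank ℂ (Δ.map (eV V₁))) + m ≤ n := by exact_mod_cast hfin
  have hr7 : 0 < finrank ℚ V₀ → 1 ≤ r := fun h0 => by exact_mod_cast hr6 h0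
  refine ⟨?_, fun h0 j => ?_⟩
  · rcases Nat.eq_zero_or_pos (finrank ℚ V₀) with h0 | h0
    · omega
    · have := hr7 h0
      omega
  · have h4 := hd3 h0
    have h5 : V₁ = ⊥ := Submodule.finrank_eq_zero.1 h4
    have h6 : W = ⊥ := by
      rw [Submodule.eq_bot_iff]
      intro x hx
      have h7 : (x : ℂ) ∈ V₁ := ⟨x, hx, rfl⟩
      rw [h5, Submodule.mem_bot] at h7
      exact Subtype.ext h7
    have h7 := hW.sup_eq_top
    rw [h6, sup_bot_eq] at h7
    have h8 : (⟨z j, Submodule.subset_span ⟨j, rfl⟩⟩ : V) ∈ V₀.comap V.subtype := by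
      rw [h7]; exact Submodule.mem_top
    exact h8.2

end Pool.Agent.H445
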