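import Pool.Agent.H445.ExpD

/-!
# The exact dimension of the set of the failures of Schanuel's conjecture
-/

set_option autoImplicit false

open Set Module
open Pool.Agent.TH813.Rel (DF MK subset_cl rk_le_of_subset_cl cl_of_base exists_derF mem_cl)
open Pool.Agent.Y776 (ET ET_finite)
open scoped NNReal ENNReal

noncomputable section

namespace Pool.Agent.H445

/-- a real algebraic number outside of a space of finite dimension -/
theorem exists_real_alg (V : Submodule ℚ ℂ) [FiniteDimensional ℚ V] :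
    ∃ r : ℝ, IsAlgebraic ℚ (r : ℂ) ∧ (r : ℂ) ∉ V := by
  by_contra hcon
  push Not at hcon
  obtain ⟨p, hp1, hp⟩ := Nat.exists_infinite_primes (finrank ℚ V + 1)
  let α : ℝ := (2 : ℝ) ^ ((1 : ℝ) / p)
  have hα : α ^ p = 2 := by
    simp only [α]
    rw [← Real.rpow_natCast, ← Real.rpow_mul (by norm_num), one_div,
      inv_mul_cancel₀ (by exact_mod_cast hp.ne_zero), Real.rpow_one]
  have hirr : Irreducible ((Polynomial.X : Polynomial ℚ) ^ p - Polynomial.C 2) := by
    apply X_pow_sub_C_irreducible_of_prime hp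
    intro b hb
    have hb0 : b ≠ 0 := by
      rintro rfl
      rw [zero_pow hp.ne_zero] at hb
      norm_num at hb
    have h1 := congrArg (padicValRat 2) hb
    have : Fact (Nat.Prime 2) := ⟨Nat.prime_two⟩
    rw [padicValRat.pow] at h1
    have h2 : padicValRat 2 (2 : ℚ) = 1 := padicValRat.self (p := 2) (by norm_num)
    rw [h2] at h1
    have h3 : (p : ℤ) ∣ 1 := ⟨_, h1.symm⟩
    have h4 : p ∣ 1 := by exact_mod_cast h3
    exact hp.one_lt.ne' (Nat.dvd_one.1 h4)
  have hmin : minpoly ℚ (α : ℂ) = Polynomial.X ^ p - Polynomial.C 2 := by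
    symm
    refine minpoly.eq_of_irreducible_of_monic hirr ?_ (Polynomial.monic_X_pow_sub_C _ hp.ne_zero)
    rw [map_sub, map_pow, Polynomial.aeval_X, Polynomial.aeval_C]
    have : (α : ℂ) ^ p = 2 := by exact_mod_cast congrArg (Complex.ofReal) hα
    rw [this]
    simp
  have hdeg : (minpoly ℚ (α : ℂ)).natDegree = p := by
    rw [hmin, Polynomial.natDegree_X_pow_sub_C]
  have hint : IsIntegral ℚ (α : ℂ) := by
    by_contra h
    have h1 := minpoly.eq_zero h
    rw [h1, Polynomial.natDegree_zero] at hdeg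
    exact hp.ne_zero hdeg.symm
  have hli := linearIndependent_pow (K := ℚ) (α : ℂ)
  have hmem : ∀ i : Fin (minpoly ℚ (α : ℂ)).natDegree, (α : ℂ) ^ (i : ℕ) ∈ V := by
    intro i
    have h1 := hcon (α ^ (i : ℕ)) (by
      push_cast
      exact (hint.pow _).isAlgebraic)
    push_cast at h1
    exact h1
  have hli' : LinearIndependent ℚ (fun i : Fin (minpoly ℚ (α : ℂ)).natDegree =>
      (⟨(α : ℂ) ^ (i : ℕ), hmem i⟩ : V)) :=
    LinearIndependent.of_comp V.subtype hli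
  have h1 := hli'.fintype_card_le_finrank
  rw [Fintype.card_fin, hdeg] at h1
  omega

/-- failures in a set of numbers, with the rank -/
def FailR (T : Submodule ℚ ℂ) (n m : ℕ) (z : Fin n → ℂ) : Prop :=
  LinearIndependent ℚ z ∧ (∀ i, z i ∈ T) ∧
    (MK (⊥ : IntermediateField ℚ ℂ)).eRk (ET z) + m ≤ (n : ℕ∞)

theorem alg_mem_cl {y : ℂ} (hy : IsAlgebraic ℚ y) (S : Set ℂ) :
    y ∈ (MK (⊥ : IntermediateField ℚ ℂ)).closure S := by
  rw [mem_cl]
  have h3 : IsAlgebraic (⊥ : IntermediateField ℚ ℂ) y :=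
    hy.extendScalars (algebraMap ℚ (⊥ : IntermediateField ℚ ℂ)).injective
  exact h3.extendScalars (algebraMap (⊥ : IntermediateField ℚ ℂ) _).injective

theorem ET_append {s d : ℕ} (c : Fin s → ℂ) (x : Fin d → ℂ) :
    ET (Fin.append c x) = ET c ∪ ET x := by
  ext y
  simp only [ET, mem_union, mem_range]
  constructor
  · rintro (⟨i, rfl⟩ | ⟨i, rfl⟩)
    · refine Fin.addCases (fun i => ?_) (fun j => ?_) i
      · exact Or.inl (Or.inl ⟨i, by rw [Fin.append_left]⟩)
      · exact Or.inr (Or.inl ⟨j, by rw [Fin.append_right]⟩)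
    · refine Fin.addCases (fun i => ?_) (fun j => ?_) i
      · exact Or.inl (Or.inr ⟨i, by rw [Fin.append_left]⟩)
      · exact Or.inr (Or.inr ⟨j, by rw [Fin.append_right]⟩)
  · rintro ((⟨i, rfl⟩ | ⟨i, rfl⟩) | (⟨i, rfl⟩ | ⟨i, rfl⟩))
    · exact Or.inl ⟨Fin.castAdd d i, by rw [Fin.append_left]⟩
    · exact Or.inr ⟨Fin.castAdd d i, by rw [Fin.append_left]⟩
    · exact Or.inl ⟨Fin.natAdd s i, by rw [Fin.append_right]⟩
    · exact Or.inr ⟨Fin.natAdd s i, by rw [Fin.append_right]⟩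

theorem encard_ET {d : ℕ} (x : Fin d → ℂ) : (ET x).encard ≤ (2 * d : ℕ) := by
  refine (encard_union_le _ _).trans ?_
  have h1 : ∀ f : Fin d → ℂ, (range f).encard ≤ d := by
    intro f
    rw [← image_univ]
    refine (encard_image_le _ _).trans ?_
    rw [encard_univ]
    simp
  rw [two_mul]
  push_cast
  exact add_le_add (h1 _) (h1 _)

/-- adding arbitrary numbers -/
theorem FailR.append {T : Submodule ℚ ℂ} {s m d : ℕ} {c : Fin s → ℂ} (hc : FailR T s (m + d) c)
    {x : Fin d → ℂ} (hx : ∀ j, x j ∈ T) (hli : LinearIndependent ℚ (Fin.append c x)) :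
    FailR T (s + d) m (Fin.append c x) := by
  refine ⟨hli, fun i => ?_, ?_⟩
  · refine Fin.addCases (fun i => ?_) (fun j => ?_) i
    · rw [Fin.append_left]; exact hc.2.1 i
    · rw [Fin.append_right]; exact hx j
  · rw [ET_append]
    have h1 := (MK (⊥ : IntermediateField ℚ ℂ)).eRk_union_le_eRk_add_encard (ET c) (ET x)
    have h2 := hc.2.2
    calc (MK (⊥ : IntermediateField ℚ ℂ)).eRk (ET c ∪ ET x) + m
        ≤ ((MK (⊥ : IntermediateField ℚ ℂ)).eRk (ET c) + (2 * d : ℕ)) + m := by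
          gcongr
          exact h1.trans (add_le_add le_rfl (encard_ET x))
      _ = ((MK (⊥ : IntermediateField ℚ ℂ)).eRk (ET c) + (m + d : ℕ)) + d := by
          push_cast
          ring
      _ ≤ (s : ℕ∞) + d := by gcongr
      _ = ((s + d : ℕ) : ℕ∞) := by push_cast; rfl

theorem FailR.mono {T : Submodule ℚ ℂ} {n m m' : ℕ} (hm : m ≤ m') {z : Fin n → ℂ}
    (h : FailR T n m' z) : FailR T n m z :=
  ⟨h.1, h.2.1, le_trans (by gcongr) h.2.2⟩

/-- adding algebraic numbers -/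
theorem FailR.succ {T : Submodule ℚ ℂ} (hT : ∀ r : ℝ, (r : ℂ) ∈ T) {s m : ℕ} {c : Fin s → ℂ}
    (hc : FailR T s m c) : ∃ c' : Fin (s + 1) → ℂ, FailR T (s + 1) m c' := by
  have : FiniteDimensional ℚ (Submodule.span ℚ (range c)) :=
    FiniteDimensional.span_of_finite ℚ (finite_range c)
  obtain ⟨r, hr1, hr2⟩ := exists_real_alg (Submodule.span ℚ (range c))
  refine ⟨Fin.snoc c (r : ℂ), ?_, ?_, ?_⟩
  · exact LinearIndependent.finSnoc hc.1 hr2
  · intro i
    refine Fin.lastCases ?_ (fun i => ?_) i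
    · rw [Fin.snoc_last]; exact hT r
    · rw [Fin.snoc_castSucc]; exact hc.2.1 i
  · have h1 : ET (Fin.snoc c (r : ℂ) : Fin (s + 1) → ℂ) ⊆
        (MK (⊥ : IntermediateField ℚ ℂ)).closure (insert (Complex.exp r) (ET c)) := by
      rintro y (⟨i, rfl⟩ | ⟨i, rfl⟩)
      · refine Fin.lastCases ?_ (fun i => ?_) i
        · rw [Fin.snoc_last]
          exact alg_mem_cl hr1 _
        · rw [Fin.snoc_castSucc]
          exact subset_cl _ (mem_insert_of_mem _ (Or.inl ⟨i, rfl⟩))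
      · refine Fin.lastCases ?_ (fun i => ?_) i
        · beta_reduce
          rw [Fin.snoc_last]
          exact subset_cl _ (mem_insert _ _)
        · beta_reduce
          rw [Fin.snoc_castSucc]
          exact subset_cl _ (mem_insert_of_mem _ (Or.inr ⟨i, rfl⟩))
    calc (MK (⊥ : IntermediateField ℚ ℂ)).eRk (ET (Fin.snoc c (r : ℂ) : Fin (s + 1) → ℂ)) + m
        ≤ ((MK (⊥ : IntermediateField ℚ ℂ)).eRk (ET c) + 1) + m := by
          gcongr
          exact (rk_le_of_subset_cl h1).trans ((MK _).eRk_insert_le_add_one _ _)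
      _ = ((MK (⊥ : IntermediateField ℚ ℂ)).eRk (ET c) + m) + 1 := by ring
      _ ≤ (s : ℕ∞) + 1 := by gcongr; exact hc.2.2
      _ = ((s + 1 : ℕ) : ℕ∞) := by push_cast; rfl

theorem FailR.extend {T : Submodule ℚ ℂ} (hT : ∀ r : ℝ, (r : ℂ) ∈ T) {s n m : ℕ} (hs : s ≤ n)
    (h : ∃ c : Fin s → ℂ, FailR T s m c) : ∃ c : Fin n → ℂ, FailR T n m c := by
  induction n, hs using Nat.le_induction with
  | base => exact h
  | succ n _ ih =>
    obtain ⟨c, hc⟩ := ih
    exact hc.succ hT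

/-- **the level of a failure** -/
theorem FailR.level {T : Submodule ℚ ℂ} (hT : ∀ r : ℝ, (r : ℂ) ∈ T) {K : Subfield ℂ} (hK : ClE K)
    {L : PeriodPair} (hL2 : L.g₂ ∈ K) (hL3 : L.g₃ ∈ K) {n m : ℕ} {z : Fin n → ℂ}
    (hz : FailR T n m z) :
    finrank ℂ (Tan PE K (PhE z)) ≤ n ∧
    (∃ c : Fin (n - finrank ℂ (Tan PE K (PhE z))) → ℂ,
      FailR T (n - finrank ℂ (Tan PE K (PhE z))) (m + finrank ℂ (Tan PE K (PhE z))) c) ∧
    (finrank ℂ (Tan PE K (PhE z)) = 0 → ∀ j, z j ∈ K) := by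
  obtain ⟨⟨s, t, h1, h2, h3, h4⟩, h5⟩ := hK.reduce hL2 hL3 hz.1 hz.2.2
  refine ⟨by omega, ?_, h5⟩
  refine FailR.extend hT (by omega : s ≤ n - finrank ℂ (Tan PE K (PhE z))) ⟨t, h2, fun i => ?_, h4⟩
  have h6 : Submodule.span ℚ (range z) ≤ T := by
    rw [Submodule.span_le]
    rintro _ ⟨j, rfl⟩
    exact hz.2.1 j
  exact h6 (h3 i)

/-- from larger to smaller defects -/
theorem FailR.down {T : Submodule ℚ ℂ} (hT : ∀ r : ℝ, (r : ℂ) ∈ T) {n m d e : ℕ} (hed : e ≤ d)
    (hd : d ≤ n) (h : ∃ c : Fin (n - d) → ℂ, FailR T (n - d) (m + d) c) :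
    ∃ c : Fin (n - e) → ℂ, FailR T (n - e) (m + e) c := by
  obtain ⟨c, hc⟩ := FailR.extend hT (by omega : n - d ≤ n - e) h
  exact ⟨c, hc.mono (by omega)⟩

/-- the theorem of Hermite and Lindemann -/
theorem FailR.lt {T : Submodule ℚ ℂ} {n m : ℕ} (hm : 1 ≤ m) {z : Fin n → ℂ} (hz : FailR T n m z) :
    m < n := by
  have h1 : m ≤ n := by
    have := (le_add_self : (m : ℕ∞) ≤ _ + m).trans hz.2.2
    exact_mod_cast this
  have h0 : 0 < n := by omega
  have h2 := one_le_rank alg_bot (hz.1.ne_zero ⟨0, h0⟩) (S := ET z) (Or.inl ⟨_, rfl⟩)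
    (Or.inr ⟨_, rfl⟩)
  have h3 : ((1 + m : ℕ) : ℕ∞) ≤ n := by
    push_cast
    exact (add_le_add h2 le_rfl).trans hz.2.2
  have h4 : 1 + m ≤ n := by exact_mod_cast h3
  omega

end Pool.Agent.H445
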