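import Pool.Agent.H445.ExpE

/-!
# Tuples of given transcendence degree over a countable field: reduction to a closed field
-/

set_option autoImplicit false

open Set Module MvPolynomial
open Pool.Agent.TH813.Rel (DF MK subset_cl rk_le_of_subset_cl cl_of_base exists_derF mem_cl)
open Pool.Agent.Y685
open Pool.Agent.Y776 (Tf lg lgL Tf_lin lg_lin ET ET_finite TfL TfL_apply Good good_der good_union
  countable_bad exists_chain grC Grad)
open Pool.Agent.W245.EB Pool.Agent.TH813.Ell H667R3 Pool.Agent.Y119.CB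

noncomputable section

namespace Pool.Agent.H445

variable {n : ℕ}

/-- **Reduction of a tuple to the closed field** -/
theorem ClE.reduceF {K : Subfield ℂ} (hK : ClE K) {L : PeriodPair} (hL2 : L.g₂ ∈ K) (hL3 : L.g₃ ∈ K)
    {C : IntermediateField ℚ ℂ} (hC : C ≤ IFd K)
    {z : Fin n → ℂ} (hz : LinearIndependent ℚ z) {k : ℕ} (h : (MK C).eRk (ET z) ≤ (k : ℕ∞)) :
    (∃ (s e r : ℕ) (t : Fin s → ℂ), s + e = n ∧ finrank ℂ (Tan PE K (PhE z)) ≤ e ∧
      r + e + finrank ℂ (Tan PE K (PhE z)) ≤ k ∧ LinearIndependent ℚ t ∧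
      (∀ i, t i ∈ Submodule.span ℚ (range z)) ∧ (∀ i, t i ∈ K) ∧
      (MK C).eRk (ET t) ≤ (r : ℕ∞)) ∧
      (finrank ℂ (Tan PE K (PhE z)) = 0 → ∀ j, z j ∈ K) := by
  classical
  obtain ⟨κ, hE⟩ := exists_eig L
  set V : Submodule ℚ ℂ := Submodule.span ℚ (range z) with hV
  have hVf : FiniteDimensional ℚ V := FiniteDimensional.span_of_finite ℚ (finite_range z)
  have hVn : finrank ℚ V = n := by
    rw [hV, finrank_span_eq_card hz, Fintype.card_fin]
  set V₀ : Submodule ℚ ℂ := V ⊓ KQ K with hV₀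
  have hV₀V : V₀ ≤ V := inf_le_left
  have hV₀f : FiniteDimensional ℚ V₀ := Submodule.finiteDimensional_of_le hV₀V
  obtain ⟨W, hW⟩ := Submodule.exists_isCompl (V₀.comap V.subtype)
  let V₁ : Submodule ℚ ℂ := W.map V.subtype
  have hV₁V : V₁ ≤ V := Submodule.map_subtype_le V W
  have hV₁f : FiniteDimensional ℚ V₁ := Submodule.finiteDimensional_of_le hV₁V
  have hdj : ∀ x ∈ V₁, x ∈ K → x = 0 := by
    rintro _ ⟨x, hx, rfl⟩ hx1
    have h4 : x ∈ (V₀.comap V.subtype) ⊓ W := ⟨⟨x.2, hx1⟩, hx⟩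
    rw [hW.inf_eq_bot, Submodule.mem_bot] at h4
    rw [h4]
    rfl
  have hcard : finrank ℚ V₀ + finrank ℚ V₁ = n := by
    rw [← hVn]
    have h4 := Submodule.finrank_add_eq_of_isCompl hW
    have h5 : finrank ℚ (V₀.comap V.subtype) = finrank ℚ V₀ :=
      (Submodule.comapSubtypeEquivOfLe hV₀V).finrank_eq
    have h6 : finrank ℚ V₁ = finrank ℚ W :=
      (Submodule.equivMapOfInjective V.subtype V.injective_subtype W).finrank_eq.symm
    rw [h6, ← h5]
    exact h4
  -- the compatible derivations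
  set Δ := DE K z with hΔ
  have hch := chain (L := L) (κ := κ) (K := IFd K) hE hL2 hL3 (Δ := Δ) (fun D hD => hD.1) _ V₁ hV₁f
    rfl (fun D hD x hx => DE_span hD (hV₁V hx))
    (fun x hx hx0 => hK.moves z (fun h => hx0 (hdj x hx h)))
  -- the dimension of the directions
  set d := finrank ℂ (Tan PE K (PhE z)) with hd
  have hd1 : d ≤ finrank ℂ (Δ.map (eV V₁)) := by
    have hex : ∀ v : Tan PE K (PhE z), ∃ D ∈ Δ, ∀ j, D (z j) = v.1 j := fun v => Tan_DE v.2
    let evz : Derivation ℚ ℂ ℂ →ₗ[ℂ] (Fin n → ℂ) :=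
      { toFun := fun D j => D (z j)
        map_add' := fun _ _ => rfl
        map_smul' := fun _ _ => rfl }
    -- restriction to `V₁` is injective
    have h4 : Tan PE K (PhE z) ≤ Δ.map evz := by
      intro v hv
      obtain ⟨D, hD, h5⟩ := hex ⟨v, hv⟩
      exact ⟨D, hD, funext h5⟩
    have h5 : finrank ℂ (Δ.map evz) ≤ finrank ℂ (Δ.map (eV V₁)) := by
      let f := (eV V₁).domRestrict Δ
      let g := evz.domRestrict Δ
      have hf : LinearMap.range f = Δ.map (eV V₁) := by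
        rw [LinearMap.range_domRestrict]
      have hg : LinearMap.range g = Δ.map evz := by
        rw [LinearMap.range_domRestrict]
      have hker : LinearMap.ker f ≤ LinearMap.ker g := by
        rintro ⟨D, hD⟩ h0
        have h6 : ∀ x ∈ V₁, D x = 0 := fun x hx => LinearMap.congr_fun h0 ⟨x, hx⟩
        have h7 : ∀ x ∈ V, D x = 0 := by
          intro x hx
          have h8 : (⟨x, hx⟩ : V) ∈ (V₀.comap V.subtype) ⊔ W := by
            rw [hW.sup_eq_top]; exact Submodule.mem_top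
          obtain ⟨a, ha, b, hb, hab⟩ := Submodule.mem_sup.1 h8
          have h9 : x = (a : ℂ) + (b : ℂ) := by
            have := congrArg Subtype.val hab
            exact this.symm
          have h10 : D (a : ℂ) = 0 := hD.1 _ ha.2
          have h11 : D (b : ℂ) = 0 := h6 _ ⟨b, hb, rfl⟩
          rw [h9, map_add, h10, h11, add_zero]
        exact funext fun j => h7 _ (Submodule.subset_span ⟨j, rfl⟩)
      rw [← hf, ← hg]
      have h6 : Function.Surjective (LinearMap.rangeRestrict f) := LinearMap.surjective_rangeRestrict f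
      obtain ⟨s, hs⟩ := (LinearMap.rangeRestrict f).exists_rightInverse_of_surjective
        (LinearMap.range_eq_top.2 h6)
      let φ : LinearMap.range f →ₗ[ℂ] LinearMap.range g := (LinearMap.rangeRestrict g) ∘ₗ s
      have hφ : Function.Surjective φ := by
        rintro ⟨_, D, rfl⟩
        refine ⟨LinearMap.rangeRestrict f D, ?_⟩
        have h7 : s (LinearMap.rangeRestrict f D) - D ∈ LinearMap.ker f := by
          rw [LinearMap.mem_ker, map_sub, sub_eq_zero]
          have := LinearMap.congr_fun hs (LinearMap.rangeRestrict f D)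
          exact congrArg Subtype.val this
        have h8 := hker h7
        rw [LinearMap.mem_ker, map_sub, sub_eq_zero] at h8
        exact Subtype.ext h8
      exact LinearMap.finrank_le_finrank_of_surjective hφ
    exact (Submodule.finrank_mono h4).trans h5
  have hd2 : finrank ℂ (Δ.map (eV V₁)) ≤ finrank ℚ V₁ := by
    refine (Submodule.finrank_le _).trans ?_
    rw [Module.finrank_linearMap, Module.finrank_self, mul_one]
  have hd3 : d = 0 → finrank ℚ V₁ = 0 := by
    intro h0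
    by_contra hne
    obtain ⟨x, hx, hx0⟩ : ∃ x ∈ V₁, x ≠ 0 := by
      by_contra hcon
      push Not at hcon
      apply hne
      rw [(Submodule.eq_bot_iff _).2 hcon, finrank_bot]
    have hxK : x ∉ K := fun h => hx0 (hdj x hx h)
    obtain ⟨j, hj⟩ : ∃ j, z j ∉ K := by
      by_contra hcon
      push Not at hcon
      apply hxK
      have h4 : V ≤ KQ K := by
        rw [hV, Submodule.span_le]
        rintro _ ⟨j, rfl⟩
        exact hcon j
      exact h4 (hV₁V hx)
    obtain ⟨v, hvT, hv⟩ := good_Tan (hK.good n z j hj)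
    have h4 : Tan PE K (PhE z) = ⊥ := Submodule.finrank_eq_zero.1 h0
    rw [h4, Submodule.mem_bot] at hvT
    rw [hvT] at hv
    exact zero_ne_one hv
  -- the rank
  obtain ⟨t₀, ht₀, hs₀⟩ := exists_tuple V₀
  obtain ⟨t₁, ht₁, hs₁⟩ := exists_tuple V₁
  have ht₀V : ∀ i, t₀ i ∈ V₀ := fun i => hs₀ ▸ Submodule.subset_span ⟨i, rfl⟩
  have ht₁V : ∀ i, t₁ i ∈ V₁ := fun i => hs₁ ▸ Submodule.subset_span ⟨i, rfl⟩
  have hr1 := eRk_EV (IFd K) t₁
  rw [hs₁] at hr1
  rw [hr1] at hch
  have hr2 := eRk_EV C z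
  rw [← hV] at hr2
  have hr3 : (MK C).eRk (ET t₀ ∪ ET t₁) ≤ (MK C).eRk (ET z) := by
    rw [← hr2]
    apply (MK _).eRk_mono
    exact union_subset (ET_subset_EV fun i => hV₀V (ht₀V i)) (ET_subset_EV fun i => hV₁V (ht₁V i))
  rw [rank_add (ET_finite t₀) (ET_finite t₁)] at hr3
  have hr4 : clo C (ET t₀) ≤ IFd K := by
    apply hK.clo_le hC
    rintro _ (⟨i, rfl⟩ | ⟨i, rfl⟩)
    · exact (ht₀V i).2
    · exact hK.exp _ (ht₀V i).2
  have hr5 := rank_mono_base hr4 (ET_finite t₁)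
  -- the rank as a number
  obtain ⟨r, hr⟩ : ∃ r : ℕ, (MK C).eRk (ET t₀) = r := by
    have : (MK C).eRk (ET t₀) ≠ ⊤ := by
      rw [← lt_top_iff_ne_top]
      exact lt_of_le_of_lt ((MK _).eRk_le_encard _) (ET_finite t₀).encard_lt_top
    exact ⟨_, (ENat.natCast_toNat this).symm⟩
  rw [hr] at hr3
  have hfin : ((r + (finrank ℚ V₁ + finrank ℂ (Δ.map (eV V₁))) : ℕ) : ℕ∞) ≤ k := by
    refine le_trans ?_ h
    push_cast
    refine le_trans ?_ hr3
    refine add_le_add le_rfl ?_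
    have := hch.trans hr5
    push_cast at this
    exact this
  have hfin' : r + (finrank ℚ V₁ + finrank ℂ (Δ.map (eV V₁))) ≤ k := by exact_mod_cast hfin
  refine ⟨⟨finrank ℚ V₀, finrank ℚ V₁, r, t₀, hcard, by omega, by omega, ht₀,
    fun i => hV₀V (ht₀V i), fun i => (ht₀V i).2, hr.le⟩, fun h0 j => ?_⟩
  have h4 := hd3 h0
  have h5 : V₁ = ⊥ := Submodule.finrank_eq_zero.1 h4
  have h6 : W = ⊥ := by
    rw [Submodule.eq_bot_iff]
    intro x hx
    have h7 : (x : ℂ) ∈ V₁ := ⟨x, hx, rfl⟩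
    rw [h5, Submodule.mem_bot] at h7
    exact Subtype.ext h7
  have h7 := hW.sup_eq_top
  rw [h6, sup_bot_eq] at h7
  have h8 : (⟨z j, Submodule.subset_span ⟨j, rfl⟩⟩ : V) ∈ V₀.comap V.subtype := by
    rw [h7]; exact Submodule.mem_top
  exact h8.2

/-- independent tuples in a set of numbers, of bounded rank over a field -/
def TupR (C : IntermediateField ℚ ℂ) (T : Submodule ℚ ℂ) (n k : ℕ) (z : Fin n → ℂ) : Prop :=
  LinearIndependent ℚ z ∧ (∀ i, z i ∈ T) ∧ (MK C).eRk (ET z) ≤ (k : ℕ∞)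

variable {C : IntermediateField ℚ ℂ} {T : Submodule ℚ ℂ}

theorem alg_mem_clF {y : ℂ} (hy : IsAlgebraic ℚ y) (S : Set ℂ) : y ∈ (MK C).closure S := by
  rw [mem_cl]
  have h3 : IsAlgebraic C y := hy.extendScalars (algebraMap ℚ C).injective
  exact h3.extendScalars (algebraMap C _).injective

theorem TupR.mono {n k k' : ℕ} (hk : k ≤ k') {z : Fin n → ℂ} (h : TupR C T n k z) :
    TupR C T n k' z :=
  ⟨h.1, h.2.1, h.2.2.trans (by exact_mod_cast hk)⟩

/-- adding arbitrary numbers -/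
theorem TupR.append {s k d : ℕ} {c : Fin s → ℂ} (hc : TupR C T s k c)
    {x : Fin d → ℂ} (hx : ∀ j, x j ∈ T) (hli : LinearIndependent ℚ (Fin.append c x)) :
    TupR C T (s + d) (k + 2 * d) (Fin.append c x) := by
  refine ⟨hli, fun i => ?_, ?_⟩
  · refine Fin.addCases (fun i => ?_) (fun j => ?_) i
    · rw [Fin.append_left]; exact hc.2.1 i
    · rw [Fin.append_right]; exact hx j
  · rw [ET_append]
    have h1 := (MK C).eRk_union_le_eRk_add_encard (ET c) (ET x)
    refine h1.trans ?_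
    push_cast
    refine add_le_add hc.2.2 ?_
    have := encard_ET x
    push_cast at this
    exact this

/-- adding algebraic numbers -/
theorem TupR.succ (hT : ∀ r : ℝ, (r : ℂ) ∈ T) {s k : ℕ} {c : Fin s → ℂ}
    (hc : TupR C T s k c) : ∃ c' : Fin (s + 1) → ℂ, TupR C T (s + 1) (k + 1) c' := by
  have : FiniteDimensional ℚ (Submodule.span ℚ (range c)) :=
    FiniteDimensional.span_of_finite ℚ (finite_range c)
  obtain ⟨r, hr1, hr2⟩ := exists_real_alg (Submodule.span ℚ (range c))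
  refine ⟨Fin.snoc c (r : ℂ), ?_, ?_, ?_⟩
  · exact LinearIndependent.finSnoc hc.1 hr2
  · intro i
    refine Fin.lastCases ?_ (fun i => ?_) i
    · rw [Fin.snoc_last]; exact hT r
    · rw [Fin.snoc_castSucc]; exact hc.2.1 i
  · have h1 : ET (Fin.snoc c (r : ℂ) : Fin (s + 1) → ℂ) ⊆
        (MK C).closure (insert (Complex.exp r) (ET c)) := by
      rintro y (⟨i, rfl⟩ | ⟨i, rfl⟩)
      · refine Fin.lastCases ?_ (fun i => ?_) i
        · rw [Fin.snoc_last]
          exact alg_mem_clF hr1 _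
        · rw [Fin.snoc_castSucc]
          exact subset_cl _ (mem_insert_of_mem _ (Or.inl ⟨i, rfl⟩))
      · refine Fin.lastCases ?_ (fun i => ?_) i
        · beta_reduce
          rw [Fin.snoc_last]
          exact subset_cl _ (mem_insert _ _)
        · beta_reduce
          rw [Fin.snoc_castSucc]
          exact subset_cl _ (mem_insert_of_mem _ (Or.inr ⟨i, rfl⟩))
    refine (rk_le_of_subset_cl h1).trans (((MK _).eRk_insert_le_add_one _ _).trans ?_)
    push_cast
    exact add_le_add hc.2.2 le_rfl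

theorem TupR.extend' (hT : ∀ r : ℝ, (r : ℂ) ∈ T) {s k : ℕ} (e : ℕ)
    (h : ∃ c : Fin s → ℂ, TupR C T s k c) : ∃ c : Fin (s + e) → ℂ, TupR C T (s + e) (k + e) c := by
  induction e with
  | zero => exact h
  | succ e ih =>
    obtain ⟨c, hc⟩ := ih
    exact hc.succ hT

theorem TupR.extend (hT : ∀ r : ℝ, (r : ℂ) ∈ T) {s k s' k' : ℕ} (hs : s ≤ s')
    (hk : k + (s' - s) ≤ k') (h : ∃ c : Fin s → ℂ, TupR C T s k c) :
    ∃ c : Fin s' → ℂ, TupR C T s' k' c := by
  obtain ⟨e, rfl⟩ := Nat.exists_eq_add_of_le hs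
  obtain ⟨c, hc⟩ := TupR.extend' hT e h
  exact ⟨c, hc.mono (by omega)⟩

/-- **the level of a tuple** -/
theorem TupR.level (hT : ∀ r : ℝ, (r : ℂ) ∈ T) {K : Subfield ℂ} (hK : ClE K)
    {L : PeriodPair} (hL2 : L.g₂ ∈ K) (hL3 : L.g₃ ∈ K) (hC : C ≤ IFd K) {n k : ℕ} {z : Fin n → ℂ}
    (hz : TupR C T n k z) :
    finrank ℂ (Tan PE K (PhE z)) ≤ n ∧ 2 * finrank ℂ (Tan PE K (PhE z)) ≤ k ∧
    (∃ c : Fin (n - finrank ℂ (Tan PE K (PhE z))) → ℂ,
      TupR C T (n - finrank ℂ (Tan PE K (PhE z))) (k - 2 * finrank ℂ (Tan PE K (PhE z))) c) ∧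
    (finrank ℂ (Tan PE K (PhE z)) = 0 → ∀ j, z j ∈ K) := by
  obtain ⟨⟨s, e, r, t, h1, h2, h3, h4, h5, -, h6⟩, h7⟩ := hK.reduceF hL2 hL3 hC hz.1 hz.2.2
  refine ⟨by omega, by omega, ?_, h7⟩
  have h8 : Submodule.span ℚ (range z) ≤ T := by
    rw [Submodule.span_le]
    rintro _ ⟨j, rfl⟩
    exact hz.2.1 j
  exact TupR.extend (C := C) hT (s := s) (k := r) (by omega) (by omega)
    ⟨t, h4, fun i => h8 (h5 i), h6⟩

/-- fewer free directions -/
theorem TupR.down (hT : ∀ r : ℝ, (r : ℂ) ∈ T) {n k d e : ℕ} (hed : e ≤ d)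
    (hd : d ≤ n) (hd2 : 2 * d ≤ k)
    (h : ∃ c : Fin (n - d) → ℂ, TupR C T (n - d) (k - 2 * d) c) :
    ∃ c : Fin (n - e) → ℂ, TupR C T (n - e) (k - 2 * e) c := by
  exact TupR.extend hT (by omega) (by omega) h

end Pool.Agent.H445
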